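import Mathlib

set_option autoImplicit false
set_option maxHeartbeats 400000

namespace Pool.Agent.H40Z.Disc

open MeasureTheory

open Classical in
/-- the real indicator of a proposition -/
noncomputable def ind (Q : Prop) : ℝ := if Q then 1 else 0

lemma ind_pos {Q : Prop} (h : Q) : ind Q = 1 := by simp [ind, h]
lemma ind_neg {Q : Prop} (h : ¬ Q) : ind Q = 0 := by simp [ind, h]
lemma ind_nonneg (Q : Prop) : 0 ≤ ind Q := by
  by_cases h : Q
  · rw [ind_pos h]; norm_num
  · rw [ind_neg h]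
lemma ind_le_one (Q : Prop) : ind Q ≤ 1 := by
  by_cases h : Q
  · rw [ind_pos h]
  · rw [ind_neg h]; norm_num
lemma ind_congr {Q R : Prop} (h : Q ↔ R) : ind Q = ind R := by
  rw [propext h]

lemma card_filter_eq {ι : Type*} (s : Finset ι) (Q : ι → Prop) [DecidablePred Q] :
    ((s.filter Q).card : ℝ) = ∑ i ∈ s, ind (Q i) := by
  rw [Finset.card_filter]
  push_cast
  refine Finset.sum_congr rfl fun i _ => ?_
  by_cases h : Q i
  · rw [if_pos h, ind_pos h]
  · rw [if_neg h, ind_neg h]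

lemma ind_forall {ι : Type*} [Fintype ι] (Q : ι → Prop) : ind (∀ j, Q j) = ∏ j, ind (Q j) := by
  by_cases h : ∀ j, Q j
  · rw [ind_pos h]
    exact (Finset.prod_eq_one fun j _ => ind_pos (h j)).symm
  · rw [ind_neg h]
    push Not at h
    obtain ⟨j, hj⟩ := h
    exact (Finset.prod_eq_zero (Finset.mem_univ j) (ind_neg hj)).symm

/-- indicator of the periodic interval from `x` to `y` at the point `z` -/
noncomputable def per (x y z : ℝ) : ℝ := ind (z < y) - ind (z < x) + ind (y < x)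

/-- length of the periodic interval from `x` to `y` -/
noncomputable def len (x y : ℝ) : ℝ := y - x + ind (y < x)

lemma per_eq1 (x y z : ℝ) :
    ind ((x ≤ y ∧ x ≤ z ∧ z < y) ∨ (y < x ∧ (z < y ∨ x ≤ z))) = per x y z := by
  unfold per
  rcases le_or_gt x y with h | h
  · rw [ind_neg (not_lt.2 h)]
    by_cases h1 : z < x
    · rw [ind_pos h1, ind_pos (lt_of_lt_of_le h1 h), ind_neg]
      · ring
      · rintro (⟨_, h2, _⟩ | ⟨h2, _⟩) <;> linarith
    · rw [ind_neg h1]
      by_cases h2 : z < y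
      · rw [ind_pos h2, ind_pos (Or.inl ⟨h, not_lt.1 h1, h2⟩)]; ring
      · rw [ind_neg h2, ind_neg]
        · ring
        · rintro (⟨_, _, h3⟩ | ⟨h3, _⟩)
          · exact h2 h3
          · linarith
  · rw [ind_pos h]
    by_cases h2 : z < y
    · rw [ind_pos h2, ind_pos (h2.trans h), ind_pos (Or.inr ⟨h, Or.inl h2⟩)]; ring
    · rw [ind_neg h2]
      by_cases h1 : z < x
      · rw [ind_pos h1, ind_neg]
        · ring
        · rintro (⟨h3, _⟩ | ⟨_, h3 | h3⟩)
          · linarith
          · exact h2 h3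
          · linarith
      · rw [ind_neg h1, ind_pos (Or.inr ⟨h, Or.inr (not_lt.1 h1)⟩)]; ring

lemma per_eq2 (x y z : ℝ) [Decidable (x ≤ y)] :
    ind (if x ≤ y then (x ≤ z ∧ z < y) else (z < y ∨ x ≤ z)) = per x y z := by
  rw [← per_eq1]
  apply ind_congr
  by_cases h : x ≤ y
  · rw [if_pos h]
    constructor
    · intro h1; exact Or.inl ⟨h, h1⟩
    · rintro (⟨_, h1⟩ | ⟨h1, _⟩)
      · exact h1
      · linarith
  · rw [if_neg h]
    constructor
    · intro h1; exact Or.inr ⟨not_le.1 h, h1⟩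
    · rintro (⟨h1, _⟩ | ⟨_, h1⟩)
      · exact absurd h1 h
      · exact h1

lemma per_eq3 (x y z : ℝ) (h : x ≤ y) : ind (x ≤ z ∧ z < y) = per x y z := by
  classical
  rw [← per_eq2, if_pos h]

lemma per_nonneg (x y z : ℝ) : 0 ≤ per x y z := by rw [← per_eq1]; exact ind_nonneg _
lemma per_le_one (x y z : ℝ) : per x y z ≤ 1 := by rw [← per_eq1]; exact ind_le_one _

lemma len_eq (x y : ℝ) [Decidable (x ≤ y)] :
    (if x ≤ y then y - x else 1 - x + y) = len x y := by
  unfold len
  by_cases h : x ≤ y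
  · rw [if_pos h, ind_neg (not_lt.2 h)]; ring
  · rw [if_neg h, ind_pos (not_le.1 h)]; ring

lemma len_nonneg {x y : ℝ} (hx : x ≤ 1) (hy : 0 ≤ y) : 0 ≤ len x y := by
  classical
  rw [← len_eq]
  split_ifs <;> linarith

lemma len_le_one {x y : ℝ} (hx : 0 ≤ x) (hy : y ≤ 1) : len x y ≤ 1 := by
  classical
  rw [← len_eq]
  split_ifs with h
  · linarith
  · push Not at h; linarith

lemma measurable_ind {α : Type*} [MeasurableSpace α] {f g : α → ℝ} (hf : Measurable f)
    (hg : Measurable g) : Measurable (fun a => ind (f a < g a)) := by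
  unfold ind
  exact Measurable.ite (measurableSet_lt hf hg) measurable_const measurable_const

lemma measurable_per {α : Type*} [MeasurableSpace α] {f g : α → ℝ} (hf : Measurable f)
    (hg : Measurable g) (z : ℝ) : Measurable (fun a => per (f a) (g a) z) := by
  unfold per
  exact ((measurable_ind measurable_const hg).sub (measurable_ind measurable_const hf)).add
    (measurable_ind hg hf)

lemma measurable_len {α : Type*} [MeasurableSpace α] {f g : α → ℝ} (hf : Measurable f)
    (hg : Measurable g) : Measurable (fun a => len (f a) (g a)) := by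
  unfold len
  exact (hg.sub hf).add (measurable_ind hg hf)

/-- the periodic local discrepancy of a finite family of points -/
noncomputable def disc {d : ℕ} {ι : Type*} (s : Finset ι) (P : ι → Fin d → ℝ) (N : ℝ)
    (x y : Fin d → ℝ) : ℝ :=
  ∑ i ∈ s, ∏ j, per (x j) (y j) (P i j) - N * ∏ j, len (x j) (y j)

lemma measurable_disc {d : ℕ} {ι : Type*} (s : Finset ι) (P : ι → Fin d → ℝ) (N : ℝ) :
    Measurable (fun q : (Fin d → ℝ) × (Fin d → ℝ) => disc s P N q.1 q.2) := by
  unfold disc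
  refine Measurable.sub ?_ (Measurable.const_mul ?_ _)
  · refine Finset.measurable_sum _ fun i _ => Finset.measurable_prod _ fun j _ => ?_
    exact measurable_per ((measurable_pi_apply j).comp measurable_fst)
      ((measurable_pi_apply j).comp measurable_snd) _
  · refine Finset.measurable_prod _ fun j _ => ?_
    exact measurable_len ((measurable_pi_apply j).comp measurable_fst)
      ((measurable_pi_apply j).comp measurable_snd)

lemma abs_disc_le {d : ℕ} {ι : Type*} (s : Finset ι) (P : ι → Fin d → ℝ) (N : ℝ) (hN : 0 ≤ N)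
    (x y : Fin d → ℝ) (hx : ∀ j, 0 ≤ x j ∧ x j ≤ 1) (hy : ∀ j, 0 ≤ y j ∧ y j ≤ 1) :
    |disc s P N x y| ≤ s.card + N := by
  unfold disc
  have h1 : 0 ≤ ∑ i ∈ s, ∏ j, per (x j) (y j) (P i j) :=
    Finset.sum_nonneg fun i _ => Finset.prod_nonneg fun j _ => per_nonneg _ _ _
  have h2 : ∑ i ∈ s, ∏ j, per (x j) (y j) (P i j) ≤ s.card := by
    have : ∑ i ∈ s, ∏ j, per (x j) (y j) (P i j) ≤ ∑ i ∈ s, (1 : ℝ) :=
      Finset.sum_le_sum fun i _ =>
        Finset.prod_le_one (fun j _ => per_nonneg _ _ _) fun j _ => per_le_one _ _ _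
    simpa using this
  have h3 : 0 ≤ ∏ j, len (x j) (y j) :=
    Finset.prod_nonneg fun j _ => len_nonneg (hx j).2 (hy j).1
  have h4 : ∏ j, len (x j) (y j) ≤ 1 :=
    Finset.prod_le_one (fun j _ => len_nonneg (hx j).2 (hy j).1)
      fun j _ => len_le_one (hx j).1 (hy j).2
  have h5 : N * ∏ j, len (x j) (y j) ≤ N := by nlinarith
  have h6 : 0 ≤ N * ∏ j, len (x j) (y j) := mul_nonneg hN h3
  have h7 : (0 : ℝ) ≤ s.card := Nat.cast_nonneg _
  rw [abs_le]
  constructor <;> linarith

section Iterated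

variable {α : Type*} [MeasurableSpace α] (μ : Measure α) [SFinite μ]

lemma inner_integrable (S : Set α) (hS : MeasurableSet S) (hfin : μ S ≠ ⊤) (F : α → α → ℝ)
    (hF : Measurable (fun q : α × α => F q.1 q.2)) (M : ℝ)
    (hM : ∀ x ∈ S, ∀ y ∈ S, |F x y| ≤ M) (x : α) (hx : x ∈ S) : IntegrableOn (F x) S μ := by
  have hm : Measurable (F x) := hF.comp (measurable_prodMk_left (x := x))
  refine Measure.integrableOn_of_bounded (M := M) hfin hm.aestronglyMeasurable ?_
  filter_upwards [ae_restrict_mem hS] with y hy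
  exact hM x hx y hy

lemma outer_integrable (S : Set α) (hS : MeasurableSet S) (hfin : μ S ≠ ⊤) (F : α → α → ℝ)
    (hF : Measurable (fun q : α × α => F q.1 q.2)) (M : ℝ)
    (hM : ∀ x ∈ S, ∀ y ∈ S, |F x y| ≤ M) :
    IntegrableOn (fun x => ∫ y in S, F x y ∂μ) S μ := by
  have hm : StronglyMeasurable (fun x => ∫ y in S, F x y ∂μ) :=
    StronglyMeasurable.integral_prod_right (f := F) (ν := μ.restrict S) hF.stronglyMeasurable
  refine Measure.integrableOn_of_bounded (M := M * μ.real S) hfin hm.aestronglyMeasurable ?_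
  filter_upwards [ae_restrict_mem hS] with x hx
  exact norm_setIntegral_le_of_norm_le_const hfin.lt_top (fun y hy => hM x hx y hy)

lemma iterated_lower (S R1 R2 : Set α) (hS : MeasurableSet S) (hfin : μ S ≠ ⊤)
    (hR1 : MeasurableSet R1) (hR2 : MeasurableSet R2) (h1 : R1 ⊆ S) (h2 : R2 ⊆ S)
    (F : α → α → ℝ) (hF : Measurable (fun q : α × α => F q.1 q.2)) (h0 : ∀ x y, 0 ≤ F x y)
    (M : ℝ) (hM : ∀ x ∈ S, ∀ y ∈ S, |F x y| ≤ M) (c : ℝ)
    (hc : ∀ x ∈ R1, ∀ y ∈ R2, c ≤ F x y) :
    μ.real R1 * (μ.real R2 * c) ≤ ∫ x in S, ∫ y in S, F x y ∂μ ∂μ := by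
  have f1 : μ R1 ≠ ⊤ := ne_top_of_le_ne_top hfin (measure_mono h1)
  have f2 : μ R2 ≠ ⊤ := ne_top_of_le_ne_top hfin (measure_mono h2)
  have hout := outer_integrable μ S hS hfin F hF M hM
  have step : ∀ x ∈ R1, μ.real R2 * c ≤ ∫ y in S, F x y ∂μ := by
    intro x hx
    have hin := inner_integrable μ S hS hfin F hF M hM x (h1 hx)
    calc μ.real R2 * c ≤ ∫ y in R2, F x y ∂μ := by
          have := setIntegral_ge_of_const_le hR2 f2 (hc x hx) (hin.mono_set h2)
          simpa [smul_eq_mul] using this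
      _ ≤ ∫ y in S, F x y ∂μ :=
          setIntegral_mono_set hin (Filter.Eventually.of_forall fun y => h0 x y)
            (Filter.Eventually.of_forall h2)
  calc μ.real R1 * (μ.real R2 * c) ≤ ∫ x in R1, ∫ y in S, F x y ∂μ ∂μ := by
        have := setIntegral_ge_of_const_le hR1 f1 step (hout.mono_set h1)
        simpa [smul_eq_mul] using this
    _ ≤ ∫ x in S, ∫ y in S, F x y ∂μ ∂μ :=
        setIntegral_mono_set hout
          (Filter.Eventually.of_forall fun x => integral_nonneg fun y => h0 x y)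
          (Filter.Eventually.of_forall h1)

end Iterated

/-- counting grid points left of `t` -/
lemma count_lt (n : ℕ) (hn : 0 < n) (t : ℝ) (h0 : 0 ≤ t) (h1 : t ≤ 1) :
    ∑ a ∈ Finset.range n, ind ((a : ℝ) / n < t) = (⌈(n : ℝ) * t⌉₊ : ℝ) := by
  classical
  rw [← card_filter_eq]
  have hn' : (0 : ℝ) < n := Nat.cast_pos.2 hn
  have : (Finset.range n).filter (fun a : ℕ => (a : ℝ) / n < t) = Finset.range ⌈(n : ℝ) * t⌉₊ := by
    ext a
    simp only [Finset.mem_filter, Finset.mem_range, Nat.lt_ceil, div_lt_iff₀ hn']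
    constructor
    · rintro ⟨_, h⟩; linarith
    · intro h
      refine ⟨?_, by linarith⟩
      have : (a : ℝ) < n := by nlinarith
      exact_mod_cast this
  rw [this, Finset.card_range]

lemma count_per (n : ℕ) (hn : 0 < n) (x y : ℝ) (hx : 0 ≤ x ∧ x ≤ 1) (hy : 0 ≤ y ∧ y ≤ 1) :
    |∑ a ∈ Finset.range n, per x y ((a : ℝ) / n) - n * len x y| ≤ 1 := by
  unfold per len
  rw [Finset.sum_add_distrib, Finset.sum_sub_distrib, count_lt n hn x hx.1 hx.2,
    count_lt n hn y hy.1 hy.2]
  have hn' : (0 : ℝ) ≤ n := Nat.cast_nonneg _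
  have a1 := Nat.le_ceil ((n : ℝ) * x)
  have a2 := Nat.le_ceil ((n : ℝ) * y)
  have a3 := Nat.ceil_lt_add_one (mul_nonneg hn' hx.1)
  have a4 := Nat.ceil_lt_add_one (mul_nonneg hn' hy.1)
  simp only [Finset.sum_const, Finset.card_range, nsmul_eq_mul]
  rw [abs_le]
  constructor <;> linarith

end Pool.Agent.H40Z.Disc
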