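import Mathlib
import Pool.Agent.H40Z.DiscBasic

set_option autoImplicit false
set_option maxHeartbeats 400000

namespace Pool.Agent.H40Z.Disc

open MeasureTheory

/-- the grid of mesh `1/n` whose last `k` columns are squeezed into the lower quarter -/
noncomputable def pt (n k : ℕ) (ab : Fin n × Fin n) : Fin 2 → ℝ :=
  ![((ab.1 : ℕ) : ℝ) / n,
    if (ab.1 : ℕ) + k < n then ((ab.2 : ℕ) : ℝ) / n else ((ab.2 : ℕ) : ℝ) / (4 * n)]

noncomputable def PP (n k : ℕ) (i : Fin (n * n)) : Fin 2 → ℝ := pt n k (finProdFinEquiv.symm i)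

lemma PP_mem (n k : ℕ) (i : Fin (n * n)) (j : Fin 2) : 0 ≤ PP n k i j ∧ PP n k i j < 1 := by
  unfold PP
  generalize finProdFinEquiv.symm i = ab
  obtain ⟨a, b⟩ := ab
  have hn : (0 : ℝ) < n := by exact_mod_cast a.pos
  have ha : ((a : ℕ) : ℝ) < n := by exact_mod_cast a.2
  have hb : ((b : ℕ) : ℝ) < n := by exact_mod_cast b.2
  have ha0 : (0 : ℝ) ≤ ((a : ℕ) : ℝ) := Nat.cast_nonneg _
  have hb0 : (0 : ℝ) ≤ ((b : ℕ) : ℝ) := Nat.cast_nonneg _
  fin_cases j
  · simp only [pt, Fin.zero_eta, Matrix.cons_val_zero]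
    exact ⟨by positivity, (div_lt_one hn).2 ha⟩
  · simp only [pt, Fin.mk_one, Matrix.cons_val_one, Matrix.cons_val_zero]
    split_ifs
    · exact ⟨by positivity, (div_lt_one hn).2 hb⟩
    · exact ⟨by positivity, (div_lt_one (by positivity)).2 (by linarith)⟩

lemma PP_injective (n k : ℕ) : Function.Injective (PP n k) := by
  intro i i' h
  apply finProdFinEquiv.symm.injective
  unfold PP at h
  generalize finProdFinEquiv.symm i = ab at h ⊢
  generalize finProdFinEquiv.symm i' = ab' at h ⊢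
  obtain ⟨a, b⟩ := ab
  obtain ⟨a', b'⟩ := ab'
  have hn : (0 : ℝ) < n := by exact_mod_cast a.pos
  have h0 := congrFun h 0
  have h1 := congrFun h 1
  simp only [pt, Matrix.cons_val_zero, Matrix.cons_val_one] at h0 h1
  have e1 : a = a' := by
    rw [div_left_inj' hn.ne'] at h0
    exact Fin.ext (by exact_mod_cast h0)
  subst e1
  have e2 : b = b' := by
    split_ifs at h1
    · rw [div_left_inj' hn.ne'] at h1
      exact Fin.ext (by exact_mod_cast h1)
    · rw [div_left_inj' (by positivity)] at h1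
      exact Fin.ext (by exact_mod_cast h1)
  rw [e2]

lemma count_PP (n k : ℕ) (φ ψ : ℝ → ℝ) :
    ∑ i, φ (PP n k i 0) * ψ (PP n k i 1) =
      (∑ a ∈ Finset.range n, φ ((a : ℝ) / n)) * (∑ b ∈ Finset.range n, ψ ((b : ℝ) / n)) -
      (∑ a ∈ (Finset.range n).filter (fun a => ¬ a + k < n), φ ((a : ℝ) / n)) *
        ((∑ b ∈ Finset.range n, ψ ((b : ℝ) / n)) -
          ∑ b ∈ Finset.range n, ψ ((b : ℝ) / (4 * n))) := by
  have h1 : ∑ i, φ (PP n k i 0) * ψ (PP n k i 1) =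
      ∑ ab : Fin n × Fin n, φ (pt n k ab 0) * ψ (pt n k ab 1) :=
    Equiv.sum_comp finProdFinEquiv.symm (fun ab => φ (pt n k ab 0) * ψ (pt n k ab 1))
  rw [h1, Fintype.sum_prod_type]
  simp only [pt, Matrix.cons_val_zero, Matrix.cons_val_one]
  have h2 : ∀ a : Fin n, ∑ b : Fin n, φ (((a : ℕ) : ℝ) / n) *
      ψ (if (a : ℕ) + k < n then ((b : ℕ) : ℝ) / n else ((b : ℕ) : ℝ) / (4 * n)) =
      (fun a : ℕ => φ ((a : ℝ) / n) * (∑ b ∈ Finset.range n, ψ ((b : ℝ) / n)) -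
        (if ¬ a + k < n then φ ((a : ℝ) / n) else 0) *
          ((∑ b ∈ Finset.range n, ψ ((b : ℝ) / n)) -
            ∑ b ∈ Finset.range n, ψ ((b : ℝ) / (4 * n)))) a := by
    intro a
    rw [← Finset.mul_sum]
    by_cases h : (a : ℕ) + k < n
    · simp only [h, if_true, not_true, if_false]
      rw [Fin.sum_univ_eq_sum_range (fun b : ℕ => ψ ((b : ℝ) / n)) n]
      ring
    · simp only [h, if_false, not_false_iff, if_true]
      rw [Fin.sum_univ_eq_sum_range (fun b : ℕ => ψ ((b : ℝ) / (4 * n))) n]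
      ring
  refine (Finset.sum_congr rfl (fun a _ => h2 a)).trans ?_
  refine (Fin.sum_univ_eq_sum_range (fun a : ℕ => φ ((a : ℝ) / n) *
      (∑ b ∈ Finset.range n, ψ ((b : ℝ) / n)) - (if ¬ a + k < n then φ ((a : ℝ) / n) else 0) *
          ((∑ b ∈ Finset.range n, ψ ((b : ℝ) / n)) -
            ∑ b ∈ Finset.range n, ψ ((b : ℝ) / (4 * n)))) n).trans ?_
  rw [Finset.sum_sub_distrib, ← Finset.sum_mul, ← Finset.sum_mul, Finset.sum_filter]

lemma sum_le_n (n : ℕ) (f : ℕ → ℝ) (h1 : ∀ a, f a ≤ 1) : ∑ a ∈ Finset.range n, f a ≤ n := by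
  have : ∑ a ∈ Finset.range n, f a ≤ ∑ a ∈ Finset.range n, (1 : ℝ) :=
    Finset.sum_le_sum fun a _ => h1 a
  simpa using this

lemma strip_card (n k : ℕ) (hk : k ≤ n) :
    ((Finset.range n).filter (fun a => ¬ a + k < n)).card = k := by
  have : (Finset.range n).filter (fun a => ¬ a + k < n) = Finset.Ico (n - k) n := by
    ext a
    simp only [Finset.mem_filter, Finset.mem_range, Finset.mem_Ico]
    omega
  rw [this, Nat.card_Ico]
  omega

lemma grid_bound (n Φ Ψ l1 l2 : ℝ) (hn : 0 ≤ n) (h1 : |Φ - n * l1| ≤ 1) (h2 : |Ψ - n * l2| ≤ 1)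
    (hΨ0 : 0 ≤ Ψ) (hΨ : Ψ ≤ n) (hl0 : 0 ≤ l1) (hl1 : l1 ≤ 1) :
    |Φ * Ψ - n * n * (l1 * l2)| ≤ 2 * n := by
  have e : Φ * Ψ - n * n * (l1 * l2) = (Φ - n * l1) * Ψ + (n * l1) * (Ψ - n * l2) := by ring
  rw [e]
  have a1 : |(Φ - n * l1) * Ψ| ≤ n := by
    rw [abs_mul, abs_of_nonneg hΨ0]
    nlinarith [abs_nonneg (Φ - n * l1)]
  have a2 : |(n * l1) * (Ψ - n * l2)| ≤ n := by
    rw [abs_mul, abs_of_nonneg (mul_nonneg hn hl0)]
    have : n * l1 ≤ n := by nlinarith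
    nlinarith [abs_nonneg (Ψ - n * l2), mul_nonneg hn hl0]
  linarith [abs_add_le ((Φ - n * l1) * Ψ) ((n * l1) * (Ψ - n * l2))]

lemma disc_PP (n k : ℕ) (x y : Fin 2 → ℝ) :
    disc Finset.univ (PP n k) ((n * n : ℕ) : ℝ) x y =
      ((∑ a ∈ Finset.range n, per (x 0) (y 0) ((a : ℝ) / n)) *
        (∑ b ∈ Finset.range n, per (x 1) (y 1) ((b : ℝ) / n)) -
          (n : ℝ) * n * (len (x 0) (y 0) * len (x 1) (y 1))) -
      (∑ a ∈ (Finset.range n).filter (fun a => ¬ a + k < n), per (x 0) (y 0) ((a : ℝ) / n)) *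
        ((∑ b ∈ Finset.range n, per (x 1) (y 1) ((b : ℝ) / n)) -
          ∑ b ∈ Finset.range n, per (x 1) (y 1) ((b : ℝ) / (4 * n))) := by
  unfold disc
  simp only [Fin.prod_univ_two]
  rw [count_PP n k (per (x 0) (y 0)) (per (x 1) (y 1))]
  push_cast
  ring

/-- upper bound for boxes that do not wrap around in the first coordinate -/
lemma disc_upper (n k : ℕ) (hn : 0 < n) (hk : k ≤ n) (x y : Fin 2 → ℝ)
    (hx : ∀ j, 0 ≤ x j ∧ x j ≤ 1) (hy : ∀ j, 0 ≤ y j ∧ y j ≤ 1) (hxy : x 0 ≤ y 0) :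
    |disc Finset.univ (PP n k) ((n * n : ℕ) : ℝ) x y| ≤
      2 * n + k * n * ind (1 - (k : ℝ) / n ≤ y 0) := by
  rw [disc_PP]
  have hn' : (0 : ℝ) < n := Nat.cast_pos.2 hn
  have g := grid_bound n _ _ _ _ hn'.le (count_per n hn (x 0) (y 0) (hx 0) (hy 0))
    (count_per n hn (x 1) (y 1) (hx 1) (hy 1))
    (Finset.sum_nonneg fun a _ => per_nonneg _ _ _) (sum_le_n n _ fun a => per_le_one _ _ _)
    (len_nonneg (hx 0).2 (hy 0).1) (len_le_one (hx 0).1 (hy 0).2)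
  refine (abs_sub _ _).trans (add_le_add g ?_)
  rw [abs_mul]
  have b1 : |(∑ b ∈ Finset.range n, per (x 1) (y 1) ((b : ℝ) / n)) -
      ∑ b ∈ Finset.range n, per (x 1) (y 1) ((b : ℝ) / (4 * n))| ≤ n := by
    have c1 : 0 ≤ ∑ b ∈ Finset.range n, per (x 1) (y 1) ((b : ℝ) / n) :=
      Finset.sum_nonneg fun a _ => per_nonneg _ _ _
    have c2 : 0 ≤ ∑ b ∈ Finset.range n, per (x 1) (y 1) ((b : ℝ) / (4 * n)) :=
      Finset.sum_nonneg fun a _ => per_nonneg _ _ _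
    have c3 := sum_le_n n (fun b => per (x 1) (y 1) ((b : ℝ) / n)) fun a => per_le_one _ _ _
    have c4 := sum_le_n n (fun b => per (x 1) (y 1) ((b : ℝ) / (4 * n))) fun a => per_le_one _ _ _
    rw [abs_le]
    constructor <;> linarith
  have b2 : |∑ a ∈ (Finset.range n).filter (fun a => ¬ a + k < n),
      per (x 0) (y 0) ((a : ℝ) / n)| ≤ k * ind (1 - (k : ℝ) / n ≤ y 0) := by
    rw [abs_of_nonneg (Finset.sum_nonneg fun a _ => per_nonneg _ _ _)]
    have : ∑ a ∈ (Finset.range n).filter (fun a => ¬ a + k < n), per (x 0) (y 0) ((a : ℝ) / n) ≤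
        ∑ a ∈ (Finset.range n).filter (fun a => ¬ a + k < n), ind (1 - (k : ℝ) / n ≤ y 0) := by
      refine Finset.sum_le_sum fun a ha => ?_
      by_cases h : 1 - (k : ℝ) / n ≤ y 0
      · rw [ind_pos h]; exact per_le_one _ _ _
      · rw [ind_neg h, ← per_eq3 _ _ _ hxy, ind_neg]
        rintro ⟨_, h2⟩
        apply h
        have h3 : n ≤ a + k := not_lt.1 (Finset.mem_filter.1 ha).2
        have h4 : (n : ℝ) ≤ a + k := by exact_mod_cast h3
        have h5 : 1 - (k : ℝ) / n ≤ (a : ℝ) / n := by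
          rw [sub_le_iff_le_add, ← add_div, le_div_iff₀ hn']
          linarith
        linarith
    rw [Finset.sum_const, strip_card n k hk, nsmul_eq_mul] at this
    exact this
  calc _ ≤ (k * ind (1 - (k : ℝ) / n ≤ y 0)) * n :=
        mul_le_mul b2 b1 (abs_nonneg _) (mul_nonneg (Nat.cast_nonneg _) (ind_nonneg _))
    _ = _ := by ring

/-- lower bound for suitable wrapping boxes -/
lemma disc_lower (n k : ℕ) (hn : 0 < n) (hk : 4 * k ≤ n) (x y : Fin 2 → ℝ)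
    (hx0 : 1 / 2 ≤ x 0 ∧ x 0 ≤ 3 / 4) (hx1 : 1 / 4 ≤ x 1 ∧ x 1 ≤ 1 / 2)
    (hy0 : 0 ≤ y 0 ∧ y 0 ≤ 1 / 4) (hy1 : 3 / 4 ≤ y 1 ∧ y 1 ≤ 1) :
    k * ((n : ℝ) / 4 - 1) - 2 * n ≤ |disc Finset.univ (PP n k) ((n * n : ℕ) : ℝ) x y| := by
  rw [disc_PP]
  have hn' : (0 : ℝ) < n := Nat.cast_pos.2 hn
  have x0 : 0 ≤ x 0 ∧ x 0 ≤ 1 := ⟨by linarith [hx0.1], by linarith [hx0.2]⟩
  have x1 : 0 ≤ x 1 ∧ x 1 ≤ 1 := ⟨by linarith [hx1.1], by linarith [hx1.2]⟩
  have y0 : 0 ≤ y 0 ∧ y 0 ≤ 1 := ⟨by linarith [hy0.1], by linarith [hy0.2]⟩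
  have y1 : 0 ≤ y 1 ∧ y 1 ≤ 1 := ⟨by linarith [hy1.1], by linarith [hy1.2]⟩
  have c1 := count_per n hn (x 1) (y 1) x1 y1
  have g := grid_bound n _ _ _ _ hn'.le (count_per n hn (x 0) (y 0) x0 y0) c1
    (Finset.sum_nonneg fun a _ => per_nonneg _ _ _) (sum_le_n n _ fun a => per_le_one _ _ _)
    (len_nonneg x0.2 y0.1) (len_le_one x0.1 y0.2)
  have hk' : 4 * (k : ℝ) ≤ n := by exact_mod_cast hk
  have s1 : ∑ a ∈ (Finset.range n).filter (fun a => ¬ a + k < n),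
      per (x 0) (y 0) ((a : ℝ) / n) = k := by
    have : ∑ a ∈ (Finset.range n).filter (fun a => ¬ a + k < n), per (x 0) (y 0) ((a : ℝ) / n) =
        ∑ a ∈ (Finset.range n).filter (fun a => ¬ a + k < n), (1 : ℝ) := by
      refine Finset.sum_congr rfl fun a ha => ?_
      have h3 : n ≤ a + k := not_lt.1 (Finset.mem_filter.1 ha).2
      have h4 : (n : ℝ) ≤ a + k := by exact_mod_cast h3
      have h5 : 3 / 4 ≤ (a : ℝ) / n := by
        rw [le_div_iff₀ hn']
        linarith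
      unfold per
      rw [ind_neg (by linarith [hy0.2]), ind_neg (by linarith [hx0.2]),
        ind_pos (by linarith [hx0.1, hy0.2])]
      ring
    rw [this, Finset.sum_const, strip_card n k (by omega), nsmul_eq_mul, mul_one]
  have s2 : ∑ b ∈ Finset.range n, per (x 1) (y 1) ((b : ℝ) / (4 * n)) = 0 := by
    refine Finset.sum_eq_zero fun b hb => ?_
    have h3 : (b : ℝ) < n := by exact_mod_cast Finset.mem_range.1 hb
    have h5 : (b : ℝ) / (4 * n) < 1 / 4 := by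
      rw [div_lt_iff₀ (by positivity)]
      linarith
    unfold per
    rw [ind_pos (by linarith [hy1.1]), ind_pos (by linarith [hx1.1]),
      ind_neg (by linarith [hx1.2, hy1.1])]
    ring
  have l2 : 1 / 4 ≤ len (x 1) (y 1) := by
    unfold len
    linarith [ind_nonneg (y 1 < x 1), hx1.2, hy1.1]
  rw [s1, s2, sub_zero]
  have hΨ : (n : ℝ) / 4 - 1 ≤ ∑ b ∈ Finset.range n, per (x 1) (y 1) ((b : ℝ) / n) := by
    have := (abs_le.1 c1).1
    nlinarith
  have hk0 : (0 : ℝ) ≤ k := Nat.cast_nonneg _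
  have m := mul_le_mul_of_nonneg_left hΨ hk0
  have := (abs_le.1 g).2
  rw [le_abs]
  right
  linarith

lemma mem_cube {d : ℕ} {x : Fin d → ℝ} (hx : x ∈ Set.Icc (0 : Fin d → ℝ) 1) (j : Fin d) :
    0 ≤ x j ∧ x j ≤ 1 := ⟨hx.1 j, hx.2 j⟩

lemma cube_ne_top (d : ℕ) : volume (Set.Icc (0 : Fin d → ℝ) 1) ≠ ⊤ :=
  (isCompact_Icc.measure_lt_top).ne

lemma cube_real (d : ℕ) : volume.real (Set.Icc (0 : Fin d → ℝ) 1) = 1 := by
  rw [Measure.real, Real.volume_Icc_pi_toReal (a := 0) (b := 1) (fun _ => zero_le_one)]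
  simp

/-- the periodic L1 discrepancy is large -/
lemma periodic_lower (n k : ℕ) (hn : 0 < n) (hk : 4 * k ≤ n) :
    (1 / 16 : ℝ) * (1 / 16 * (k * ((n : ℝ) / 4 - 1) - 2 * n)) ≤
      ∫ x in Set.Icc (0 : Fin 2 → ℝ) 1, ∫ y in Set.Icc (0 : Fin 2 → ℝ) 1,
        |disc Finset.univ (PP n k) ((n * n : ℕ) : ℝ) x y| := by
  have v1 : volume.real (Set.Icc (![1 / 2, 1 / 4] : Fin 2 → ℝ) ![3 / 4, 1 / 2]) = 1 / 16 := by
    rw [Measure.real, Real.volume_Icc_pi_toReal]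
    · simp only [Fin.prod_univ_two, Matrix.cons_val_zero, Matrix.cons_val_one]
      norm_num
    · intro j
      fin_cases j <;> simp <;> norm_num
  have v2 : volume.real (Set.Icc (![0, 3 / 4] : Fin 2 → ℝ) ![1 / 4, 1]) = 1 / 16 := by
    rw [Measure.real, Real.volume_Icc_pi_toReal]
    · simp only [Fin.prod_univ_two, Matrix.cons_val_zero, Matrix.cons_val_one]
      norm_num
    · intro j
      fin_cases j <;> simp <;> norm_num
  have key := iterated_lower volume (Set.Icc (0 : Fin 2 → ℝ) 1)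
    (Set.Icc (![1 / 2, 1 / 4] : Fin 2 → ℝ) ![3 / 4, 1 / 2])
    (Set.Icc (![0, 3 / 4] : Fin 2 → ℝ) ![1 / 4, 1]) measurableSet_Icc (cube_ne_top 2)
    measurableSet_Icc measurableSet_Icc
    (Set.Icc_subset_Icc (by intro j; fin_cases j <;> simp)
      (by intro j; fin_cases j <;> simp <;> norm_num))
    (Set.Icc_subset_Icc (by intro j; fin_cases j <;> simp; norm_num)
      (by intro j; fin_cases j <;> simp; norm_num))
    (fun x y => |disc Finset.univ (PP n k) ((n * n : ℕ) : ℝ) x y|)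
    (measurable_disc _ _ _).abs (fun x y => abs_nonneg _)
    (((Finset.univ : Finset (Fin (n * n))).card : ℝ) + ((n * n : ℕ) : ℝ))
    (fun x hx y hy => by
      rw [abs_abs]
      exact abs_disc_le _ _ _ (Nat.cast_nonneg _) x y (mem_cube hx) (mem_cube hy))
    (k * ((n : ℝ) / 4 - 1) - 2 * n)
    (fun x hx y hy => disc_lower n k hn hk x y ⟨hx.1 0, hx.2 0⟩ ⟨hx.1 1, hx.2 1⟩
      ⟨hy.1 0, hy.2 0⟩ ⟨hy.1 1, hy.2 1⟩)
  rw [v1, v2] at key
  exact key

/-- integrating a bound that is large only on a thin strip -/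
lemma strip_integral (G : (Fin 2 → ℝ) → ℝ) (A B c : ℝ) (hc0 : 0 ≤ c) (hc1 : c ≤ 1)
    (h0 : ∀ y, 0 ≤ G y)
    (h : ∀ y ∈ Set.Icc (0 : Fin 2 → ℝ) 1, G y ≤ A + B * ind (c ≤ y 0)) :
    ∫ y in Set.Icc (0 : Fin 2 → ℝ) 1, G y ≤ A + B * (1 - c) := by
  have hT : MeasurableSet (Set.Icc (![c, 0] : Fin 2 → ℝ) 1) := measurableSet_Icc
  have hsub : Set.Icc (![c, 0] : Fin 2 → ℝ) 1 ⊆ Set.Icc (0 : Fin 2 → ℝ) 1 :=
    Set.Icc_subset_Icc (by intro j; fin_cases j <;> simp [hc0]) le_rfl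
  have vT : volume.real (Set.Icc (![c, 0] : Fin 2 → ℝ) 1) = 1 - c := by
    rw [Measure.real, Real.volume_Icc_pi_toReal]
    · simp
    · intro j
      fin_cases j <;> simp [hc1]
  have i1 : IntegrableOn (fun _ : Fin 2 → ℝ => A) (Set.Icc (0 : Fin 2 → ℝ) 1) volume :=
    integrableOn_const (cube_ne_top 2)
  have i2 : IntegrableOn ((Set.Icc (![c, 0] : Fin 2 → ℝ) 1).indicator (fun _ => B))
      (Set.Icc (0 : Fin 2 → ℝ) 1) volume :=
    Integrable.indicator (integrableOn_const (cube_ne_top 2)) hT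
  calc ∫ y in Set.Icc (0 : Fin 2 → ℝ) 1, G y
      ≤ ∫ y in Set.Icc (0 : Fin 2 → ℝ) 1,
          (A + (Set.Icc (![c, 0] : Fin 2 → ℝ) 1).indicator (fun _ => B) y) := by
        refine integral_mono_of_nonneg (Filter.Eventually.of_forall h0) (i1.add i2) ?_
        filter_upwards [ae_restrict_mem measurableSet_Icc] with y hy
        refine (h y hy).trans (le_of_eq ?_)
        congr 1
        by_cases hc : c ≤ y 0
        · rw [ind_pos hc, Set.indicator_of_mem, mul_one]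
          refine ⟨?_, hy.2⟩
          intro j
          fin_cases j
          · simpa using hc
          · simpa using hy.1 1
        · rw [ind_neg hc, Set.indicator_of_notMem, mul_zero]
          intro hm
          exact hc (by simpa using hm.1 0)
    _ = A + B * (1 - c) := by
        rw [integral_add i1 i2, setIntegral_const, cube_real, setIntegral_indicator hT,
          Set.inter_eq_self_of_subset_right hsub, setIntegral_const, vT]
        simp [mul_comm]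

lemma final_contra (C : ℝ) (k : ℕ) (hk : 3072 * C + 13 ≤ k) (hC : 0 < C)
    (h : (1 / 16 : ℝ) * (1 / 16 * (k * (((k * k : ℕ) : ℝ) / 4 - 1) - 2 * ((k * k : ℕ) : ℝ))) ≤
      C * (2 * ((k * k : ℕ) : ℝ) +
        k * ((k * k : ℕ) : ℝ) * (1 - (1 - (k : ℝ) / ((k * k : ℕ) : ℝ))))) : False := by
  have hk0 : (0 : ℝ) < k := by linarith
  push_cast at h
  have e : (k : ℝ) * (k * k) * (1 - (1 - (k : ℝ) / (k * k))) = k * k := by
    field_simp
    ring
  rw [e] at h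
  have h1 : (1 : ℝ) ≤ k := by linarith
  have h2 : (k : ℝ) ≤ k * k := by nlinarith
  have h3 : (0 : ℝ) < k * k := by positivity
  nlinarith [mul_le_mul_of_nonneg_right hk h3.le]

end Pool.Agent.H40Z.Disc
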