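import Mathlib

set_option autoImplicit false
set_option maxHeartbeats 400000

namespace Pool.Agent.H40Z.Heat

open Complex Metric

/-- the `k`-th term of the backward heat flow series -/
noncomputable def term (lam : ℝ) (f : ℂ → ℂ) (k : ℕ) (z : ℂ) : ℂ :=
  (-(lam : ℂ)) ^ k / ((Nat.factorial k : ℕ) : ℂ) * iteratedDeriv (2 * k) f z

lemma fact_bound (m : ℕ) : (2 * m).factorial ≤ m.factorial * (2 * m) ^ m := by
  have h := Nat.factorial_mul_descFactorial (show m ≤ 2 * m by omega)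
  rw [show 2 * m - m = m by omega] at h
  rw [← h]
  exact Nat.mul_le_mul_left _ (Nat.descFactorial_le_pow _ _)

lemma exp_two_le : Real.exp 2 ≤ 8 := by
  have h := Real.exp_one_lt_d9
  have : Real.exp 2 = Real.exp 1 * Real.exp 1 := by rw [← Real.exp_add]; norm_num
  rw [this]
  nlinarith [Real.exp_pos 1]

lemma term_bound (lam : ℝ) (hl : 0 ≤ lam) (f : ℂ → ℂ) (hf : Differentiable ℂ f) (A : ℝ)
    (hA : 0 ≤ A) (x : ℂ) (hb : ∀ w, ‖f w‖ ≤ A * Real.exp (‖w - x‖ ^ 2)) (k : ℕ) (z : ℂ) :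
    ‖term lam f k z‖ ≤ A * Real.exp (2 * ‖z - x‖ ^ 2) * (16 * lam) ^ k := by
  rcases Nat.eq_zero_or_pos k with rfl | hk
  · simp only [term, pow_zero, Nat.factorial_zero, Nat.cast_one, div_one, mul_zero,
      iteratedDeriv_zero, one_mul, mul_one]
    refine (hb z).trans (mul_le_mul_of_nonneg_left (Real.exp_le_exp.2 ?_) hA)
    nlinarith [sq_nonneg ‖z - x‖]
  have hk' : (0 : ℝ) < k := Nat.cast_pos.2 hk
  have hR : 0 < Real.sqrt k := Real.sqrt_pos.2 hk'
  have hC : ∀ w ∈ sphere z (Real.sqrt k), ‖f w‖ ≤ A * Real.exp (2 * ‖z - x‖ ^ 2 + 2 * k) := by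
    intro w hw
    refine (hb w).trans (mul_le_mul_of_nonneg_left (Real.exp_le_exp.2 ?_) hA)
    have h1 : ‖w - z‖ = Real.sqrt k := mem_sphere_iff_norm.1 hw
    have h2 : ‖w - x‖ ≤ ‖w - z‖ + ‖z - x‖ := by
      have := norm_add_le (w - z) (z - x)
      rwa [sub_add_sub_cancel] at this
    have h3 : Real.sqrt k ^ 2 = k := Real.sq_sqrt hk'.le
    rw [h1] at h2
    nlinarith [norm_nonneg (w - x), norm_nonneg (z - x), sq_nonneg (Real.sqrt k - ‖z - x‖)]
  have h1 := norm_iteratedDeriv_le_of_forall_mem_sphere_norm_le (2 * k) hR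
    hf.diffContOnCl hC
  rw [pow_mul, Real.sq_sqrt hk'.le] at h1
  have hfac : (0 : ℝ) < k.factorial := by exact_mod_cast k.factorial_pos
  have h2 : ((2 * k).factorial : ℝ) ≤ k.factorial * (2 * k) ^ k := by exact_mod_cast fact_bound k
  have h3 : Real.exp (2 * k) ≤ 8 ^ k := by
    rw [mul_comm, Real.exp_nat_mul]
    exact pow_le_pow_left₀ (Real.exp_pos _).le exp_two_le k
  unfold term
  rw [norm_mul, norm_div, norm_pow, norm_neg, Complex.norm_real, Real.norm_of_nonneg hl,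
    Complex.norm_natCast]
  have hE : 0 ≤ A * Real.exp (2 * ‖z - x‖ ^ 2) := by positivity
  calc lam ^ k / k.factorial * ‖iteratedDeriv (2 * k) f z‖
      ≤ lam ^ k / k.factorial * ((k.factorial * (2 * k) ^ k) *
          (A * Real.exp (2 * ‖z - x‖ ^ 2) * 8 ^ k) / (k : ℝ) ^ k) := by
        refine mul_le_mul_of_nonneg_left (h1.trans ?_) (by positivity)
        refine div_le_div_of_nonneg_right ?_ (by positivity)
        refine mul_le_mul h2 ?_ (by positivity) (by positivity)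
        rw [Real.exp_add, ← mul_assoc]
        exact mul_le_mul_of_nonneg_left h3 hE
    _ = A * Real.exp (2 * ‖z - x‖ ^ 2) * (16 * lam) ^ k := by
        rw [mul_pow, show (16 * lam) ^ k = 2 ^ k * 8 ^ k * lam ^ k by
          rw [← mul_pow, ← mul_pow]; norm_num]
        field_simp

lemma diff_iter (f : ℂ → ℂ) (hf : Differentiable ℂ f) (n : ℕ) :
    Differentiable ℂ (iteratedDeriv n f) := by
  induction n with
  | zero => simpa using hf
  | succ n ih => rw [iteratedDeriv_succ]; exact ih.deriv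

lemma flow_diff (lam : ℝ) (hl : 0 ≤ lam) (hl2 : 16 * lam < 1) (f : ℂ → ℂ)
    (hf : Differentiable ℂ f) (A : ℝ) (hA : 0 ≤ A)
    (hb : ∀ w, ‖f w‖ ≤ A * Real.exp (‖w - 0‖ ^ 2)) :
    Differentiable ℂ (fun z => ∑' k, term lam f k z) := by
  intro z
  have hU : ball (0 : ℂ) (‖z‖ + 1) ∈ nhds z :=
    isOpen_ball.mem_nhds (by simp)
  refine DifferentiableOn.differentiableAt ?_ hU
  refine differentiableOn_tsum_of_summable_norm
    (u := fun k => A * Real.exp (2 * (‖z‖ + 1) ^ 2) * (16 * lam) ^ k)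
    ((summable_geometric_of_lt_one (by positivity) hl2).mul_left _) ?_ isOpen_ball ?_
  · intro k
    exact ((diff_iter f hf (2 * k)).const_mul _).differentiableOn
  · intro k w hw
    refine (term_bound lam hl f hf A hA 0 hb k w).trans ?_
    refine mul_le_mul_of_nonneg_right (mul_le_mul_of_nonneg_left (Real.exp_le_exp.2 ?_) hA)
      (by positivity)
    have : ‖w - 0‖ < ‖z‖ + 1 := mem_ball_iff_norm.1 hw
    nlinarith [norm_nonneg (w - 0)]

lemma flow_close (lam : ℝ) (hl : 0 ≤ lam) (hl2 : 16 * lam ≤ 1 / 2) (f : ℂ → ℂ)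
    (hf : Differentiable ℂ f) (A : ℝ) (hA : 0 ≤ A) (x : ℂ)
    (hb : ∀ w, ‖f w‖ ≤ A * Real.exp (‖w - x‖ ^ 2)) (z : ℂ) :
    ‖(∑' k, term lam f k z) - f z‖ ≤ A * Real.exp (2 * ‖z - x‖ ^ 2) * (32 * lam) := by
  have hq : 16 * lam < 1 := by linarith
  have hg := (summable_geometric_of_lt_one (by positivity) hq).mul_left
    (A * Real.exp (2 * ‖z - x‖ ^ 2))
  have hs : Summable (fun k => term lam f k z) :=
    Summable.of_norm_bounded hg (fun k => term_bound lam hl f hf A hA x hb k z)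
  have h0 : term lam f 0 z = f z := by simp [term]
  rw [hs.tsum_eq_zero_add, h0, add_sub_cancel_left]
  have hE : 0 ≤ A * Real.exp (2 * ‖z - x‖ ^ 2) := by positivity
  have h1 : HasSum (fun k : ℕ => A * Real.exp (2 * ‖z - x‖ ^ 2) * (16 * lam) * (16 * lam) ^ k)
      (A * Real.exp (2 * ‖z - x‖ ^ 2) * (16 * lam) * (1 - 16 * lam)⁻¹) :=
    (hasSum_geometric_of_lt_one (by positivity) hq).mul_left _
  refine (tsum_of_norm_bounded h1 (fun k => ?_)).trans ?_
  · refine (term_bound lam hl f hf A hA x hb (k + 1) z).trans (le_of_eq ?_)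
    ring
  · have h2 : (1 - 16 * lam)⁻¹ ≤ 2 := by
      rw [inv_le_comm₀ (by linarith) (by norm_num)]
      linarith
    have h3 : 0 ≤ A * Real.exp (2 * ‖z - x‖ ^ 2) * (16 * lam) := by positivity
    nlinarith

lemma exists_zero (g : ℂ → ℂ) (hg : Differentiable ℂ g) (c : ℂ) (r m : ℝ) (hr : 0 < r)
    (h0 : ‖g c‖ < m) (h1 : ∀ z ∈ sphere c r, m ≤ ‖g z‖) : ∃ z ∈ closedBall c r, g z = 0 := by
  by_contra hn
  push Not at hn
  have hm : 0 < m := lt_of_le_of_lt (norm_nonneg _) h0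
  have hd : DiffContOnCl ℂ (fun z => (g z)⁻¹) (ball c r) := by
    apply DifferentiableOn.diffContOnCl
    rw [closure_ball c hr.ne']
    exact hg.differentiableOn.inv hn
  have h2 := norm_le_of_forall_mem_frontier_norm_le (C := m⁻¹) isBounded_ball hd
    (fun z hz => by
      rw [frontier_ball c hr.ne'] at hz
      rw [norm_inv]
      exact inv_anti₀ hm (h1 z hz))
    (subset_closure (mem_ball_self hr))
  rw [norm_inv] at h2
  have h3 : 0 < ‖g c‖ := norm_pos_iff.2 (hn c (mem_closedBall_self hr.le))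
  have := (inv_le_inv₀ h3 hm).1 h2
  linarith

lemma norm_cos_le_cosh (u : ℂ) : ‖cos u‖ ≤ Real.cosh u.im := by
  have h := two_cos u
  have h1 : ‖2 * cos u‖ ≤ ‖exp (u * I)‖ + ‖exp (-u * I)‖ := by rw [h]; exact norm_add_le _ _
  rw [norm_mul, norm_exp, norm_exp] at h1
  simp only [mul_re, I_re, mul_zero, I_im, mul_one, zero_sub, neg_re, neg_im, neg_neg,
    norm_ofNat] at h1
  rw [Real.cosh_eq]
  linarith

lemma cosh_le_exp_abs (y : ℝ) : Real.cosh y ≤ Real.exp |y| := by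
  rw [Real.cosh_eq]
  have h1 : Real.exp y ≤ Real.exp |y| := Real.exp_le_exp.2 (le_abs_self y)
  have h2 : Real.exp (-y) ≤ Real.exp |y| := Real.exp_le_exp.2 (neg_le_abs y)
  linarith

lemma norm_cos_sub_one (u : ℂ) : ‖cos u - 1‖ ≤ Real.exp (2 * ‖u‖ ^ 2) - 1 := by
  rcases le_total ‖u‖ 1 with h | h
  · have h1 := norm_exp_sub_one_sub_id_le (x := u * I) (by simpa using h)
    have h2 := norm_exp_sub_one_sub_id_le (x := -u * I) (by simpa using h)
    have e : 2 * (cos u - 1) = (exp (u * I) - 1 - u * I) + (exp (-u * I) - 1 - -u * I) := by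
      rw [mul_sub, two_cos]; ring
    have h3 : ‖2 * (cos u - 1)‖ ≤ ‖exp (u * I) - 1 - u * I‖ + ‖exp (-u * I) - 1 - -u * I‖ := by
      rw [e]; exact norm_add_le _ _
    rw [norm_mul, norm_ofNat] at h3
    simp only [norm_mul, norm_I, mul_one, norm_neg] at h1 h2
    have h4 := Real.add_one_le_exp (2 * ‖u‖ ^ 2)
    nlinarith [sq_nonneg ‖u‖]
  · have h1 : ‖cos u - 1‖ ≤ ‖cos u‖ + 1 := by
      simpa using norm_sub_le (cos u) 1
    have h2 := (norm_cos_le_cosh u).trans (Real.cosh_le_exp_half_sq u.im)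
    have h3 : u.im ^ 2 ≤ ‖u‖ ^ 2 := by
      rw [← sq_abs]; exact pow_le_pow_left₀ (abs_nonneg _) (abs_im_le_norm u) 2
    have h4 : Real.exp (u.im ^ 2 / 2) ≤ Real.exp (‖u‖ ^ 2 / 2) := Real.exp_le_exp.2 (by linarith)
    have h5 : 1 ≤ ‖u‖ ^ 2 := by nlinarith
    have h6 : Real.exp (2 * ‖u‖ ^ 2) = Real.exp (‖u‖ ^ 2 / 2) * Real.exp (3 * ‖u‖ ^ 2 / 2) := by
      rw [← Real.exp_add]; congr 1; ring
    have h7 := Real.add_one_le_exp (‖u‖ ^ 2 / 2)
    have h8 := Real.add_one_le_exp (3 * ‖u‖ ^ 2 / 2)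
    nlinarith

lemma mul_close (a b : ℂ) (s t : ℝ) (ha : ‖a - 1‖ ≤ Real.exp s - 1)
    (hb : ‖b - 1‖ ≤ Real.exp t - 1) : ‖a * b - 1‖ ≤ Real.exp (s + t) - 1 := by
  have e : a * b - 1 = (a - 1) * (b - 1) + (a - 1) + (b - 1) := by ring
  have h1 : ‖a * b - 1‖ ≤ ‖a - 1‖ * ‖b - 1‖ + ‖a - 1‖ + ‖b - 1‖ := by
    rw [e, ← norm_mul]
    exact (norm_add_le _ _).trans (add_le_add_left (norm_add_le _ _) _)
  have h2 := mul_le_mul ha hb (norm_nonneg _) ((norm_nonneg _).trans ha)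
  rw [Real.exp_add]
  nlinarith

lemma pow_close (a : ℂ) (s : ℝ) (ha : ‖a - 1‖ ≤ Real.exp s - 1) (m : ℕ) :
    ‖a ^ m - 1‖ ≤ Real.exp (m * s) - 1 := by
  induction m with
  | zero => simp
  | succ m ih =>
    have := mul_close _ _ _ _ ih ha
    rw [← pow_succ] at this
    refine this.trans (le_of_eq ?_)
    push_cast
    congr 2
    ring

lemma prod_close (a : ℕ → ℂ) (s : ℕ → ℝ) (ha : ∀ j, ‖a j - 1‖ ≤ Real.exp (s j) - 1) (n : ℕ) :
    ‖∏ j ∈ Finset.range n, a j - 1‖ ≤ Real.exp (∑ j ∈ Finset.range n, s j) - 1 := by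
  induction n with
  | zero => simp
  | succ n ih =>
    rw [Finset.prod_range_succ, Finset.sum_range_succ]
    exact mul_close _ _ _ _ ih (ha n)

end Pool.Agent.H40Z.Heat
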