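import Mathlib
import Pool.Agent.H40Z.HeatA

set_option autoImplicit false
set_option maxHeartbeats 400000

namespace Pool.Agent.H40Z.Heat

open Complex Metric Filter Topology

/-- a rapidly growing divisibility chain -/
def b : ℕ → ℕ
  | 0 => 192
  | j + 1 => 768 * 2 ^ (j + 1) * b j ^ 2

lemma b_ge (j : ℕ) : 192 * 2 ^ j ≤ b j := by
  induction j with
  | zero => simp [b]
  | succ j ih =>
    have h1 : 1 ≤ b j := le_trans (Nat.one_le_iff_ne_zero.2 (by positivity)) ih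
    have h2 : 1 ≤ b j ^ 2 := Nat.one_le_pow _ _ h1
    have h3 : 0 < 2 ^ (j + 1) := by positivity
    simp only [b]
    nlinarith

lemma b_pos (j : ℕ) : 0 < b j := lt_of_lt_of_le (by positivity) (b_ge j)

lemma b_dvd {j k : ℕ} (h : j ≤ k) : b j ∣ b k := by
  induction h with
  | refl => exact dvd_rfl
  | step _ ih =>
    refine ih.trans ?_
    simp only [b]
    exact Dvd.dvd.mul_left (dvd_pow_self _ (by norm_num)) _

lemma b_big {k j : ℕ} (h : k < j) : 768 * 2 ^ j * b k ^ 2 ≤ b j := by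
  obtain ⟨i, rfl⟩ : ∃ i, j = i + 1 := ⟨j - 1, by omega⟩
  have h1 : b k ≤ b i := Nat.le_of_dvd (b_pos i) (b_dvd (by omega))
  simp only [b]
  exact Nat.mul_le_mul_left _ (Nat.pow_le_pow_left h1 2)

lemma b_posR (j : ℕ) : (0 : ℝ) < b j := by exact_mod_cast b_pos j

lemma b_geR (j : ℕ) : 192 * (2 : ℝ) ^ j ≤ b j := by exact_mod_cast b_ge j

lemma inv_b_le (j : ℕ) : 1 / (b j : ℝ) ≤ 1 / 192 * (1 / 2) ^ j := by
  rw [one_div_pow, div_mul_div_comm, one_mul]
  exact one_div_le_one_div_of_le (by positivity) (b_geR j)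

lemma geom_le (n : ℕ) : ∑ j ∈ Finset.range n, (1 / 2 : ℝ) ^ j ≤ 2 := by
  have := Summable.sum_le_tsum (Finset.range n) (fun j _ => by positivity) summable_geometric_two
  rwa [tsum_geometric_two] at this

noncomputable def q (j : ℕ) (z : ℂ) : ℂ := cos (z / (b j : ℂ)) ^ b j

noncomputable def h (z : ℂ) : ℂ := ∏' j, (1 + (q j z - 1))

lemma q_diff (j : ℕ) : Differentiable ℂ (q j) := by
  unfold q
  fun_prop

lemma q_close (j : ℕ) (z : ℂ) : ‖q j z - 1‖ ≤ Real.exp (2 * ‖z‖ ^ 2 / b j) - 1 := by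
  refine (pow_close _ _ (norm_cos_sub_one _) (b j)).trans (le_of_eq ?_)
  have := (b_posR j).ne'
  rw [norm_div, Complex.norm_natCast]
  congr 2
  field_simp

lemma q_major (ρ : ℝ) (j : ℕ) (z : ℂ) (hz : ‖z‖ ≤ ρ) :
    ‖q j z - 1‖ ≤ 2 * ρ ^ 2 * Real.exp (2 * ρ ^ 2) * (1 / 2) ^ j := by
  refine (q_close j z).trans ?_
  have h1 : ‖z‖ ^ 2 ≤ ρ ^ 2 := pow_le_pow_left₀ (norm_nonneg _) hz 2
  have h2 := inv_b_le j
  have h3 : (0 : ℝ) < (1 / 2) ^ j := by positivity
  have h4 : ((1 : ℝ) / 2) ^ j ≤ 1 := pow_le_one₀ (by norm_num) (by norm_num)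
  obtain ⟨t, ht⟩ : ∃ t, t = 2 * ‖z‖ ^ 2 / (b j : ℝ) := ⟨_, rfl⟩
  have t0 : 0 ≤ t := by rw [ht]; have := b_posR j; positivity
  have t1 : t ≤ 2 * ρ ^ 2 * (1 / 2) ^ j := by
    rw [ht, div_eq_mul_one_div]
    exact mul_le_mul (by linarith) (by linarith) (by have := b_posR j; positivity) (by positivity)
  have t2 : t ≤ 2 * ρ ^ 2 := by nlinarith [sq_nonneg ρ]
  rw [← ht]
  have e1 : Real.exp t - 1 ≤ t * Real.exp t := by
    have a := Real.add_one_le_exp (-t)
    have c : Real.exp (-t) * Real.exp t = 1 := by rw [← Real.exp_add]; simp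
    nlinarith [Real.exp_pos t]
  have e2 : Real.exp t ≤ Real.exp (2 * ρ ^ 2) := Real.exp_le_exp.2 t2
  calc Real.exp t - 1 ≤ t * Real.exp t := e1
    _ ≤ (2 * ρ ^ 2 * (1 / 2) ^ j) * Real.exp (2 * ρ ^ 2) :=
        mul_le_mul t1 e2 (Real.exp_pos _).le (by positivity)
    _ = _ := by ring

lemma q_summable (z : ℂ) : Summable (fun j => ‖q j z - 1‖) :=
  Summable.of_nonneg_of_le (fun _ => norm_nonneg _) (fun j => q_major ‖z‖ j z le_rfl)
    (summable_geometric_two.mul_left _)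

lemma tendsto_P (z : ℂ) :
    Tendsto (fun n => ∏ j ∈ Finset.range n, q j z) atTop (𝓝 (h z)) := by
  have := (multipliable_one_add_of_summable (q_summable z)).hasProd.tendsto_prod_nat
  simpa [h] using this

lemma h_diff : Differentiable ℂ h := by
  intro z
  have hU : ball (0 : ℂ) (‖z‖ + 1) ∈ nhds z := isOpen_ball.mem_nhds (by simp)
  refine DifferentiableOn.differentiableAt ?_ hU
  have h1 := Summable.hasProdLocallyUniformlyOn_nat_one_add (f := fun j z => q j z - 1)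
    (K := ball (0 : ℂ) (‖z‖ + 1)) isOpen_ball
    (summable_geometric_two.mul_left (2 * (‖z‖ + 1) ^ 2 * Real.exp (2 * (‖z‖ + 1) ^ 2)))
    (Eventually.of_forall fun j w hw => q_major _ j w (by simpa using (mem_ball_iff_norm.1 hw).le))
    (fun j => ((q_diff j).continuous.sub continuous_const).continuousOn)
  refine h1.tendstoLocallyUniformlyOn_finsetRange.differentiableOn
    (Eventually.of_forall fun n => ?_) isOpen_ball
  refine Differentiable.differentiableOn ?_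
  exact Differentiable.fun_finsetProd fun j _ => ((q_diff j).sub_const 1).const_add 1

lemma h_le (z : ℂ) (s : ℕ → ℝ) (B : ℝ) (hs : ∀ j, ‖q j z‖ ≤ Real.exp (s j))
    (hB : ∀ n, ∑ j ∈ Finset.range n, s j ≤ B) : ‖h z‖ ≤ Real.exp B := by
  refine le_of_tendsto' (tendsto_P z).norm fun n => ?_
  rw [norm_prod]
  refine (Finset.prod_le_prod (fun _ _ => norm_nonneg _) fun j _ => hs j).trans ?_
  rw [← Real.exp_sum]
  exact Real.exp_le_exp.2 (hB n)

lemma q_gauss (j : ℕ) (z : ℂ) : ‖q j z‖ ≤ Real.exp (z.im ^ 2 / 2 / b j) := by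
  unfold q
  rw [norm_pow]
  have h1 := (norm_cos_le_cosh (z / (b j : ℂ))).trans (Real.cosh_le_exp_half_sq _)
  refine (pow_le_pow_left₀ (norm_nonneg _) h1 _).trans (le_of_eq ?_)
  rw [← Real.exp_nat_mul, Complex.div_natCast_im]
  have := (b_posR j).ne'
  congr 1
  field_simp

lemma q_lin (j : ℕ) (z : ℂ) : ‖q j z‖ ≤ Real.exp ‖z‖ := by
  unfold q
  rw [norm_pow]
  have h1 := (norm_cos_le_cosh (z / (b j : ℂ))).trans (cosh_le_exp_abs _)
  refine (pow_le_pow_left₀ (norm_nonneg _) h1 _).trans ?_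
  rw [← Real.exp_nat_mul, Complex.div_natCast_im, abs_div, abs_of_pos (b_posR j),
    mul_div_cancel₀ _ (b_posR j).ne']
  exact Real.exp_le_exp.2 (abs_im_le_norm z)

lemma h_gauss (z : ℂ) : ‖h z‖ ≤ Real.exp (z.im ^ 2 / 2) := by
  refine h_le z (fun j => z.im ^ 2 / 2 / b j) _ (fun j => q_gauss j z) fun n => ?_
  have h1 : ∑ j ∈ Finset.range n, z.im ^ 2 / 2 / b j ≤
      ∑ j ∈ Finset.range n, z.im ^ 2 / 2 * (1 / 192 * (1 / 2) ^ j) := by
    refine Finset.sum_le_sum fun j _ => ?_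
    rw [div_eq_mul_one_div _ (b j : ℝ)]
    exact mul_le_mul_of_nonneg_left (inv_b_le j) (by positivity)
  rw [← Finset.mul_sum, ← Finset.mul_sum] at h1
  have h2 := geom_le n
  nlinarith [sq_nonneg z.im]

lemma h_order (θ : ℝ) (h0 : 0 < θ) (h1 : θ ≤ 1) : ∃ C : ℝ, 0 ≤ C ∧ ∀ z : ℂ,
    ‖h z‖ ≤ Real.exp (C * (‖z‖ * ‖z‖ ^ θ)) := by
  have hr0 : (0 : ℝ) ≤ (1 / 2) ^ θ := by positivity
  have hr1 : ((1 : ℝ) / 2) ^ θ < 1 := Real.rpow_lt_one (by norm_num) (by norm_num) h0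
  refine ⟨(1 - (1 / 2 : ℝ) ^ θ)⁻¹, by rw [inv_nonneg]; linarith, fun z => ?_⟩
  refine h_le z (fun j => ‖z‖ * ‖z‖ ^ θ * ((1 / 2 : ℝ) ^ θ) ^ j) _ (fun j => ?_) fun n => ?_
  · have hb := b_posR j
    have key : ‖q j z‖ ≤ Real.exp (‖z‖ * (‖z‖ / b j) ^ θ) := by
      rcases le_total (‖z‖ / b j) 1 with hc | hc
      · refine (q_gauss j z).trans (Real.exp_le_exp.2 ?_)
        have a1 : z.im ^ 2 ≤ ‖z‖ ^ 2 := by
          rw [← sq_abs]; exact pow_le_pow_left₀ (abs_nonneg _) (abs_im_le_norm z) 2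
        have a2 : ‖z‖ / b j ≤ (‖z‖ / b j) ^ θ := by
          have := Real.rpow_le_rpow_of_exponent_ge' (x := ‖z‖ / b j) (by positivity) hc h0.le h1
          rwa [Real.rpow_one] at this
        calc z.im ^ 2 / 2 / b j ≤ ‖z‖ ^ 2 / b j :=
              div_le_div_of_nonneg_right (by nlinarith [sq_nonneg z.im]) hb.le
          _ = ‖z‖ * (‖z‖ / b j) := by ring
          _ ≤ _ := mul_le_mul_of_nonneg_left a2 (norm_nonneg _)
      · refine (q_lin j z).trans (Real.exp_le_exp.2 ?_)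
        exact le_mul_of_one_le_right (norm_nonneg _) (Real.one_le_rpow hc h0.le)
    refine key.trans (Real.exp_le_exp.2 ?_)
    rw [mul_assoc]
    refine mul_le_mul_of_nonneg_left ?_ (norm_nonneg _)
    rw [← Real.rpow_natCast, ← Real.rpow_mul (by norm_num), mul_comm θ, Real.rpow_mul (by norm_num),
      Real.rpow_natCast, ← Real.mul_rpow (norm_nonneg _) (by positivity)]
    refine Real.rpow_le_rpow (by positivity) ?_ h0.le
    rw [div_eq_mul_one_div]
    refine mul_le_mul_of_nonneg_left ((inv_b_le j).trans ?_) (norm_nonneg _)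
    have : (0 : ℝ) < (1 / 2) ^ j := by positivity
    linarith
  · rw [← Finset.mul_sum, mul_comm]
    refine mul_le_mul_of_nonneg_right ?_ (by positivity)
    have := Summable.sum_le_tsum (Finset.range n) (fun j _ => pow_nonneg hr0 j)
      (summable_geometric_of_lt_one hr0 hr1)
    rwa [tsum_geometric_of_lt_one hr0 hr1] at this

lemma norm_cos_mul_I (y : ℝ) : ‖cos ((y : ℂ) * I)‖ = Real.cosh y := by
  rw [cos_mul_I, ← ofReal_cosh, Complex.norm_real, Real.norm_of_nonneg (Real.cosh_pos y).le]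

lemma q_imag (j : ℕ) (y : ℝ) : ‖q j ((y : ℂ) * I)‖ = Real.cosh (y / b j) ^ b j := by
  unfold q
  rw [norm_pow, ← norm_cos_mul_I]
  congr 3
  push_cast
  ring

lemma h_big (n : ℕ) : ∃ D : ℝ, 0 < D ∧ ∀ y : ℝ, Real.exp (n * y) / D ≤ ‖h ((y : ℂ) * I)‖ := by
  refine ⟨∏ j ∈ Finset.range n, (2 : ℝ) ^ b j, by positivity, fun y => ?_⟩
  have h1 : Real.exp (n * y) / ∏ j ∈ Finset.range n, (2 : ℝ) ^ b j ≤
      ∏ j ∈ Finset.range n, ‖q j ((y : ℂ) * I)‖ := by
    have : Real.exp (n * y) = ∏ j ∈ Finset.range n, Real.exp y := by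
      rw [Finset.prod_const, Finset.card_range, Real.exp_nat_mul]
    rw [this, ← Finset.prod_div_distrib]
    refine Finset.prod_le_prod (fun _ _ => by positivity) fun j _ => ?_
    rw [q_imag]
    have e : Real.exp y = Real.exp (y / b j) ^ b j := by
      rw [← Real.exp_nat_mul, mul_div_cancel₀ _ (b_posR j).ne']
    rw [e, ← div_pow]
    refine pow_le_pow_left₀ (by positivity) ?_ _
    rw [Real.cosh_eq]
    linarith [Real.exp_pos (-(y / b j))]
  refine h1.trans (ge_of_tendsto (tendsto_P _).norm ?_)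
  filter_upwards [eventually_ge_atTop n] with N hN
  rw [norm_prod]
  induction hN with
  | refl => exact le_rfl
  | step _ ih =>
    rw [Finset.prod_range_succ]
    refine ih.trans (le_mul_of_one_le_right (Finset.prod_nonneg fun _ _ => norm_nonneg _) ?_)
    rw [q_imag]
    exact one_le_pow₀ (Real.one_le_cosh _)

lemma h_real (x : ℝ) : (h (x : ℂ)).im = 0 := by
  have h1 := (continuous_im.tendsto _).comp (tendsto_P (x : ℂ))
  have h2 : (im ∘ fun n => ∏ j ∈ Finset.range n, q j (x : ℂ)) = fun _ => 0 := by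
    funext n
    have : ∏ j ∈ Finset.range n, q j (x : ℂ) =
        ((∏ j ∈ Finset.range n, Real.cos (x / b j) ^ b j : ℝ) : ℂ) := by
      simp [q]
    simp only [Function.comp]
    rw [this, ofReal_im]
  rw [h2] at h1
  exact tendsto_nhds_unique h1 tendsto_const_nhds

lemma h_even (z : ℂ) : h (-z) = h z := by
  unfold h q
  simp only [neg_div, cos_neg]

lemma h_zero (z : ℂ) (hz : h z = 0) : z.im = 0 := by
  by_contra hn
  refine tprod_one_add_ne_zero_of_summable (fun j => ?_) (q_summable z) hz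
  rw [add_sub_cancel]
  refine pow_ne_zero _ fun hc => hn ?_
  obtain ⟨k, hk⟩ := Complex.cos_eq_zero_iff.1 hc
  have h1 := congrArg im hk
  rw [Complex.div_natCast_im] at h1
  have h2 : ((2 * (k : ℂ) + 1) * Real.pi / 2).im = 0 := by
    have : (2 * (k : ℂ) + 1) * Real.pi / 2 = (((2 * (k : ℝ) + 1) * Real.pi / 2 : ℝ) : ℂ) := by
      push_cast; ring
    rw [this, ofReal_im]
  rw [h2, div_eq_zero_iff] at h1
  exact h1.resolve_right (b_posR j).ne'

lemma h_near (k : ℕ) (z : ℂ) (hz : ‖z‖ ≤ 4) :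
    ‖h (z + (b k : ℂ) * (2 * Real.pi)) - 1‖ ≤ 1 / 2 := by
  have key : ∀ j, ‖q j (z + (b k : ℂ) * (2 * Real.pi)) - 1‖ ≤
      Real.exp (1 / 6 * (1 / 2) ^ j) - 1 := by
    intro j
    have hb := b_posR j
    rcases le_or_gt j k with hjk | hjk
    · obtain ⟨m, hm⟩ := b_dvd hjk
      have e : q j (z + (b k : ℂ) * (2 * Real.pi)) = q j z := by
        unfold q
        have hb' : (b j : ℂ) ≠ 0 := by exact_mod_cast (b_pos j).ne'
        have : (z + (b k : ℂ) * (2 * Real.pi)) / (b j : ℂ) = z / (b j : ℂ) + m * (2 * Real.pi) := by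
          rw [hm]; push_cast; field_simp
        rw [this, cos_add_nat_mul_two_pi]
      rw [e]
      refine (q_close j z).trans (sub_le_sub_right (Real.exp_le_exp.2 ?_) _)
      have a1 : ‖z‖ ^ 2 ≤ 16 := by nlinarith [norm_nonneg z]
      calc 2 * ‖z‖ ^ 2 / b j ≤ 32 * (1 / b j) := by
            rw [mul_one_div]; exact div_le_div_of_nonneg_right (by linarith) hb.le
        _ ≤ 32 * (1 / 192 * (1 / 2) ^ j) := mul_le_mul_of_nonneg_left (inv_b_le j) (by norm_num)
        _ = _ := by ring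
    · refine (q_close j _).trans (sub_le_sub_right (Real.exp_le_exp.2 ?_) _)
      have a0 : (192 : ℝ) ≤ b k := by
        have := b_geR k
        have h2 : (1 : ℝ) ≤ 2 ^ k := one_le_pow₀ (by norm_num)
        linarith
      have a1 : ‖z + (b k : ℂ) * (2 * Real.pi)‖ ≤ 8 * b k := by
        refine (norm_add_le _ _).trans ?_
        rw [norm_mul, norm_mul, Complex.norm_natCast, Complex.norm_real, norm_ofNat,
          Real.norm_of_nonneg Real.pi_pos.le]
        nlinarith [Real.pi_lt_d2]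
      have a2 : ‖z + (b k : ℂ) * (2 * Real.pi)‖ ^ 2 ≤ (8 * b k) ^ 2 :=
        pow_le_pow_left₀ (norm_nonneg _) a1 2
      have a3 : 768 * 2 ^ j * (b k : ℝ) ^ 2 ≤ b j := by exact_mod_cast b_big hjk
      rw [div_le_iff₀ hb, one_div_pow]
      have a4 : (0 : ℝ) < 2 ^ j := by positivity
      calc 2 * ‖z + (b k : ℂ) * (2 * Real.pi)‖ ^ 2 ≤ 128 * (b k : ℝ) ^ 2 := by nlinarith
        _ = 1 / 6 * (1 / 2 ^ j) * (768 * 2 ^ j * (b k : ℝ) ^ 2) := by field_simp; norm_num
        _ ≤ _ := mul_le_mul_of_nonneg_left a3 (by positivity)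
  refine le_of_tendsto' ((tendsto_P _).sub_const 1).norm fun n => ?_
  refine (prod_close _ _ key n).trans ?_
  rw [← Finset.mul_sum]
  have h1 := geom_le n
  have h2 : Real.exp (1 / 6 * ∑ j ∈ Finset.range n, (1 / 2 : ℝ) ^ j) ≤ Real.exp (1 / 3) :=
    Real.exp_le_exp.2 (by linarith)
  have h3 : Real.exp (1 / 3) ≤ 3 / 2 := by
    have a := Real.add_one_le_exp (-(1 / 3 : ℝ))
    have c : Real.exp (-(1 / 3 : ℝ)) * Real.exp (1 / 3) = 1 := by rw [← Real.exp_add]; simp
    nlinarith [Real.exp_pos (1 / 3)]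
  linarith

end Pool.Agent.H40Z.Heat
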