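import Mathlib
import Pool.Agent.H40Z.HeatB

set_option autoImplicit false
set_option maxHeartbeats 400000

namespace Pool.Agent.H40Z.Heat

open Complex Metric Filter Topology

noncomputable def p (z : ℂ) : ℂ := cos (z - I) * cos (z + I)

noncomputable def f (z : ℂ) : ℂ := p z * h z

lemma p_diff : Differentiable ℂ p := by
  unfold p
  fun_prop

lemma f_diff : Differentiable ℂ f := p_diff.mul h_diff

lemma p_real (x : ℝ) : (p (x : ℂ)).im = 0 := by
  have : cos ((x : ℂ) - I) = (starRingEnd ℂ) (cos ((x : ℂ) + I)) := by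
    rw [← cos_conj]; simp [sub_eq_add_neg]
  unfold p
  rw [this, mul_comm, mul_conj, ofReal_im]

lemma f_real (x : ℝ) : (f (x : ℂ)).im = 0 := by
  unfold f
  rw [mul_im, p_real, h_real]
  ring

lemma f_even (z : ℂ) : f (-z) = f z := by
  unfold f p
  rw [h_even, show -z - I = -(z + I) by ring, show -z + I = -(z - I) by ring, cos_neg, cos_neg]
  ring

lemma p_le (z : ℂ) : ‖p z‖ ≤ Real.exp (2 * |z.im| + 2) := by
  unfold p
  rw [norm_mul]
  have h1 := (norm_cos_le_cosh (z - I)).trans (cosh_le_exp_abs _)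
  have h2 := (norm_cos_le_cosh (z + I)).trans (cosh_le_exp_abs _)
  refine (mul_le_mul h1 h2 (norm_nonneg _) (Real.exp_pos _).le).trans ?_
  rw [← Real.exp_add]
  refine Real.exp_le_exp.2 ?_
  simp only [sub_im, add_im, I_im]
  have a1 := abs_sub z.im 1
  have a2 := abs_add_le z.im 1
  rw [abs_one] at a1 a2
  linarith

lemma f_gauss (x : ℝ) (w : ℂ) : ‖f w‖ ≤ Real.exp 4 * Real.exp (‖w - x‖ ^ 2) := by
  unfold f
  rw [norm_mul]
  refine (mul_le_mul (p_le w) (h_gauss w) (norm_nonneg _) (Real.exp_pos _).le).trans ?_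
  rw [← Real.exp_add, ← Real.exp_add]
  refine Real.exp_le_exp.2 ?_
  have a1 : |w.im| ≤ ‖w - x‖ := by
    have := abs_im_le_norm (w - x)
    simpa using this
  have a2 : |w.im| ^ 2 ≤ ‖w - x‖ ^ 2 := pow_le_pow_left₀ (abs_nonneg _) a1 2
  rw [← sq_abs w.im]
  nlinarith [sq_nonneg (|w.im| - 2)]

lemma f_order (ε : ℝ) (hε : 0 < ε) :
    ∃ R : ℝ, ∀ z : ℂ, R ≤ ‖z‖ → ‖f z‖ ≤ Real.exp (‖z‖ ^ (1 + ε)) := by
  obtain ⟨θ, hθ0, hθ1, hθε⟩ : ∃ θ : ℝ, 0 < θ ∧ θ ≤ 1 ∧ θ < ε :=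
    ⟨min (ε / 2) 1, lt_min (by linarith) one_pos, min_le_right _ _,
      lt_of_le_of_lt (min_le_left _ _) (by linarith)⟩
  obtain ⟨C, hC, hh⟩ := h_order θ hθ0 hθ1
  have ht := (tendsto_rpow_atTop (show 0 < ε - θ by linarith)).eventually_ge_atTop (4 + C)
  obtain ⟨R, hR⟩ := eventually_atTop.1 ht
  refine ⟨max R 1, fun z hz => ?_⟩
  have h1 : 1 ≤ ‖z‖ := le_trans (le_max_right _ _) hz
  have h2 := hR ‖z‖ (le_trans (le_max_left _ _) hz)
  unfold f
  rw [norm_mul]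
  refine (mul_le_mul (p_le z) (hh z) (norm_nonneg _) (Real.exp_pos _).le).trans ?_
  rw [← Real.exp_add]
  refine Real.exp_le_exp.2 ?_
  have e : ‖z‖ ^ (1 + ε) = ‖z‖ * ‖z‖ ^ θ * ‖z‖ ^ (ε - θ) := by
    rw [mul_assoc, ← Real.rpow_add (by linarith), Real.rpow_add (by linarith), Real.rpow_one]
    congr 2
    ring
  have h3 : 1 ≤ ‖z‖ ^ θ := Real.one_le_rpow h1 hθ0.le
  have h4 : ‖z‖ ≤ ‖z‖ * ‖z‖ ^ θ := le_mul_of_one_le_right (norm_nonneg _) h3
  have h5 := abs_im_le_norm z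
  rw [e]
  nlinarith

lemma f_type (C R : ℝ) : ∃ z : ℂ, R ≤ ‖z‖ ∧ Real.exp (C * ‖z‖) < ‖f z‖ := by
  obtain ⟨n, hn⟩ := exists_nat_ge (C + 1)
  obtain ⟨D, hD, hh⟩ := h_big n
  obtain ⟨y, hy⟩ : ∃ y : ℝ, y = |R| + D := ⟨_, rfl⟩
  have hy0 : 0 ≤ y := by rw [hy]; positivity
  have hnorm : ‖(y : ℂ) * I‖ = y := by simp [hy0]
  refine ⟨(y : ℂ) * I, by rw [hnorm, hy]; linarith [le_abs_self R], ?_⟩
  have hp : 1 ≤ ‖p ((y : ℂ) * I)‖ := by
    unfold p
    rw [norm_mul, show (y : ℂ) * I - I = ((y - 1 : ℝ) : ℂ) * I by push_cast; ring,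
      show (y : ℂ) * I + I = ((y + 1 : ℝ) : ℂ) * I by push_cast; ring, norm_cos_mul_I,
      norm_cos_mul_I]
    nlinarith [Real.one_le_cosh (y - 1), Real.one_le_cosh (y + 1)]
  unfold f
  rw [hnorm, norm_mul]
  refine lt_of_lt_of_le ?_ ((hh y).trans (le_mul_of_one_le_left (norm_nonneg _) hp))
  rw [lt_div_iff₀ hD]
  have h1 : D < Real.exp y := by
    have := Real.add_one_le_exp y
    have := abs_nonneg R
    linarith
  have h2 : Real.exp (C * y) * Real.exp y ≤ Real.exp (n * y) := by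
    rw [← Real.exp_add]
    exact Real.exp_le_exp.2 (by nlinarith)
  nlinarith [Real.exp_pos (C * y)]

lemma cos_zero_form (u : ℂ) (hu : cos u = 0) :
    ∃ k : ℤ, u = (((2 * (k : ℝ) + 1) * Real.pi / 2 : ℝ) : ℂ) := by
  obtain ⟨k, hk⟩ := Complex.cos_eq_zero_iff.1 hu
  exact ⟨k, by rw [hk]; push_cast; ring⟩

lemma f_strip (z : ℂ) (hz : f z = 0) : |z.im| < 2 := by
  rcases mul_eq_zero.1 hz with h1 | h1
  · rcases mul_eq_zero.1 h1 with h2 | h2
    · obtain ⟨k, hk⟩ := cos_zero_form _ h2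
      have := congrArg im hk
      rw [ofReal_im, sub_im, I_im] at this
      rw [abs_lt]; constructor <;> linarith
    · obtain ⟨k, hk⟩ := cos_zero_form _ h2
      have := congrArg im hk
      rw [ofReal_im, add_im, I_im] at this
      rw [abs_lt]; constructor <;> linarith
  · rw [h_zero z h1]; norm_num

noncomputable def z0 : ℂ := ((Real.pi / 2 : ℝ) : ℂ) + I

lemma p_z0 : p z0 = 0 := by
  unfold p z0
  rw [add_sub_cancel_right, ← ofReal_cos, Real.cos_pi_div_two]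
  simp

lemma z0_norm : ‖z0‖ ≤ 3 := by
  unfold z0
  refine (norm_add_le _ _).trans ?_
  rw [Complex.norm_real, norm_I, Real.norm_of_nonneg (by positivity)]
  linarith [Real.pi_lt_d2]

lemma p_min : ∃ μ : ℝ, 0 < μ ∧ ∀ z ∈ sphere z0 (1 / 2), μ ≤ ‖p z‖ := by
  obtain ⟨w, hw, hmin⟩ := (isCompact_sphere z0 (1 / 2)).exists_isMinOn
    (NormedSpace.sphere_nonempty.2 (by norm_num)) p_diff.continuous.norm.continuousOn
  refine ⟨‖p w‖, norm_pos_iff.2 fun h0 => ?_, fun z hz => hmin hz⟩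
  have hn : ‖w - z0‖ = 1 / 2 := mem_sphere_iff_norm.1 hw
  rcases mul_eq_zero.1 h0 with h2 | h2
  · obtain ⟨k, hk⟩ := cos_zero_form _ h2
    have e : w - z0 = ((k * Real.pi : ℝ) : ℂ) := by
      have : w = (((2 * (k : ℝ) + 1) * Real.pi / 2 : ℝ) : ℂ) + I := by rw [← hk]; ring
      rw [this]; unfold z0; push_cast; ring
    rw [e, Complex.norm_real, Real.norm_eq_abs, abs_mul, abs_of_pos Real.pi_pos] at hn
    rcases eq_or_ne k 0 with rfl | hk0
    · norm_num at hn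
    · have : (1 : ℝ) ≤ |(k : ℝ)| := by exact_mod_cast Int.one_le_abs hk0
      nlinarith [Real.pi_gt_three]
  · obtain ⟨k, hk⟩ := cos_zero_form _ h2
    have h3 := congrArg im hk
    rw [ofReal_im, add_im, I_im] at h3
    have h4 := abs_im_le_norm (w - z0)
    have h5 : (w - z0).im = w.im - 1 := by simp [z0]
    rw [hn, h5, abs_le] at h4
    linarith [h4.1]

theorem main : ∃ lam : ℝ, 0 < lam ∧ ∀ M : ℝ, ∃ z : ℂ, M < ‖z‖ ∧ z.im ≠ 0 ∧
    (∑' k, term lam f k z) = 0 := by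
  obtain ⟨μ, hμ, hmin⟩ := p_min
  obtain ⟨E, hE⟩ : ∃ E : ℝ, E = Real.exp 4 * Real.exp 32 := ⟨_, rfl⟩
  have hE0 : 0 < E := by rw [hE]; positivity
  obtain ⟨lam, hl0, hl1, hl2⟩ : ∃ lam : ℝ, 0 < lam ∧ 16 * lam ≤ 1 / 2 ∧ E * (32 * lam) ≤ μ / 8 := by
    refine ⟨min (1 / 32) (μ / (256 * E)), lt_min (by norm_num) (by positivity), ?_, ?_⟩
    · linarith [min_le_left (1 / 32 : ℝ) (μ / (256 * E))]
    · have h1 := min_le_right (1 / 32 : ℝ) (μ / (256 * E))
      have h2 : E * (32 * (μ / (256 * E))) = μ / 8 := by field_simp; norm_num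
      nlinarith
  refine ⟨lam, hl0, fun M => ?_⟩
  have hg := flow_diff lam hl0.le (by linarith) f f_diff (Real.exp 4) (Real.exp_pos _).le
    (fun w => by simpa using f_gauss 0 w)
  obtain ⟨k, hk⟩ := exists_nat_ge (M + 5)
  obtain ⟨x, hx⟩ : ∃ x : ℝ, x = (b k : ℝ) * (2 * Real.pi) := ⟨_, rfl⟩
  have hxc : (x : ℂ) = (b k : ℂ) * (2 * Real.pi) := by rw [hx]; push_cast; ring
  have hxk : (k : ℝ) ≤ x := by
    have h1 : (k : ℝ) ≤ 2 ^ k := by exact_mod_cast (Nat.lt_two_pow_self (n := k)).le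
    have h2 := b_geR k
    have h3 : (0 : ℝ) < 2 ^ k := by positivity
    rw [hx]
    nlinarith [Real.pi_gt_three]
  have close : ∀ u : ℂ, ‖u‖ ≤ 4 → ‖(∑' j, term lam f j (u + x)) - f (u + x)‖ ≤ μ / 8 := by
    intro u hu
    refine (flow_close lam hl0.le hl1 f f_diff (Real.exp 4) (Real.exp_pos _).le x
      (f_gauss x) (u + x)).trans (le_trans ?_ hl2)
    rw [add_sub_cancel_right, hE]
    refine mul_le_mul_of_nonneg_right
      (mul_le_mul_of_nonneg_left (Real.exp_le_exp.2 ?_) (Real.exp_pos _).le) (by positivity)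
    nlinarith [norm_nonneg u]
  have pper : ∀ u : ℂ, p (u + x) = p u := by
    intro u
    unfold p
    rw [hxc, show u + (b k : ℂ) * (2 * Real.pi) - I = (u - I) + (b k : ℂ) * (2 * Real.pi) by ring,
      show u + (b k : ℂ) * (2 * Real.pi) + I = (u + I) + (b k : ℂ) * (2 * Real.pi) by ring,
      cos_add_nat_mul_two_pi, cos_add_nat_mul_two_pi]
  have hz0 := z0_norm
  obtain ⟨z, hz, hz'⟩ := exists_zero _ hg (z0 + x) (1 / 2) (μ / 4) (by norm_num)
    (by
      have h1 := close z0 (by linarith)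
      have h2 : f (z0 + x) = 0 := by unfold f; rw [pper, p_z0, zero_mul]
      rw [h2, sub_zero] at h1
      linarith)
    (fun z hz => by
      obtain ⟨u, rfl⟩ : ∃ u, z = u + x := ⟨z - x, by ring⟩
      have h0 : ‖u - z0‖ = 1 / 2 := by
        have := mem_sphere_iff_norm.1 hz
        rwa [add_sub_add_right_eq_sub] at this
      have hu : ‖u‖ ≤ 4 := by
        have := norm_add_le (u - z0) z0
        rw [sub_add_cancel] at this
        linarith
      have h1 := close u hu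
      have h2 := hmin u (mem_sphere_iff_norm.2 h0)
      have h3 := h_near k u hu
      rw [← hxc] at h3
      have h4 : 1 / 2 ≤ ‖h (u + x)‖ := by
        have := norm_sub_norm_le (1 : ℂ) (h (u + x))
        rw [norm_sub_rev, norm_one] at this
        linarith
      have h5 : μ / 2 ≤ ‖f (u + x)‖ := by
        unfold f
        rw [norm_mul, pper]
        nlinarith
      have h6 := norm_sub_norm_le (f (u + x)) (∑' j, term lam f j (u + x))
      rw [norm_sub_rev] at h6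
      linarith)
  have hd : ‖z - (z0 + x)‖ ≤ 1 / 2 := mem_closedBall_iff_norm.1 hz
  refine ⟨z, ?_, ?_, hz'⟩
  · have h1 : ‖(x : ℂ)‖ ≤ ‖z‖ + ‖z - (z0 + x)‖ + ‖z0‖ := by
      have e : (x : ℂ) = z - (z - (z0 + x)) - z0 := by ring
      calc ‖(x : ℂ)‖ = ‖z - (z - (z0 + x)) - z0‖ := by rw [← e]
        _ ≤ ‖z - (z - (z0 + x))‖ + ‖z0‖ := norm_sub_le _ _
        _ ≤ _ := add_le_add_left (norm_sub_le _ _) _
    rw [Complex.norm_real, Real.norm_eq_abs] at h1
    linarith [le_abs_self x]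
  · have h4 := abs_im_le_norm (z - (z0 + x))
    have h5 : (z - (z0 + x)).im = z.im - 1 := by simp [z0]
    rw [h5] at h4
    have := (abs_le.1 (h4.trans hd)).1
    linarith

end Pool.Agent.H40Z.Heat
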