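import Mathlib

set_option autoImplicit false
set_option maxHeartbeats 200000

namespace Pool.Agent.H40Z.PathOdd

/-- The disjoint union of a complete graph on 0,1,2,3 and a triangle on 4,5,6. -/
def G7 : SimpleGraph (Fin 7) where
  Adj a b := a ≠ b ∧ (a.val < 4 ↔ b.val < 4)
  symm := ⟨fun _ _ h => ⟨h.1.symm, h.2.symm⟩⟩
  loopless := ⟨fun _ h => h.1 rfl⟩

instance decAdj : DecidableRel G7.Adj := fun a b =>
  inferInstanceAs (Decidable (a ≠ b ∧ (a.val < 4 ↔ b.val < 4)))

lemma deg_eq (x : Fin 7) (inst : Fintype (G7.neighborSet x)) :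
    @SimpleGraph.degree _ G7 x inst = if x.val < 4 then 3 else 2 := by
  have h : @SimpleGraph.degree _ G7 x inst = (Finset.univ.filter (fun y => G7.Adj x y)).card := by
    unfold SimpleGraph.degree
    congr 1
    ext y
    simp
  rw [h]
  clear h inst
  revert x
  decide

/-- an edge at the starting vertex of a path is its first edge -/
lemma start_unique {V : Type} {H : SimpleGraph V} {u w : V} (p : H.Walk u w) (hp : p.IsPath)
    {a b : V} (ha : s(u, a) ∈ p.edges) (hb : s(u, b) ∈ p.edges) : a = b := by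
  cases p with
  | nil => simp at ha
  | @cons _ x _ h q =>
    rw [SimpleGraph.Walk.cons_isPath_iff] at hp
    have key : ∀ c, s(u, c) ∈ (SimpleGraph.Walk.cons h q).edges → c = x := by
      intro c hc
      rw [SimpleGraph.Walk.edges_cons, List.mem_cons] at hc
      rcases hc with hc | hc
      · rw [Sym2.eq_iff] at hc
        rcases hc with ⟨_, hc⟩ | ⟨hc, _⟩
        · exact hc
        · exact absurd hc h.ne
      · exact absurd (q.fst_mem_support_of_mem_edges hc) hp.2
    rw [key a ha, key b hb]

/-- a path has at most two edges at a vertex -/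
lemma deg_le_two {V : Type} {H : SimpleGraph V} {u w : V} (p : H.Walk u w) (hp : p.IsPath)
    (v a b c : V) (ha : s(v, a) ∈ p.edges) (hb : s(v, b) ∈ p.edges) (hc : s(v, c) ∈ p.edges) :
    a = b ∨ a = c ∨ b = c := by
  induction p with
  | nil => simp at ha
  | @cons u x w h q ih =>
    by_cases hv : v = u
    · subst hv
      exact Or.inl (start_unique _ hp ha hb)
    · have hp' := hp
      rw [SimpleGraph.Walk.cons_isPath_iff] at hp'
      have split : ∀ y, s(v, y) ∈ (SimpleGraph.Walk.cons h q).edges →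
          (v = x ∧ y = u) ∨ s(v, y) ∈ q.edges := by
        intro y hy
        rw [SimpleGraph.Walk.edges_cons, List.mem_cons] at hy
        rcases hy with hy | hy
        · rw [Sym2.eq_iff] at hy
          rcases hy with ⟨hy, _⟩ | hy
          · exact absurd hy hv
          · exact Or.inl hy
        · exact Or.inr hy
      rcases split a ha with ⟨h1, h2⟩ | h1
      · subst h1
        rcases split b hb with ⟨_, h3⟩ | h3
        · exact Or.inl (h2.trans h3.symm)
        · rcases split c hc with ⟨_, h4⟩ | h4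
          · exact Or.inr (Or.inl (h2.trans h4.symm))
          · exact Or.inr (Or.inr (start_unique q hp'.1 h3 h4))
      · rcases split b hb with ⟨h2, h3⟩ | h3
        · subst h2
          rcases split c hc with ⟨_, h4⟩ | h4
          · exact Or.inr (Or.inr (h3.trans h4.symm))
          · exact Or.inr (Or.inl (start_unique q hp'.1 h1 h4))
        · rcases split c hc with ⟨h2, _⟩ | h4
          · subst h2
            exact Or.inl (start_unique q hp'.1 h1 h3)
          · exact ih hp'.1 h1 h3 h4

/-- a walk none of whose edges leaves a set stays on one side -/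
lemma stay {V : Type} {H : SimpleGraph V} (S : V → Prop) {u w : V} (p : H.Walk u w)
    (h : ∀ x y, s(x, y) ∈ p.edges → (S x ↔ S y)) : ∀ z ∈ p.support, (S z ↔ S u) := by
  induction p with
  | nil => intro z hz; simp at hz; rw [hz]
  | @cons u x w hadj q ih =>
    intro z hz
    rw [SimpleGraph.Walk.support_cons, List.mem_cons] at hz
    rcases hz with hz | hz
    · rw [hz]
    · have h1 := ih (fun a b hab => h a b (by simp [hab])) z hz
      have h2 := h u x (by simp)
      rw [h1, h2]

lemma two_paths {u0 w0 u1 w1 : Fin 7} (p : (⊤ : SimpleGraph (Fin 7)).Walk u0 w0)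
    (q : (⊤ : SimpleGraph (Fin 7)).Walk u1 w1) (hp : p.IsPath) (hq : q.IsPath)
    (h : ∀ x y, G7.Adj x y ↔ ¬ (s(x, y) ∈ p.edges ↔ s(x, y) ∈ q.edges))
    (h45 : s((4 : Fin 7), (5 : Fin 7)) ∈ p.edges) : False := by
  have cross : ∀ v x : Fin 7, v.val < 4 → ¬ x.val < 4 → s(v, x) ∉ p.edges := by
    intro v x hv hx hpx
    have hqx : s(v, x) ∈ q.edges := by
      have h2 : ¬ G7.Adj v x := fun hh => hx (hh.2.1 hv)
      by_contra hn
      exact h2 ((h v x).2 (fun h3 => hn (h3.1 hpx)))
    have ex : ∃ a b c : Fin 7, G7.Adj v a ∧ G7.Adj v b ∧ G7.Adj v c ∧ a ≠ b ∧ a ≠ c ∧ b ≠ c ∧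
        a ≠ x ∧ b ≠ x ∧ c ≠ x := by
      clear hpx hqx
      revert v x
      decide
    obtain ⟨a, b, c, ha, hb, hc, hab, hac, hbc, hax, hbx, hcx⟩ := ex
    have da := (h v a).1 ha
    have db := (h v b).1 hb
    have dc := (h v c).1 hc
    have or_of : ∀ y, ¬ (s(v, y) ∈ p.edges ↔ s(v, y) ∈ q.edges) →
        s(v, y) ∈ p.edges ∨ s(v, y) ∈ q.edges := by
      intro y hy
      by_contra hn
      rw [not_or] at hn
      exact hy ⟨fun h1 => absurd h1 hn.1, fun h1 => absurd h1 hn.2⟩
    have pp : ∀ y z, y ≠ z → y ≠ x → z ≠ x → s(v, y) ∈ p.edges → s(v, z) ∈ p.edges → False := by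
      intro y z h1 h2 h3 h4 h5
      rcases deg_le_two p hp v y z x h4 h5 hpx with h6 | h6 | h6
      · exact h1 h6
      · exact h2 h6
      · exact h3 h6
    have qq : ∀ y z, y ≠ z → y ≠ x → z ≠ x → s(v, y) ∈ q.edges → s(v, z) ∈ q.edges → False := by
      intro y z h1 h2 h3 h4 h5
      rcases deg_le_two q hq v y z x h4 h5 hqx with h6 | h6 | h6
      · exact h1 h6
      · exact h2 h6
      · exact h3 h6
    rcases or_of a da with h1 | h1 <;> rcases or_of b db with h2 | h2 <;>
      rcases or_of c dc with h3 | h3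
    · exact pp a b hab hax hbx h1 h2
    · exact pp a b hab hax hbx h1 h2
    · exact pp a c hac hax hcx h1 h3
    · exact qq b c hbc hbx hcx h2 h3
    · exact pp b c hbc hbx hcx h2 h3
    · exact qq a c hac hax hcx h1 h3
    · exact qq a b hab hax hbx h1 h2
    · exact qq a b hab hax hbx h1 h2
  have side := stay (fun z : Fin 7 => z.val < 4) p (by
    intro x y hxy
    constructor
    · intro hx
      by_contra hy
      exact cross x y hx hy hxy
    · intro hy
      by_contra hx
      exact cross y x hy hx (by rwa [Sym2.eq_swap]))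
  have h4 := side 4 (p.fst_mem_support_of_mem_edges h45)
  have no0 : ∀ y, s((0 : Fin 7), y) ∉ p.edges := by
    intro y hy
    have h0 := side 0 (p.fst_mem_support_of_mem_edges hy)
    have : ((4 : Fin 7).val < 4) := h4.2 (h0.1 (by decide))
    exact absurd this (by decide)
  have e1 := (h 0 1).1 (by decide)
  have e2 := (h 0 2).1 (by decide)
  have e3 := (h 0 3).1 (by decide)
  have inq : ∀ y, ¬ (s((0 : Fin 7), y) ∈ p.edges ↔ s((0 : Fin 7), y) ∈ q.edges) →
      s((0 : Fin 7), y) ∈ q.edges := by
    intro y hy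
    by_contra hn
    exact hy ⟨fun h1 => absurd h1 (no0 y), fun h1 => absurd h1 hn⟩
  have q1 := deg_le_two q hq 0 1 2 3 (inq 1 e1) (inq 2 e2) (inq 3 e3)
  exact absurd q1 (by decide)

lemma maxdeg_le (inst : DecidableRel G7.Adj) : @SimpleGraph.maxDegree _ G7 _ inst ≤ 3 := by
  have : inst = decAdj := Subsingleton.elim _ _
  subst this
  apply SimpleGraph.maxDegree_le_of_forall_degree_le
  intro v
  rw [deg_eq]
  split_ifs <;> omega

end Pool.Agent.H40Z.PathOdd
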