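import Mathlib
import Pool.Agent.H40Z.DiscBasic

set_option autoImplicit false
set_option maxHeartbeats 400000

namespace Pool.Agent.H40Z.Per

open Pool.Agent.H40Z.Disc

/-- a periodic weight with period `Q`, absolute sum at most `R` over a period, and mean `m` -/
structure W (Q : ℕ) (R m : ℝ) (w : ℕ → ℝ) : Prop where
  pos : 0 < Q
  rpos : 0 < R
  per : ∀ n n', n ≡ n' [MOD Q] → w n = w n'
  l1 : ∑ n ∈ Finset.range Q, |w n| ≤ R
  mean : ∑ n ∈ Finset.range Q, w n = Q * m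

lemma sum_range_mul (f : ℕ → ℝ) (Q k : ℕ) :
    ∑ n ∈ Finset.range (Q * k), f n =
      ∑ a ∈ Finset.range Q, ∑ c ∈ Finset.range k, f (a + c * Q) := by
  induction k with
  | zero => simp
  | succ k ih =>
    rw [Nat.mul_succ, Finset.sum_range_add, ih, ← Finset.sum_add_distrib]
    refine Finset.sum_congr rfl fun a _ => ?_
    rw [Finset.sum_range_succ]
    congr 2
    ring

lemma sum_shift (f : ℕ → ℝ) (Q : ℕ) (hf : ∀ n n', n ≡ n' [MOD Q] → f n = f n') (a : ℕ) :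
    ∑ n ∈ Finset.range Q, f (n + a) = ∑ n ∈ Finset.range Q, f n := by
  induction a with
  | zero => simp
  | succ a ih =>
    rw [← ih]
    have h1 := Finset.sum_range_succ (fun n => f (n + a)) Q
    have h2 := Finset.sum_range_succ' (fun n => f (n + a)) Q
    have h3 : f (Q + a) = f (0 + a) := hf _ _ (by simp [Nat.ModEq])
    have h4 : ∑ n ∈ Finset.range Q, f (n + (a + 1)) = ∑ n ∈ Finset.range Q, f (n + 1 + a) :=
      Finset.sum_congr rfl fun n _ => by congr 1; ring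
    rw [h4]
    linarith

lemma sum_crt (f g : ℕ → ℝ) (Q Q' : ℕ) (hQ : 0 < Q) (hQ' : 0 < Q') (co : Nat.Coprime Q Q')
    (hf : ∀ n n', n ≡ n' [MOD Q] → f n = f n') (hg : ∀ n n', n ≡ n' [MOD Q'] → g n = g n') :
    ∑ n ∈ Finset.range (Q * Q'), f n * g n =
      (∑ n ∈ Finset.range Q, f n) * ∑ n ∈ Finset.range Q', g n := by
  rw [Finset.sum_mul_sum, ← Finset.sum_product']
  refine Finset.sum_bij (fun n _ => (n % Q, n % Q')) ?_ ?_ ?_ ?_
  · intro n _
    simp only [Finset.mem_product, Finset.mem_range]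
    exact ⟨Nat.mod_lt _ hQ, Nat.mod_lt _ hQ'⟩
  · intro n hn n' hn' h
    simp only [Prod.mk.injEq] at h
    have h1 : n ≡ n' [MOD Q * Q'] := (Nat.modEq_and_modEq_iff_modEq_mul co).1 h
    exact Nat.ModEq.eq_of_lt_of_lt h1 (Finset.mem_range.1 hn) (Finset.mem_range.1 hn')
  · rintro ⟨a, b⟩ hab
    simp only [Finset.mem_product, Finset.mem_range] at hab
    refine ⟨(Nat.chineseRemainder co a b : ℕ),
      Finset.mem_range.2 (Nat.chineseRemainder_lt_mul co a b hQ.ne' hQ'.ne'), ?_⟩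
    have h1 := (Nat.chineseRemainder co a b).2.1
    have h2 := (Nat.chineseRemainder co a b).2.2
    unfold Nat.ModEq at h1 h2
    rw [h1, h2, Nat.mod_eq_of_lt hab.1, Nat.mod_eq_of_lt hab.2]
  · intro n _
    rw [hf n (n % Q) (Nat.mod_modEq n Q).symm, hg n (n % Q') (Nat.mod_modEq n Q').symm]

lemma W.mul {Q Q' : ℕ} {R R' m m' : ℝ} {w w' : ℕ → ℝ} (h : W Q R m w) (h' : W Q' R' m' w')
    (co : Nat.Coprime Q Q') : W (Q * Q') (R * R') (m * m') (fun n => w n * w' n) where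
  pos := Nat.mul_pos h.pos h'.pos
  rpos := mul_pos h.rpos h'.rpos
  per := fun n n' hn => by
    rw [h.per n n' (hn.of_mul_right Q'), h'.per n n' (hn.of_mul_left Q)]
  l1 := by
    simp only [abs_mul]
    rw [sum_crt (fun n => |w n|) (fun n => |w' n|) Q Q' h.pos h'.pos co
      (fun n n' hn => by simp only [h.per n n' hn]) (fun n n' hn => by simp only [h'.per n n' hn])]
    exact mul_le_mul h.l1 h'.l1 (Finset.sum_nonneg fun _ _ => abs_nonneg _) h.rpos.le
  mean := by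
    rw [sum_crt w w' Q Q' h.pos h'.pos co h.per h'.per, h.mean, h'.mean]
    push_cast
    ring

lemma W.const (t : ℝ) (ht : |t| ≤ 1) : W 1 1 t (fun _ => t) where
  pos := one_pos
  rpos := one_pos
  per := fun _ _ _ => rfl
  l1 := by simpa using ht
  mean := by simp

lemma W.shift {Q : ℕ} {R m : ℝ} {w : ℕ → ℝ} (h : W Q R m w) (a : ℕ) :
    W Q R m (fun n => w (n + a)) where
  pos := h.pos
  rpos := h.rpos
  per := fun n n' hn => h.per _ _ (hn.add_right a)
  l1 := by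
    rw [sum_shift (fun n => |w n|) Q (fun n n' hn => by simp only [h.per n n' hn]) a]
    exact h.l1
  mean := by rw [sum_shift w Q h.per a, h.mean]

lemma W.qm {Q : ℕ} {R m : ℝ} {w : ℕ → ℝ} (h : W Q R m w) : Q * |m| ≤ R := by
  have h1 : |∑ n ∈ Finset.range Q, w n| ≤ ∑ n ∈ Finset.range Q, |w n| :=
    Finset.abs_sum_le_sum_abs _ _
  rw [h.mean, abs_mul, abs_of_nonneg (Nat.cast_nonneg _)] at h1
  exact h1.trans h.l1

lemma W.abs_m {Q : ℕ} {R m : ℝ} {w : ℕ → ℝ} (h : W Q R m w) : |m| ≤ R := by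
  have h1 := h.qm
  have h2 : (1 : ℝ) ≤ Q := by exact_mod_cast h.pos
  nlinarith [abs_nonneg m]

lemma W.initial {Q : ℕ} {R m : ℝ} {w : ℕ → ℝ} (h : W Q R m w) (M : ℕ) :
    |∑ n ∈ Finset.range M, w n - M * m| ≤ 2 * R := by
  have hM : M = Q * (M / Q) + M % Q := (Nat.div_add_mod M Q).symm
  have hr : M % Q < Q := Nat.mod_lt _ h.pos
  generalize M / Q = k at hM
  generalize M % Q = r at hM hr
  subst hM
  rw [Finset.sum_range_add, sum_range_mul]
  have e1 : ∑ a ∈ Finset.range Q, ∑ c ∈ Finset.range k, w (a + c * Q) = k * (Q * m) := by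
    rw [← h.mean, Finset.mul_sum]
    refine Finset.sum_congr rfl fun a _ => ?_
    rw [Finset.sum_congr rfl (fun c _ => h.per (a + c * Q) a (by simp [Nat.ModEq]))]
    simp
  have e2 : ∑ a ∈ Finset.range r, w (Q * k + a) = ∑ a ∈ Finset.range r, w a :=
    Finset.sum_congr rfl fun a _ => h.per _ _ (by simp [Nat.ModEq])
  rw [e1, e2]
  have b1 : |∑ a ∈ Finset.range r, w a| ≤ R := by
    refine (Finset.abs_sum_le_sum_abs _ _).trans (le_trans ?_ h.l1)
    exact Finset.sum_le_sum_of_subset_of_nonneg (Finset.range_mono hr.le)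
      fun _ _ _ => abs_nonneg _
  have b2 : |(r : ℝ) * m| ≤ R := by
    rw [abs_mul, abs_of_nonneg (Nat.cast_nonneg _)]
    have : (r : ℝ) ≤ Q := by exact_mod_cast hr.le
    nlinarith [abs_nonneg m, h.qm]
  have e3 : (k : ℝ) * (Q * m) + ∑ a ∈ Finset.range r, w a - ((Q * k + r : ℕ) : ℝ) * m =
      ∑ a ∈ Finset.range r, w a - r * m := by
    push_cast; ring
  rw [e3]
  linarith [abs_sub (∑ a ∈ Finset.range r, w a) (r * m)]

lemma W.below {Q : ℕ} {R m : ℝ} {w : ℕ → ℝ} (h : W Q R m w) (N : ℕ) (hN : 0 < N) (t : ℝ)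
    (h0 : 0 ≤ t) (h1 : t ≤ 1) :
    |∑ n ∈ Finset.range N, w n * ind ((n : ℝ) / N < t) - N * t * m| ≤ 3 * R := by
  classical
  have hn' : (0 : ℝ) < N := Nat.cast_pos.2 hN
  have e : (Finset.range N).filter (fun a : ℕ => (a : ℝ) / N < t) =
      Finset.range ⌈(N : ℝ) * t⌉₊ := by
    ext a
    simp only [Finset.mem_filter, Finset.mem_range, Nat.lt_ceil, div_lt_iff₀ hn']
    constructor
    · rintro ⟨_, h⟩; linarith
    · intro h
      refine ⟨?_, by linarith⟩
      have : (a : ℝ) < N := by nlinarith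
      exact_mod_cast this
  have e2 : ∑ n ∈ Finset.range N, w n * ind ((n : ℝ) / N < t) =
      ∑ n ∈ Finset.range ⌈(N : ℝ) * t⌉₊, w n := by
    rw [← e, Finset.sum_filter]
    refine Finset.sum_congr rfl fun n _ => ?_
    by_cases hc : (n : ℝ) / N < t
    · rw [if_pos hc, ind_pos hc, mul_one]
    · rw [if_neg hc, ind_neg hc, mul_zero]
  rw [e2]
  have b1 := h.initial ⌈(N : ℝ) * t⌉₊
  have a1 := Nat.le_ceil ((N : ℝ) * t)
  have a3 := Nat.ceil_lt_add_one (mul_nonneg hn'.le h0)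
  have b2 : |((⌈(N : ℝ) * t⌉₊ : ℝ) - N * t) * m| ≤ R := by
    rw [abs_mul, abs_of_nonneg (by linarith)]
    nlinarith [abs_nonneg m, h.abs_m]
  have e3 : ∑ n ∈ Finset.range ⌈(N : ℝ) * t⌉₊, w n - N * t * m =
      (∑ n ∈ Finset.range ⌈(N : ℝ) * t⌉₊, w n - (⌈(N : ℝ) * t⌉₊ : ℝ) * m) +
        ((⌈(N : ℝ) * t⌉₊ : ℝ) - N * t) * m := by ring
  rw [e3]
  linarith [abs_add_le (∑ n ∈ Finset.range ⌈(N : ℝ) * t⌉₊, w n - (⌈(N : ℝ) * t⌉₊ : ℝ) * m)
    (((⌈(N : ℝ) * t⌉₊ : ℝ) - N * t) * m)]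

lemma W.base {Q : ℕ} {R m : ℝ} {w : ℕ → ℝ} (h : W Q R m w) (N : ℕ) (hN : 0 < N) (x y : ℝ)
    (hx : 0 ≤ x ∧ x ≤ 1) (hy : 0 ≤ y ∧ y ≤ 1) :
    |∑ n ∈ Finset.range N, w n * Disc.per x y ((n : ℝ) / N) - N * len x y * m| ≤ 8 * R := by
  have b1 := h.below N hN x hx.1 hx.2
  have b2 := h.below N hN y hy.1 hy.2
  have b3 := h.initial N
  have e : ∑ n ∈ Finset.range N, w n * Disc.per x y ((n : ℝ) / N) - N * len x y * m =
      (∑ n ∈ Finset.range N, w n * ind ((n : ℝ) / N < y) - N * y * m) -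
      (∑ n ∈ Finset.range N, w n * ind ((n : ℝ) / N < x) - N * x * m) +
      ind (y < x) * (∑ n ∈ Finset.range N, w n - N * m) := by
    unfold Disc.per len
    have : ∑ n ∈ Finset.range N, w n * (ind ((n : ℝ) / N < y) - ind ((n : ℝ) / N < x) + ind (y < x)) =
        ∑ n ∈ Finset.range N, w n * ind ((n : ℝ) / N < y) -
          ∑ n ∈ Finset.range N, w n * ind ((n : ℝ) / N < x) +
          ind (y < x) * ∑ n ∈ Finset.range N, w n := by
      rw [Finset.mul_sum, ← Finset.sum_sub_distrib, ← Finset.sum_add_distrib]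
      exact Finset.sum_congr rfl fun n _ => by ring
    rw [this]
    ring
  rw [e]
  have b4 : |ind (y < x) * (∑ n ∈ Finset.range N, w n - N * m)| ≤ 2 * R := by
    rw [abs_mul, abs_of_nonneg (ind_nonneg _)]
    nlinarith [ind_nonneg (y < x), ind_le_one (y < x),
      abs_nonneg (∑ n ∈ Finset.range N, w n - N * m)]
  have := abs_le.1 b1
  have := abs_le.1 b2
  have := abs_le.1 b4
  rw [abs_le]
  constructor <;> linarith

end Pool.Agent.H40Z.Per
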