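import Mathlib
import Pool.Agent.H40Z.PerWeights

set_option autoImplicit false
set_option maxHeartbeats 400000

namespace Pool.Agent.H40Z.Per

open Pool.Agent.H40Z.Disc

/-- reversal of the last `l` digits of `m` in base `b` -/
def X (b : ℕ) : ℕ → ℕ → ℕ
  | 0, _ => 0
  | l + 1, m => b * X b l m + m / b ^ l % b

lemma X_lt (b : ℕ) (hb : 0 < b) (l m : ℕ) : X b l m < b ^ l := by
  induction l with
  | zero => simp [X]
  | succ l ih =>
    have h1 : m / b ^ l % b < b := Nat.mod_lt _ hb
    simp only [X]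
    rw [pow_succ]
    nlinarith

lemma X_congr (b l m m' : ℕ) (h : m ≡ m' [MOD b ^ l]) : X b l m = X b l m' := by
  induction l with
  | zero => simp [X]
  | succ l ih =>
    simp only [X]
    rw [pow_succ] at h
    rw [ih (h.of_mul_right b), ← Nat.mod_mul_right_div_self, ← Nat.mod_mul_right_div_self, h]

lemma X_inj (b : ℕ) (hb : 0 < b) (l m m' : ℕ) (h : X b l m = X b l m') : m ≡ m' [MOD b ^ l] := by
  induction l with
  | zero => simp [Nat.modEq_one]
  | succ l ih =>
    simp only [X] at h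
    have h1 : m / b ^ l % b < b := Nat.mod_lt _ hb
    have h2 : m' / b ^ l % b < b := Nat.mod_lt _ hb
    have h3 : X b l m = X b l m' := by
      have e1 : (b * X b l m + m / b ^ l % b) / b = X b l m := by
        rw [Nat.mul_add_div hb, Nat.div_eq_of_lt h1, add_zero]
      have e2 : (b * X b l m' + m' / b ^ l % b) / b = X b l m' := by
        rw [Nat.mul_add_div hb, Nat.div_eq_of_lt h2, add_zero]
      rw [← e1, h, e2]
    have h4 : m / b ^ l % b = m' / b ^ l % b := by
      rw [h3] at h; omega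
    have h5 := ih h3
    unfold Nat.ModEq at h5 ⊢
    rw [Nat.mod_pow_succ, Nat.mod_pow_succ, h5, h4]

lemma count_X (b : ℕ) (hb : 0 < b) (l N a v : ℕ) (hN : N ≤ b ^ l) :
    ∑ n ∈ Finset.range N, ind (X b l (n + a) = v) ≤ 1 := by
  classical
  rw [← card_filter_eq]
  have : ((Finset.range N).filter (fun n => X b l (n + a) = v)).card ≤ 1 := by
    rw [Finset.card_le_one]
    intro n hn n' hn'
    rw [Finset.mem_filter, Finset.mem_range] at hn hn'
    have h1 := X_inj b hb l (n + a) (n' + a) (hn.2.trans hn'.2.symm)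
    have h2 : n ≡ n' [MOD b ^ l] := Nat.ModEq.add_right_cancel' a h1
    exact Nat.ModEq.eq_of_lt_of_lt h2 (by omega) (by omega)
  exact_mod_cast this

noncomputable def clamp (u : ℝ) : ℝ := max 0 (min 1 u)

lemma clamp_nonneg (u : ℝ) : 0 ≤ clamp u := le_max_left _ _
lemma clamp_le_one (u : ℝ) : clamp u ≤ 1 := max_le zero_le_one (min_le_left _ _)
lemma clamp_of_nonpos {u : ℝ} (h : u ≤ 0) : clamp u = 0 :=
  max_eq_left ((min_le_right _ _).trans h)
lemma clamp_of_one_le {u : ℝ} (h : 1 ≤ u) : clamp u = 1 := by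
  unfold clamp; rw [min_eq_left h, max_eq_right zero_le_one]
lemma clamp_of_mem {u : ℝ} (h0 : 0 ≤ u) (h1 : u ≤ 1) : clamp u = u := by
  unfold clamp; rw [min_eq_right h1, max_eq_right h0]
lemma clamp_mono {u v : ℝ} (h : u ≤ v) : clamp u ≤ clamp v :=
  max_le_max le_rfl (min_le_min le_rfl h)

lemma sum_clamp (m : ℕ) (u : ℝ) :
    ∑ c ∈ Finset.range m, clamp (u - c) = max 0 (min (m : ℝ) u) := by
  induction m with
  | zero => simp
  | succ m ih =>
    rw [Finset.sum_range_succ, ih]
    have hm : (0 : ℝ) ≤ m := Nat.cast_nonneg _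
    push_cast
    rcases le_total u m with h | h
    · rw [clamp_of_nonpos (by linarith), min_eq_right h, min_eq_right (by linarith), add_zero]
    · rw [min_eq_left h, max_eq_right hm]
      rcases le_total u (m + 1) with h2 | h2
      · rw [clamp_of_mem (by linarith) (by linarith), min_eq_right h2, max_eq_right (by linarith)]
        ring
      · rw [clamp_of_one_le (by linarith), min_eq_left h2, max_eq_right (by linarith)]

lemma sum_clamp_mul (b : ℕ) (hb : 0 < b) (u : ℝ) :
    ∑ c ∈ Finset.range b, clamp (b * u - c) = b * clamp u := by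
  rw [sum_clamp]
  have hb' : (0 : ℝ) < b := Nat.cast_pos.2 hb
  rcases le_total u 0 with h | h
  · rw [clamp_of_nonpos h, max_eq_left ((min_le_right _ _).trans (by nlinarith)), mul_zero]
  · rcases le_total u 1 with h1 | h1
    · rw [clamp_of_mem h h1, min_eq_right (by nlinarith), max_eq_right (by nlinarith)]
    · rw [clamp_of_one_le h1, min_eq_left (by nlinarith), max_eq_right hb'.le, mul_one]

/-- the fraction of the level `l` interval of `m` that lies left of `t` -/
noncomputable def g (b : ℕ) (t : ℝ) (l m : ℕ) : ℝ := clamp ((b : ℝ) ^ l * t - X b l m)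

lemma sum_mod_shift (f : ℕ → ℝ) (b k : ℕ) :
    ∑ c ∈ Finset.range b, f ((k + c) % b) = ∑ c ∈ Finset.range b, f c := by
  have h := sum_shift (fun n => f (n % b)) b (fun n n' hn => by unfold Nat.ModEq at hn; simp only [hn]) k
  simp only [add_comm k]
  rw [h]
  exact Finset.sum_congr rfl fun c hc => by rw [Nat.mod_eq_of_lt (Finset.mem_range.1 hc)]

lemma g_mart (b : ℕ) (hb : 0 < b) (t : ℝ) (l m : ℕ) :
    ∑ c ∈ Finset.range b, g b t (l + 1) (m + c * b ^ l) = b * g b t l m := by
  have hp : 0 < b ^ l := by positivity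
  have e : ∀ c, g b t (l + 1) (m + c * b ^ l) =
      (fun c' : ℕ => clamp (b * ((b : ℝ) ^ l * t - X b l m) - c')) ((m / b ^ l + c) % b) := by
    intro c
    unfold g
    simp only [X]
    rw [X_congr b l (m + c * b ^ l) m (by simp [Nat.ModEq]), Nat.add_mul_div_right _ _ hp]
    congr 1
    push_cast
    ring
  rw [Finset.sum_congr rfl fun c _ => e c]
  refine (sum_mod_shift (fun c' : ℕ => clamp (b * ((b : ℝ) ^ l * t - X b l m) - c')) b _).trans ?_
  exact sum_clamp_mul b hb _

lemma g_step (b : ℕ) (hb : 0 < b) (t : ℝ) (l m : ℕ) :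
    |g b t (l + 1) m - g b t l m| ≤ ind (X b l m = ⌊(b : ℝ) ^ l * t⌋₊) := by
  by_cases h : X b l m = ⌊(b : ℝ) ^ l * t⌋₊
  · rw [ind_pos h]
    have := clamp_nonneg ((b : ℝ) ^ (l + 1) * t - X b (l + 1) m)
    have := clamp_le_one ((b : ℝ) ^ (l + 1) * t - X b (l + 1) m)
    have := clamp_nonneg ((b : ℝ) ^ l * t - X b l m)
    have := clamp_le_one ((b : ℝ) ^ l * t - X b l m)
    unfold g
    rw [abs_le]
    constructor <;> linarith
  · rw [ind_neg h]
    have hb' : (1 : ℝ) ≤ b := by exact_mod_cast hb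
    have hd : m / b ^ l % b < b := Nat.mod_lt _ hb
    have hd1 : ((m / b ^ l % b : ℕ) : ℝ) + 1 ≤ b := by exact_mod_cast hd
    have hd0 : (0 : ℝ) ≤ ((m / b ^ l % b : ℕ) : ℝ) := Nat.cast_nonneg _
    have e : (b : ℝ) ^ (l + 1) * t - X b (l + 1) m =
        b * ((b : ℝ) ^ l * t - X b l m) - ((m / b ^ l % b : ℕ) : ℝ) := by
      simp only [X]
      rw [Nat.cast_add, Nat.cast_mul]
      ring
    unfold g
    rw [e]
    by_cases h1 : (b : ℝ) ^ l * t - X b l m ≤ 0
    · rw [clamp_of_nonpos h1, clamp_of_nonpos (by nlinarith)]; simp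
    · by_cases h2 : 1 ≤ (b : ℝ) ^ l * t - X b l m
      · rw [clamp_of_one_le h2, clamp_of_one_le (by nlinarith)]; simp
      · exfalso
        apply h
        have hX : (0 : ℝ) ≤ X b l m := Nat.cast_nonneg _
        symm
        rw [Nat.floor_eq_iff (by linarith)]
        constructor <;> linarith

lemma g_last (b : ℕ) (hb : 0 < b) (t : ℝ) (l m : ℕ) :
    |ind ((X b l m : ℝ) / (b : ℝ) ^ l < t) - g b t l m| ≤ ind (X b l m = ⌊(b : ℝ) ^ l * t⌋₊) := by
  have hp : (0 : ℝ) < (b : ℝ) ^ l := by positivity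
  by_cases h : X b l m = ⌊(b : ℝ) ^ l * t⌋₊
  · rw [ind_pos h]
    have := clamp_nonneg ((b : ℝ) ^ l * t - X b l m)
    have := clamp_le_one ((b : ℝ) ^ l * t - X b l m)
    have := ind_nonneg ((X b l m : ℝ) / (b : ℝ) ^ l < t)
    have := ind_le_one ((X b l m : ℝ) / (b : ℝ) ^ l < t)
    unfold g
    rw [abs_le]
    constructor <;> linarith
  · rw [ind_neg h]
    unfold g
    by_cases h1 : (b : ℝ) ^ l * t - X b l m ≤ 0
    · rw [clamp_of_nonpos h1, ind_neg]
      · simp
      · rw [div_lt_iff₀ hp]; linarith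
    · by_cases h2 : 1 ≤ (b : ℝ) ^ l * t - X b l m
      · rw [clamp_of_one_le h2, ind_pos]
        · simp
        · rw [div_lt_iff₀ hp]; linarith
      · exfalso
        apply h
        have hX : (0 : ℝ) ≤ X b l m := Nat.cast_nonneg _
        symm
        rw [Nat.floor_eq_iff (by linarith)]
        constructor <;> linarith

lemma g_l1 (b : ℕ) (hb : 0 < b) (t : ℝ) (l : ℕ) :
    ∑ m ∈ Finset.range (b ^ (l + 1)), |g b t (l + 1) m - g b t l m| ≤ b := by
  refine (Finset.sum_le_sum fun m _ => g_step b hb t l m).trans ?_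
  rw [pow_succ, sum_range_mul, Finset.sum_comm]
  have : ∑ c ∈ Finset.range b, ∑ a ∈ Finset.range (b ^ l),
      ind (X b l (a + c * b ^ l) = ⌊(b : ℝ) ^ l * t⌋₊) ≤ ∑ c ∈ Finset.range b, (1 : ℝ) :=
    Finset.sum_le_sum fun c _ => count_X b hb l _ _ _ le_rfl
  simpa using this

/-- the same for a periodic interval -/
noncomputable def G (b : ℕ) (x y : ℝ) (l m : ℕ) : ℝ := g b y l m - g b x l m + ind (y < x)

lemma G_congr (b : ℕ) (x y : ℝ) (l m m' : ℕ) (h : m ≡ m' [MOD b ^ l]) :
    G b x y l m = G b x y l m' := by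
  unfold G g
  rw [X_congr b l m m' h]

lemma G_mart (b : ℕ) (hb : 0 < b) (x y : ℝ) (l m : ℕ) :
    ∑ c ∈ Finset.range b, G b x y (l + 1) (m + c * b ^ l) = b * G b x y l m := by
  unfold G
  rw [Finset.sum_add_distrib, Finset.sum_sub_distrib, g_mart b hb, g_mart b hb]
  simp only [Finset.sum_const, Finset.card_range, nsmul_eq_mul]
  ring

lemma G_zero (b : ℕ) (x y : ℝ) (hx : 0 ≤ x ∧ x ≤ 1) (hy : 0 ≤ y ∧ y ≤ 1) (m : ℕ) :
    G b x y 0 m = len x y := by
  unfold G g len
  simp only [X, pow_zero, one_mul, Nat.cast_zero, sub_zero]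
  rw [clamp_of_mem hx.1 hx.2, clamp_of_mem hy.1 hy.2]

lemma G_abs (b : ℕ) (x y : ℝ) (l m : ℕ) : |G b x y l m| ≤ 1 := by
  unfold G g
  have hp : (0 : ℝ) ≤ (b : ℝ) ^ l := by positivity
  have := clamp_nonneg ((b : ℝ) ^ l * x - X b l m)
  have := clamp_le_one ((b : ℝ) ^ l * x - X b l m)
  have := clamp_nonneg ((b : ℝ) ^ l * y - X b l m)
  have := clamp_le_one ((b : ℝ) ^ l * y - X b l m)
  rw [abs_le]
  by_cases h : y < x
  · have h2 : clamp ((b : ℝ) ^ l * y - X b l m) ≤ clamp ((b : ℝ) ^ l * x - X b l m) :=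
      clamp_mono (by nlinarith)
    rw [ind_pos h]
    constructor <;> linarith
  · rw [ind_neg h]
    constructor <;> linarith

lemma W_diff (b : ℕ) (hb : 0 < b) (x y : ℝ) (l : ℕ) :
    W (b ^ (l + 1)) (2 * b) 0 (fun m => G b x y (l + 1) m - G b x y l m) where
  pos := by positivity
  rpos := by positivity
  per := fun n n' hn => by
    rw [G_congr b x y (l + 1) n n' hn,
      G_congr b x y l n n' (by rw [pow_succ] at hn; exact hn.of_mul_right b)]
  l1 := by
    have h1 := g_l1 b hb x l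
    have h2 := g_l1 b hb y l
    have : ∑ m ∈ Finset.range (b ^ (l + 1)), |G b x y (l + 1) m - G b x y l m| ≤
        ∑ m ∈ Finset.range (b ^ (l + 1)),
          (|g b x (l + 1) m - g b x l m| + |g b y (l + 1) m - g b y l m|) := by
      refine Finset.sum_le_sum fun m _ => ?_
      unfold G
      have e : g b y (l + 1) m - g b x (l + 1) m + ind (y < x) -
          (g b y l m - g b x l m + ind (y < x)) =
          (g b y (l + 1) m - g b y l m) - (g b x (l + 1) m - g b x l m) := by ring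
      rw [e]
      linarith [abs_sub (g b y (l + 1) m - g b y l m) (g b x (l + 1) m - g b x l m)]
    rw [Finset.sum_add_distrib] at this
    linarith
  mean := by
    rw [pow_succ, sum_range_mul, mul_zero]
    refine Finset.sum_eq_zero fun a _ => ?_
    rw [Finset.sum_sub_distrib, G_mart b hb,
      Finset.sum_congr rfl (fun c _ => G_congr b x y l (a + c * b ^ l) a (by simp [Nat.ModEq]))]
    simp

lemma G_last (b : ℕ) (hb : 0 < b) (x y : ℝ) (l N a : ℕ) (hN : N ≤ b ^ l) :
    ∑ n ∈ Finset.range N,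
      |Disc.per x y ((X b l (n + a) : ℝ) / (b : ℝ) ^ l) - G b x y l (n + a)| ≤ 2 := by
  have h1 := count_X b hb l N a ⌊(b : ℝ) ^ l * x⌋₊ hN
  have h2 := count_X b hb l N a ⌊(b : ℝ) ^ l * y⌋₊ hN
  have : ∑ n ∈ Finset.range N,
      |Disc.per x y ((X b l (n + a) : ℝ) / (b : ℝ) ^ l) - G b x y l (n + a)| ≤
      ∑ n ∈ Finset.range N, (ind (X b l (n + a) = ⌊(b : ℝ) ^ l * x⌋₊) +
        ind (X b l (n + a) = ⌊(b : ℝ) ^ l * y⌋₊)) := by
    refine Finset.sum_le_sum fun n _ => ?_
    have a1 := abs_le.1 (g_last b hb x l (n + a))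
    have a2 := abs_le.1 (g_last b hb y l (n + a))
    unfold Disc.per G
    rw [abs_le]
    constructor <;> linarith
  rw [Finset.sum_add_distrib] at this
  linarith

end Pool.Agent.H40Z.Per
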