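import Mathlib

set_option autoImplicit false
set_option maxHeartbeats 400000

namespace Pool.Agent.H40Z.Per

lemma taylor (p : ℕ) : ∃ C : ℝ, 0 ≤ C ∧ ∀ x y : ℝ,
    |(x + y) ^ (p + 2) - x ^ (p + 2) - ((p : ℝ) + 2) * x ^ (p + 1) * y| ≤
      C * y ^ 2 * (|x| + |y|) ^ p := by
  induction p with
  | zero =>
    refine ⟨1, zero_le_one, fun x y => ?_⟩
    have : (x + y) ^ (0 + 2) - x ^ (0 + 2) - (((0 : ℕ) : ℝ) + 2) * x ^ (0 + 1) * y = y ^ 2 := by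
      push_cast; ring
    rw [this, abs_of_nonneg (sq_nonneg y)]
    simp
  | succ p ih =>
    obtain ⟨C, hC, h⟩ := ih
    refine ⟨C + (p + 2), by positivity, fun x y => ?_⟩
    have e : (x + y) ^ (p + 1 + 2) - x ^ (p + 1 + 2) - (((p + 1 : ℕ) : ℝ) + 2) * x ^ (p + 1 + 1) * y =
        (x + y) * ((x + y) ^ (p + 2) - x ^ (p + 2) - ((p : ℝ) + 2) * x ^ (p + 1) * y) +
          ((p : ℝ) + 2) * x ^ (p + 1) * y ^ 2 := by
      push_cast; ring
    rw [e]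
    have s0 : 0 ≤ |x| + |y| := by positivity
    have a1 : |(x + y) * ((x + y) ^ (p + 2) - x ^ (p + 2) - ((p : ℝ) + 2) * x ^ (p + 1) * y)| ≤
        C * y ^ 2 * (|x| + |y|) ^ (p + 1) := by
      rw [abs_mul]
      calc _ ≤ (|x| + |y|) * (C * y ^ 2 * (|x| + |y|) ^ p) :=
            mul_le_mul (abs_add_le x y) (h x y) (abs_nonneg _) s0
        _ = _ := by ring
    have a2 : |((p : ℝ) + 2) * x ^ (p + 1) * y ^ 2| ≤
        ((p : ℝ) + 2) * y ^ 2 * (|x| + |y|) ^ (p + 1) := by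
      rw [abs_mul, abs_mul, abs_of_nonneg (sq_nonneg y), abs_of_nonneg (by positivity), abs_pow]
      have : |x| ^ (p + 1) ≤ (|x| + |y|) ^ (p + 1) :=
        pow_le_pow_left₀ (abs_nonneg _) (by linarith [abs_nonneg y]) _
      calc ((p : ℝ) + 2) * |x| ^ (p + 1) * y ^ 2 = ((p : ℝ) + 2) * y ^ 2 * |x| ^ (p + 1) := by ring
        _ ≤ _ := mul_le_mul_of_nonneg_left this (by positivity)
    calc _ ≤ _ := abs_add_le _ _
      _ ≤ _ := add_le_add a1 a2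
      _ = _ := by ring

lemma pow_mul_le (r : ℕ) (u v : ℝ) (hu : 0 ≤ u) (hv : 0 ≤ v) :
    u ^ r * v ≤ u ^ (r + 1) + v ^ (r + 1) := by
  rcases le_total u v with h | h
  · have : u ^ r ≤ v ^ r := pow_le_pow_left₀ hu h r
    have h2 : u ^ r * v ≤ v ^ (r + 1) := by
      rw [pow_succ]; exact mul_le_mul_of_nonneg_right this hv
    have : 0 ≤ u ^ (r + 1) := by positivity
    linarith
  · have h2 : u ^ r * v ≤ u ^ (r + 1) := by
      rw [pow_succ]; exact mul_le_mul_of_nonneg_left h (by positivity)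
    have : 0 ≤ v ^ (r + 1) := by positivity
    linarith

lemma pointwise (r : ℕ) : ∃ C : ℝ, 1 ≤ C ∧ ∀ x y : ℝ,
    ((x + y) ^ 2) ^ (r + 1) ≤ (x ^ 2) ^ (r + 1) + (((2 * r : ℕ) : ℝ) + 2) * x ^ (2 * r + 1) * y +
      C * ((x ^ 2) ^ r * y ^ 2 + (y ^ 2) ^ (r + 1)) := by
  obtain ⟨C, hC, h⟩ := taylor (2 * r)
  refine ⟨C * 4 ^ r + 1, by have : 0 ≤ C * 4 ^ r := by positivity
                            linarith, fun x y => ?_⟩
  have h1 := (abs_le.1 (h x y)).2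
  have h2 : (|x| + |y|) ^ (2 * r) ≤ 4 ^ r * ((x ^ 2) ^ r + (y ^ 2) ^ r) := by
    rw [pow_mul]
    have hx : 0 ≤ (x ^ 2) ^ r := by positivity
    have hy : 0 ≤ (y ^ 2) ^ r := by positivity
    have h4 : (0 : ℝ) ≤ 4 ^ r := by positivity
    rcases le_total |x| |y| with hxy | hxy
    · have : (|x| + |y|) ^ 2 ≤ 4 * y ^ 2 := by
        rw [← sq_abs y]; nlinarith [abs_nonneg x, abs_nonneg y]
      calc ((|x| + |y|) ^ 2) ^ r ≤ (4 * y ^ 2) ^ r := pow_le_pow_left₀ (by positivity) this r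
        _ = 4 ^ r * (y ^ 2) ^ r := mul_pow _ _ _
        _ ≤ _ := by nlinarith
    · have : (|x| + |y|) ^ 2 ≤ 4 * x ^ 2 := by
        rw [← sq_abs x]; nlinarith [abs_nonneg x, abs_nonneg y]
      calc ((|x| + |y|) ^ 2) ^ r ≤ (4 * x ^ 2) ^ r := pow_le_pow_left₀ (by positivity) this r
        _ = 4 ^ r * (x ^ 2) ^ r := mul_pow _ _ _
        _ ≤ _ := by nlinarith
  have h3 : C * y ^ 2 * (|x| + |y|) ^ (2 * r) ≤ C * y ^ 2 * (4 ^ r * ((x ^ 2) ^ r + (y ^ 2) ^ r)) :=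
    mul_le_mul_of_nonneg_left h2 (by positivity)
  have e1 : ((x + y) ^ 2) ^ (r + 1) = (x + y) ^ (2 * r + 2) := by
    rw [← pow_mul, Nat.mul_succ]
  have e2 : (x ^ 2) ^ (r + 1) = x ^ (2 * r + 2) := by ring
  have e3 : C * y ^ 2 * (4 ^ r * ((x ^ 2) ^ r + (y ^ 2) ^ r)) =
      C * 4 ^ r * ((x ^ 2) ^ r * y ^ 2 + (y ^ 2) ^ (r + 1)) := by ring
  have h5 : 0 ≤ (x ^ 2) ^ r * y ^ 2 + (y ^ 2) ^ (r + 1) := by positivity
  rw [e1, e2]
  nlinarith

/-- two-smoothness of even moments along one martingale step -/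
lemma rio (r : ℕ) : ∃ C : ℝ, 1 ≤ C ∧ ∀ {ι κ : Type} (I : Finset ι) (J : Finset κ) (X : ι → ℝ)
    (Y : ι → κ → ℝ) (A B : ℝ), 0 < A → 0 < B → (∀ i ∈ I, ∑ j ∈ J, Y i j = 0) →
    ∑ i ∈ I, (X i ^ 2) ^ (r + 1) ≤ I.card * A ^ (r + 1) →
    ∑ i ∈ I, ∑ j ∈ J, (Y i j ^ 2) ^ (r + 1) ≤ I.card * J.card * B ^ (r + 1) →
    ∑ i ∈ I, ∑ j ∈ J, ((X i + Y i j) ^ 2) ^ (r + 1) ≤ I.card * J.card * (A + C * B) ^ (r + 1) := by
  obtain ⟨C, hC, h⟩ := pointwise r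
  refine ⟨3 * C, by linarith, ?_⟩
  intro ι κ I J X Y A B hA hB h0 hX hY
  have hAp : 0 < A ^ (r + 1) := by positivity
  have hBp : 0 < B ^ (r + 1) := by positivity
  have mix : ∀ x y : ℝ, (x ^ 2) ^ r * y ^ 2 ≤
      B / A * (x ^ 2) ^ (r + 1) + A ^ r / B ^ r * (y ^ 2) ^ (r + 1) := by
    intro x y
    have := pow_mul_le r (x ^ 2 / A) (y ^ 2 / B) (by positivity) (by positivity)
    have h2 := mul_le_mul_of_nonneg_left this (show 0 ≤ A ^ r * B by positivity)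
    have e1 : A ^ r * B * ((x ^ 2 / A) ^ r * (y ^ 2 / B)) = (x ^ 2) ^ r * y ^ 2 := by
      rw [div_pow]; field_simp
    have e2 : A ^ r * B * ((x ^ 2 / A) ^ (r + 1) + (y ^ 2 / B) ^ (r + 1)) =
        B / A * (x ^ 2) ^ (r + 1) + A ^ r / B ^ r * (y ^ 2) ^ (r + 1) := by
      rw [div_pow, div_pow]; field_simp; ring
    rw [e1, e2] at h2
    exact h2
  have step : ∑ i ∈ I, ∑ j ∈ J, ((X i + Y i j) ^ 2) ^ (r + 1) ≤
      ∑ i ∈ I, ∑ j ∈ J, ((1 + C * (B / A)) * (X i ^ 2) ^ (r + 1) +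
        (((2 * r : ℕ) : ℝ) + 2) * X i ^ (2 * r + 1) * Y i j +
        C * (A ^ r / B ^ r + 1) * (Y i j ^ 2) ^ (r + 1)) := by
    refine Finset.sum_le_sum fun i _ => Finset.sum_le_sum fun j _ => ?_
    have h1 := h (X i) (Y i j)
    have h2 := mul_le_mul_of_nonneg_left (mix (X i) (Y i j)) (show 0 ≤ C by linarith)
    nlinarith
  have e : ∑ i ∈ I, ∑ j ∈ J, ((1 + C * (B / A)) * (X i ^ 2) ^ (r + 1) +
        (((2 * r : ℕ) : ℝ) + 2) * X i ^ (2 * r + 1) * Y i j +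
        C * (A ^ r / B ^ r + 1) * (Y i j ^ 2) ^ (r + 1)) =
      J.card * (1 + C * (B / A)) * ∑ i ∈ I, (X i ^ 2) ^ (r + 1) +
        C * (A ^ r / B ^ r + 1) * ∑ i ∈ I, ∑ j ∈ J, (Y i j ^ 2) ^ (r + 1) := by
    rw [Finset.mul_sum, Finset.mul_sum, ← Finset.sum_add_distrib]
    refine Finset.sum_congr rfl fun i hi => ?_
    rw [Finset.sum_add_distrib, Finset.sum_add_distrib, ← Finset.mul_sum, ← Finset.mul_sum,
      ← Finset.mul_sum, h0 i hi, Finset.sum_const, nsmul_eq_mul]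
    ring
  rw [e] at step
  have hJ : (0 : ℝ) ≤ J.card := Nat.cast_nonneg _
  have hI : (0 : ℝ) ≤ I.card := Nat.cast_nonneg _
  have hC0 : 0 ≤ C := by linarith
  have b1 := mul_le_mul_of_nonneg_left hX
    (show (0 : ℝ) ≤ J.card * (1 + C * (B / A)) by positivity)
  have b2 := mul_le_mul_of_nonneg_left hY
    (show (0 : ℝ) ≤ C * (A ^ r / B ^ r + 1) by positivity)
  have e1 : (J.card : ℝ) * (1 + C * (B / A)) * (I.card * A ^ (r + 1)) +
      C * (A ^ r / B ^ r + 1) * (I.card * J.card * B ^ (r + 1)) =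
      I.card * J.card * (A ^ (r + 1) + C * B * (2 * A ^ r + B ^ r)) := by
    field_simp
    ring
  have fin : A ^ (r + 1) + C * B * (2 * A ^ r + B ^ r) ≤ (A + 3 * C * B) ^ (r + 1) := by
    have hD : B ≤ 3 * C * B := by nlinarith
    have p1 : A ^ r ≤ (A + 3 * C * B) ^ r := pow_le_pow_left₀ hA.le (by linarith) r
    have p2 : B ^ r ≤ (A + 3 * C * B) ^ r := pow_le_pow_left₀ hB.le (by linarith) r
    have hCB : 0 ≤ C * B := by positivity
    rw [pow_succ (A + 3 * C * B), pow_succ A]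
    nlinarith
  calc _ ≤ _ := step
    _ ≤ _ := add_le_add b1 b2
    _ = _ := e1
    _ ≤ _ := mul_le_mul_of_nonneg_left fin (by positivity)

end Pool.Agent.H40Z.Per
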