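import Mathlib
import Pool.Agent.H40Z.PerDigits
import Pool.Agent.H40Z.PerRio

set_option autoImplicit false
set_option maxHeartbeats 400000

namespace Pool.Agent.H40Z.Per

open Pool.Agent.H40Z.Disc

lemma step (r : ℕ) : ∃ C : ℝ, 1 ≤ C ∧ ∀ {ω : Type} (Ω : Finset ω) (N : ℕ) (U : ω → ℕ → ℝ)
    (Λ Γ : ℝ) (b : ℕ) (x y : ℝ) (Qok : ℕ → Prop), 0 < b → 0 < Γ → (0 ≤ x ∧ x ≤ 1) →
    (0 ≤ y ∧ y ≤ 1) →
    (∀ Q R m w, Qok Q → W Q R m w →
      ∑ o ∈ Ω, ((∑ n ∈ Finset.range N, w n * U o n - Λ * m) ^ 2) ^ (r + 1) ≤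
        Ω.card * (Γ * R ^ 2) ^ (r + 1)) →
    (∀ Q l, Qok Q → Qok (Q * b ^ l)) →
    ∀ Q R m w, Qok Q → Nat.Coprime Q b → W Q R m w → ∀ l : ℕ,
      ∑ o ∈ Ω, ∑ a ∈ Finset.range (b ^ l),
        ((∑ n ∈ Finset.range N, w n * (U o n * G b x y l (n + a)) - Λ * len x y * m) ^ 2) ^ (r + 1) ≤
        Ω.card * ((b ^ l : ℕ) : ℝ) * (Γ * (1 + C * (2 * b) ^ 2 * l) * R ^ 2) ^ (r + 1) := by
  obtain ⟨C, hC, rio⟩ := rio r
  refine ⟨C, hC, ?_⟩
  intro ω Ω N U Λ Γ b x y Qok hb hΓ hx hy IH hQok Q R m w hQ co hw l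
  have hR := hw.rpos
  have hb' : (0 : ℝ) < b := Nat.cast_pos.2 hb
  induction l with
  | zero =>
    have hl : |len x y| ≤ 1 := by
      rw [abs_of_nonneg (len_nonneg hx.2 hy.1)]; exact len_le_one hx.1 hy.2
    have h1 := IH (Q * 1) (R * 1) (m * len x y) (fun n => w n * len x y) (by simpa using hQ)
      (hw.mul (W.const _ hl) (Nat.coprime_one_right Q))
    simp only [pow_zero, Finset.range_one, Finset.sum_singleton, Nat.cast_one, Nat.cast_zero,
      mul_zero, add_zero, mul_one, G_zero b x y hx hy] at h1 ⊢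
    refine le_trans (le_of_eq ?_) h1
    refine Finset.sum_congr rfl fun o _ => ?_
    congr 2
    rw [Finset.sum_congr rfl (fun n _ => show w n * (U o n * len x y) = w n * len x y * U o n by ring)]
    ring
  | succ l ih =>
    have hA : 0 < Γ * (1 + C * (2 * b) ^ 2 * l) * R ^ 2 := by positivity
    have hB : 0 < Γ * (R * (2 * b)) ^ 2 := by positivity
    have key := rio (Ω ×ˢ Finset.range (b ^ l)) (Finset.range b)
      (fun oa => ∑ n ∈ Finset.range N, w n * (U oa.1 n * G b x y l (n + oa.2)) - Λ * len x y * m)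
      (fun oa c => ∑ n ∈ Finset.range N, w n * (G b x y (l + 1) (n + (oa.2 + c * b ^ l)) -
        G b x y l (n + (oa.2 + c * b ^ l))) * U oa.1 n)
      _ _ hA hB ?_ ?_ ?_
    · rw [Finset.sum_product] at key
      rw [pow_succ b l]
      simp only [sum_range_mul]
      refine le_trans (le_of_eq ?_) (key.trans (le_of_eq ?_))
      · refine Finset.sum_congr rfl fun o _ => Finset.sum_congr rfl fun a _ =>
          Finset.sum_congr rfl fun c _ => ?_
        congr 2
        have : ∑ n ∈ Finset.range N, w n * (U o n * G b x y (l + 1) (n + (a + c * b ^ l))) =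
            ∑ n ∈ Finset.range N, w n * (U o n * G b x y l (n + a)) +
            ∑ n ∈ Finset.range N, w n * (G b x y (l + 1) (n + (a + c * b ^ l)) -
              G b x y l (n + (a + c * b ^ l))) * U o n := by
          rw [← Finset.sum_add_distrib]
          refine Finset.sum_congr rfl fun n _ => ?_
          rw [G_congr b x y l (n + (a + c * b ^ l)) (n + a)
            (by rw [← add_assoc]; simp [Nat.ModEq])]
          ring
        rw [this]
        ring
      · rw [Finset.card_product, Finset.card_range, Finset.card_range]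
        push_cast
        congr 1
        · ring
        · congr 1
          ring
    · rintro ⟨o, a⟩ _
      rw [Finset.sum_comm]
      refine Finset.sum_eq_zero fun n _ => ?_
      rw [← Finset.sum_mul, ← Finset.mul_sum, Finset.sum_sub_distrib]
      simp only [← add_assoc]
      rw [G_mart b hb, Finset.sum_congr rfl
        (fun c _ => G_congr b x y l (n + a + c * b ^ l) (n + a) (by simp [Nat.ModEq]))]
      simp
    · rw [Finset.sum_product, Finset.card_product, Finset.card_range, Nat.cast_mul]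
      exact ih
    · rw [Finset.sum_product, Finset.sum_comm]
      have one : ∀ a c : ℕ, ∑ o ∈ Ω, ((∑ n ∈ Finset.range N,
          w n * (G b x y (l + 1) (n + (a + c * b ^ l)) - G b x y l (n + (a + c * b ^ l))) * U o n) ^ 2)
            ^ (r + 1) ≤ Ω.card * (Γ * (R * (2 * b)) ^ 2) ^ (r + 1) := by
        intro a c
        have h1 := IH _ _ _ _ (hQok Q (l + 1) hQ)
          (hw.mul ((W_diff b hb x y l).shift (a + c * b ^ l)) (Nat.Coprime.pow_right _ co))
        simpa only [mul_zero, sub_zero] using h1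
      calc _ ≤ ∑ a ∈ Finset.range (b ^ l), ∑ c ∈ Finset.range b,
            (Ω.card * (Γ * (R * (2 * b)) ^ 2) ^ (r + 1) : ℝ) := by
            refine Finset.sum_le_sum fun a _ => ?_
            rw [Finset.sum_comm]
            exact Finset.sum_le_sum fun c _ => one a c
        _ = _ := by
            simp only [Finset.sum_const, Finset.card_range, nsmul_eq_mul, Finset.card_product]
            push_cast
            ring

lemma moments (r : ℕ) : ∃ C : ℝ, 1 ≤ C ∧ ∀ (b : ℕ → ℕ), (∀ j, 0 < b j) →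
    (∀ i j, i ≠ j → Nat.Coprime (b i) (b j)) → ∀ (K N : ℕ), 0 < N → ∀ s : ℕ,
    ∃ (ω : Type) (Ω : Finset ω) (A : ω → ℕ → ℕ), Ω.Nonempty ∧
      ∀ (x y : ℕ → ℝ) (x0 y0 : ℝ), (∀ j, 0 ≤ x j ∧ x j ≤ 1) → (∀ j, 0 ≤ y j ∧ y j ≤ 1) →
        (0 ≤ x0 ∧ x0 ≤ 1) → (0 ≤ y0 ∧ y0 ≤ 1) →
        ∀ Q R m w, (∀ j < s, Nat.Coprime Q (b j)) → W Q R m w →
          ∑ o ∈ Ω, ((∑ n ∈ Finset.range N, w n * (Disc.per x0 y0 ((n : ℝ) / N) *
              ∏ j ∈ Finset.range s, G (b j) (x j) (y j) K (n + A o j)) -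
            (N * len x0 y0 * ∏ j ∈ Finset.range s, len (x j) (y j)) * m) ^ 2) ^ (r + 1) ≤
          Ω.card * ((64 * ∏ j ∈ Finset.range s, (1 + C * (2 * (b j : ℝ)) ^ 2 * K)) * R ^ 2) ^ (r + 1) := by
  obtain ⟨C, hC, step⟩ := step r
  refine ⟨C, hC, ?_⟩
  intro b hb hco K N hN s
  induction s with
  | zero =>
    refine ⟨Unit, {()}, fun _ _ => 0, Finset.singleton_nonempty _, ?_⟩
    intro x y x0 y0 _ _ hx0 hy0 Q R m w _ hw
    simp only [Finset.sum_singleton, Finset.prod_range_zero, mul_one, Finset.card_singleton,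
      Nat.cast_one, one_mul]
    refine pow_le_pow_left₀ (sq_nonneg _) ?_ _
    have h1 := hw.base N hN x0 y0 hx0 hy0
    have h2 := pow_le_pow_left₀ (abs_nonneg _) h1 2
    rw [sq_abs] at h2
    linarith
  | succ s ih =>
    obtain ⟨ω, Ω, A, hne, ih⟩ := ih
    refine ⟨ω × ℕ, Ω ×ˢ Finset.range (b s ^ K), fun oa j => if j = s then oa.2 else A oa.1 j,
      hne.product ⟨0, Finset.mem_range.2 (pow_pos (hb s) K)⟩, ?_⟩
    intro x y x0 y0 hx hy hx0 hy0 Q R m w hQ hw
    have hC0 : 0 ≤ C := by linarith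
    have hΓ : 0 < 64 * ∏ j ∈ Finset.range s, (1 + C * (2 * (b j : ℝ)) ^ 2 * K) :=
      mul_pos (by norm_num) (Finset.prod_pos fun j _ => by positivity)
    have h1 := step Ω N (fun o n => Disc.per x0 y0 ((n : ℝ) / N) *
        ∏ j ∈ Finset.range s, G (b j) (x j) (y j) K (n + A o j))
      (N * len x0 y0 * ∏ j ∈ Finset.range s, len (x j) (y j)) _ (b s) (x s) (y s)
      (fun Q => ∀ j < s, Nat.Coprime Q (b j)) (hb s) hΓ (hx s) (hy s)
      (ih x y x0 y0 hx hy hx0 hy0)
      (fun Q l h j hj => Nat.Coprime.mul_left (h j hj)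
        (Nat.Coprime.pow_left _ (hco s j (by omega))))
      Q R m w (fun j hj => hQ j (by omega)) (hQ s (by omega)) hw K
    rw [Finset.sum_product, Finset.card_product, Finset.card_range, Nat.cast_mul]
    refine le_trans (le_of_eq ?_) (h1.trans (le_of_eq ?_))
    · refine Finset.sum_congr rfl fun o _ => Finset.sum_congr rfl fun a _ => ?_
      congr 3
      · refine Finset.sum_congr rfl fun n _ => ?_
        have e : ∏ j ∈ Finset.range s,
            G (b j) (x j) (y j) K (n + if j = s then a else A o j) =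
            ∏ j ∈ Finset.range s, G (b j) (x j) (y j) K (n + A o j) :=
          Finset.prod_congr rfl fun j hj => by rw [if_neg (Finset.mem_range.1 hj).ne]
        rw [Finset.prod_range_succ]
        dsimp only
        rw [if_pos rfl, e]
        ring
      · rw [Finset.prod_range_succ]
        ring
    · rw [Finset.prod_range_succ]
      congr 3
      ring

lemma abs_prod_sub (s : ℕ) (f h : ℕ → ℝ) (hf : ∀ j, |f j| ≤ 1) (hh : ∀ j, |h j| ≤ 1) :
    |∏ j ∈ Finset.range s, f j - ∏ j ∈ Finset.range s, h j| ≤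
      ∑ j ∈ Finset.range s, |f j - h j| := by
  induction s with
  | zero => simp
  | succ s ih =>
    rw [Finset.prod_range_succ, Finset.prod_range_succ, Finset.sum_range_succ]
    have p : |∏ j ∈ Finset.range s, h j| ≤ 1 := by
      rw [Finset.abs_prod]
      exact Finset.prod_le_one (fun _ _ => abs_nonneg _) fun j _ => hh j
    have e : (∏ j ∈ Finset.range s, f j) * f s - (∏ j ∈ Finset.range s, h j) * h s =
        (∏ j ∈ Finset.range s, f j - ∏ j ∈ Finset.range s, h j) * f s +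
          (∏ j ∈ Finset.range s, h j) * (f s - h s) := by ring
    rw [e]
    refine (abs_add_le _ _).trans (add_le_add ?_ ?_)
    · rw [abs_mul]
      nlinarith [abs_nonneg (∏ j ∈ Finset.range s, f j - ∏ j ∈ Finset.range s, h j), hf s,
        abs_nonneg (f s)]
    · rw [abs_mul]
      nlinarith [abs_nonneg (f s - h s), abs_nonneg (∏ j ∈ Finset.range s, h j)]

lemma rpow_bound (D Z A E p : ℝ) (r : ℕ) (hA : 0 < A) (hE : 0 ≤ E) (hp0 : 0 ≤ p)
    (hp : p ≤ ((2 * (r + 1) : ℕ) : ℝ)) (h : |D| ≤ |Z| + E) :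
    |D| ^ p ≤ (A + E) ^ p * (1 + (Z ^ 2) ^ (r + 1) / (A ^ 2) ^ (r + 1)) := by
  have hAE : 0 < A + E := by linarith
  have hq : 0 ≤ (Z ^ 2) ^ (r + 1) / (A ^ 2) ^ (r + 1) := by positivity
  have hAEp : 0 ≤ (A + E) ^ p := by positivity
  rcases le_total |Z| A with h1 | h1
  · have : |D| ^ p ≤ (A + E) ^ p := Real.rpow_le_rpow (abs_nonneg _) (by linarith) hp0
    nlinarith
  · have hv : 1 ≤ |Z| / A := by rw [le_div_iff₀ hA]; linarith
    have h2 : |D| ≤ (A + E) * (|Z| / A) := by
      have : (A + E) * (|Z| / A) = |Z| + E * (|Z| / A) := by field_simp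
      rw [this]
      nlinarith
    have h3 : |D| ^ p ≤ ((A + E) * (|Z| / A)) ^ p := Real.rpow_le_rpow (abs_nonneg _) h2 hp0
    rw [Real.mul_rpow hAE.le (by linarith)] at h3
    have h4 : (|Z| / A) ^ p ≤ (|Z| / A) ^ ((2 * (r + 1) : ℕ) : ℝ) :=
      Real.rpow_le_rpow_of_exponent_le hv hp
    rw [Real.rpow_natCast, pow_mul, div_pow, sq_abs, div_pow] at h4
    nlinarith

end Pool.Agent.H40Z.Per
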