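import Mathlib
import Pool.Agent.H40Z.PerMain

set_option autoImplicit false
set_option maxHeartbeats 400000

namespace Pool.Agent.H40Z.Per

open Pool.Agent.H40Z.Disc MeasureTheory

/-- the shifted Halton-Hammersley points -/
noncomputable def pts (s : ℕ) (b : ℕ → ℕ) (K N : ℕ) (a : ℕ → ℕ) (n : ℕ) : Fin (s + 1) → ℝ :=
  Fin.cons ((n : ℝ) / N) (fun j : Fin s => (X (b j) K (n + a j) : ℝ) / (b j : ℝ) ^ K)

/-- coordinates `1, ..., s` of a vector, as a sequence -/
noncomputable def ext (s : ℕ) (x : Fin (s + 1) → ℝ) (j : ℕ) : ℝ :=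
  if h : j < s then x (Fin.succ ⟨j, h⟩) else 0

lemma ext_fin (s : ℕ) (x : Fin (s + 1) → ℝ) (j : Fin s) : ext s x j = x j.succ := by
  unfold ext
  rw [dif_pos j.2]

lemma ext_mem (s : ℕ) (x : Fin (s + 1) → ℝ) (hx : ∀ j, 0 ≤ x j ∧ x j ≤ 1) (j : ℕ) :
    0 ≤ ext s x j ∧ ext s x j ≤ 1 := by
  unfold ext
  split_ifs
  · exact hx _
  · exact ⟨le_rfl, zero_le_one⟩

lemma pts_mem (s : ℕ) (b : ℕ → ℕ) (hb : ∀ j, 0 < b j) (K N : ℕ) (a : ℕ → ℕ) (n : ℕ) (hn : n < N)
    (j : Fin (s + 1)) : pts s b K N a n j ∈ Set.Ico (0 : ℝ) 1 := by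
  refine Fin.cases ?_ (fun j => ?_) j
  · simp only [pts, Fin.cons_zero]
    have h1 : (n : ℝ) < N := by exact_mod_cast hn
    have h2 : (0 : ℝ) ≤ n := Nat.cast_nonneg _
    exact ⟨by positivity, (div_lt_one (by linarith)).2 h1⟩
  · simp only [pts, Fin.cons_succ]
    have h1 : (X (b j) K (n + a j) : ℝ) < (b j : ℝ) ^ K := by
      exact_mod_cast X_lt (b j) (hb j) K (n + a j)
    have h2 : (0 : ℝ) ≤ X (b j) K (n + a j) := Nat.cast_nonneg _
    exact ⟨by positivity, (div_lt_one (by linarith)).2 h1⟩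

lemma pts_inj (s : ℕ) (b : ℕ → ℕ) (K N : ℕ) (hN : 0 < N) (a : ℕ → ℕ) :
    Function.Injective (pts s b K N a) := by
  intro n n' h
  have h0 := congrFun h 0
  simp only [pts, Fin.cons_zero] at h0
  have hN' : (N : ℝ) ≠ 0 := by exact_mod_cast hN.ne'
  rw [div_left_inj' hN'] at h0
  exact_mod_cast h0

lemma disc_pts (s : ℕ) (b : ℕ → ℕ) (hb : ∀ j, 0 < b j) (K N : ℕ) (hK : ∀ j, N ≤ b j ^ K)
    (a : ℕ → ℕ) (x y : Fin (s + 1) → ℝ) :
    |disc (Finset.range N) (pts s b K N a) N x y| ≤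
      |∑ n ∈ Finset.range N, 1 * (Disc.per (x 0) (y 0) ((n : ℝ) / N) *
              ∏ j ∈ Finset.range s, G (b j) (ext s x j) (ext s y j) K (n + a j)) -
            (N * len (x 0) (y 0) * ∏ j ∈ Finset.range s, len (ext s x j) (ext s y j)) * 1| +
        2 * s := by
  have e1 : ∀ n : ℕ, ∏ j, Disc.per (x j) (y j) (pts s b K N a n j) =
      Disc.per (x 0) (y 0) ((n : ℝ) / N) * ∏ j ∈ Finset.range s,
        Disc.per (ext s x j) (ext s y j) ((X (b j) K (n + a j) : ℝ) / (b j : ℝ) ^ K) := by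
    intro n
    rw [Fin.prod_univ_succ, Finset.prod_range]
    simp only [pts, Fin.cons_zero, Fin.cons_succ, ext_fin]
  have e2 : ∏ j, len (x j) (y j) =
      len (x 0) (y 0) * ∏ j ∈ Finset.range s, len (ext s x j) (ext s y j) := by
    rw [Fin.prod_univ_succ, Finset.prod_range]
    simp only [ext_fin]
  unfold disc
  simp only [e1, e2, one_mul, mul_one]
  have d : |∑ n ∈ Finset.range N, Disc.per (x 0) (y 0) ((n : ℝ) / N) * ∏ j ∈ Finset.range s,
        Disc.per (ext s x j) (ext s y j) ((X (b j) K (n + a j) : ℝ) / (b j : ℝ) ^ K) -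
      ∑ n ∈ Finset.range N, Disc.per (x 0) (y 0) ((n : ℝ) / N) *
        ∏ j ∈ Finset.range s, G (b j) (ext s x j) (ext s y j) K (n + a j)| ≤ 2 * s := by
    rw [← Finset.sum_sub_distrib]
    refine (Finset.abs_sum_le_sum_abs _ _).trans ?_
    calc _ ≤ ∑ n ∈ Finset.range N, ∑ j ∈ Finset.range s,
          |Disc.per (ext s x j) (ext s y j) ((X (b j) K (n + a j) : ℝ) / (b j : ℝ) ^ K) -
            G (b j) (ext s x j) (ext s y j) K (n + a j)| := by
          refine Finset.sum_le_sum fun n _ => ?_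
          rw [← mul_sub, abs_mul, abs_of_nonneg (per_nonneg _ _ _)]
          have h1 := abs_prod_sub s
            (fun j => Disc.per (ext s x j) (ext s y j) ((X (b j) K (n + a j) : ℝ) / (b j : ℝ) ^ K))
            (fun j => G (b j) (ext s x j) (ext s y j) K (n + a j))
            (fun j => by rw [abs_of_nonneg (per_nonneg _ _ _)]; exact per_le_one _ _ _)
            (fun j => G_abs _ _ _ _ _)
          refine le_trans ?_ h1
          exact mul_le_of_le_one_left (abs_nonneg _) (per_le_one _ _ _)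
      _ ≤ ∑ j ∈ Finset.range s, (2 : ℝ) := by
          rw [Finset.sum_comm]
          exact Finset.sum_le_sum fun j _ => G_last (b j) (hb j) _ _ K N (a j) (hK j)
      _ = 2 * s := by simp [mul_comm]
  have d' := abs_le.1 d
  rw [← mul_assoc]
  generalize (N : ℝ) * len (x 0) (y 0) * ∏ j ∈ Finset.range s, len (ext s x j) (ext s y j) = T
  have l1 := le_abs_self (∑ n ∈ Finset.range N, Disc.per (x 0) (y 0) ((n : ℝ) / N) *
        ∏ j ∈ Finset.range s, G (b j) (ext s x j) (ext s y j) K (n + a j) - T)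
  have l2 := neg_abs_le (∑ n ∈ Finset.range N, Disc.per (x 0) (y 0) ((n : ℝ) / N) *
        ∏ j ∈ Finset.range s, G (b j) (ext s x j) (ext s y j) K (n + a j) - T)
  rw [abs_le]
  constructor <;> linarith

lemma exists_le_avg {α : Type*} [MeasurableSpace α] (μ : Measure α) [SFinite μ] (S : Set α)
    (hS : MeasurableSet S) (hfin : μ S ≠ ⊤) (h1 : μ.real S = 1) {ω : Type} (Ω : Finset ω)
    (hne : Ω.Nonempty) (F : ω → α → α → ℝ)
    (hF : ∀ o, Measurable (fun q : α × α => F o q.1 q.2)) (M : ℝ)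
    (hM : ∀ o, ∀ x ∈ S, ∀ y ∈ S, |F o x y| ≤ M) (B : ℝ)
    (hB : ∀ x ∈ S, ∀ y ∈ S, ∑ o ∈ Ω, F o x y ≤ Ω.card * B) :
    ∃ o ∈ Ω, ∫ x in S, ∫ y in S, F o x y ∂μ ∂μ ≤ B := by
  have hout := fun o => outer_integrable μ S hS hfin (F o) (hF o) M (hM o)
  have hin := fun o => inner_integrable μ S hS hfin (F o) (hF o) M (hM o)
  apply Finset.exists_le_of_sum_le hne
  rw [← integral_finset_sum _ (fun o _ => hout o), Finset.sum_const, nsmul_eq_mul]
  calc ∫ x in S, ∑ o ∈ Ω, ∫ y in S, F o x y ∂μ ∂μ ≤ ∫ x in S, (Ω.card * B : ℝ) ∂μ := by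
        refine setIntegral_mono_on (integrable_finset_sum _ fun o _ => hout o)
          (integrableOn_const hfin) hS fun x hx => ?_
        rw [← integral_finset_sum _ (fun o _ => hin o x hx)]
        calc ∫ y in S, ∑ o ∈ Ω, F o x y ∂μ ≤ ∫ y in S, (Ω.card * B : ℝ) ∂μ :=
              setIntegral_mono_on (integrable_finset_sum _ fun o _ => hin o x hx)
                (integrableOn_const hfin) hS fun y hy => hB x hx y hy
          _ = _ := by rw [setIntegral_const, h1, one_smul]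
    _ = _ := by rw [setIntegral_const, h1, one_smul]

lemma log_bound (N : ℕ) (hN : 0 < N) : ((Nat.log 2 N + 1 : ℕ) : ℝ) ≤ 2 * (1 + Real.log N) := by
  have h1 : 2 ^ Nat.log 2 N ≤ N := Nat.pow_log_le_self 2 hN.ne'
  have h2 : (2 : ℝ) ^ Nat.log 2 N ≤ N := by exact_mod_cast h1
  have h3 := Real.log_le_log (by positivity) h2
  rw [Real.log_pow] at h3
  have h4 := Real.log_two_gt_d9
  have h5 : (0 : ℝ) ≤ Nat.log 2 N := Nat.cast_nonneg _
  push_cast
  nlinarith

theorem main (p : ℝ) (hp : 1 ≤ p) (s : ℕ) : ∃ C : ℝ, 0 < C ∧ ∀ N : ℕ, 0 < N →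
    ∃ P : ℕ → Fin (s + 1) → ℝ, Function.Injective P ∧
      (∀ n < N, ∀ j, P n j ∈ Set.Ico (0 : ℝ) 1) ∧
      (∫ x in Set.pi Set.univ (fun _ : Fin (s + 1) => Set.Ico (0 : ℝ) 1),
        ∫ y in Set.pi Set.univ (fun _ : Fin (s + 1) => Set.Ico (0 : ℝ) 1),
          |disc (Finset.range N) P N x y| ^ p) ^ (1 / p) ≤
        C * (1 + Real.log (N : ℝ)) ^ ((s : ℝ) / 2) := by
  obtain ⟨r, hr⟩ := exists_nat_ge p
  obtain ⟨C, hC, mom⟩ := moments r
  have hC0 : 0 ≤ C := by linarith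
  let b : ℕ → ℕ := Nat.nth Nat.Prime
  have hbp : ∀ j, (b j).Prime := fun j => Nat.prime_nth_prime j
  have hb : ∀ j, 0 < b j := fun j => (hbp j).pos
  have hco : ∀ i j, i ≠ j → Nat.Coprime (b i) (b j) := fun i j hij =>
    (Nat.coprime_primes (hbp i) (hbp j)).2
      (fun h => hij (Nat.nth_injective Nat.infinite_setOf_prime h))
  obtain ⟨c0, hc0def⟩ : ∃ c0 : ℝ,
      c0 = 64 * ∏ j ∈ Finset.range s, (2 * (1 + C * (2 * (b j : ℝ)) ^ 2)) := ⟨_, rfl⟩
  have hc0 : 0 < c0 := by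
    rw [hc0def]
    exact mul_pos (by norm_num) (Finset.prod_pos fun j _ => by positivity)
  have hsq : 0 < Real.sqrt c0 := Real.sqrt_pos.2 hc0
  refine ⟨2 * (Real.sqrt c0 + 2 * s), by positivity, ?_⟩
  intro N hN
  obtain ⟨ω, Ω, A, hne, mom⟩ := mom b hb hco (Nat.log 2 N + 1) N hN s
  have hK : ∀ j, N ≤ b j ^ (Nat.log 2 N + 1) := fun j =>
    (Nat.lt_pow_succ_log_self (by norm_num) N).le.trans (Nat.pow_le_pow_left (hbp j).two_le _)
  obtain ⟨L, hLdef⟩ : ∃ L : ℝ, L = 1 + Real.log N := ⟨_, rfl⟩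
  have hL : 1 ≤ L := by
    rw [hLdef]
    have := Real.log_natCast_nonneg N
    linarith
  have hKL : ((Nat.log 2 N + 1 : ℕ) : ℝ) ≤ 2 * L := by rw [hLdef]; exact log_bound N hN
  have hLs : 1 ≤ L ^ ((s : ℝ) / 2) := Real.one_le_rpow hL (by positivity)
  obtain ⟨A0, hA0def⟩ : ∃ A0 : ℝ, A0 = Real.sqrt c0 * L ^ ((s : ℝ) / 2) := ⟨_, rfl⟩
  have hA0 : 0 < A0 := by rw [hA0def]; positivity
  have hA2 : A0 ^ 2 = c0 * L ^ s := by
    rw [hA0def, mul_pow, Real.sq_sqrt hc0.le, ← Real.rpow_natCast (L ^ ((s : ℝ) / 2)) 2,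
      ← Real.rpow_mul (by linarith), ← Real.rpow_natCast L s]
    congr 2
    push_cast
    ring
  have hΓ : (64 * ∏ j ∈ Finset.range s,
      (1 + C * (2 * (b j : ℝ)) ^ 2 * ((Nat.log 2 N + 1 : ℕ) : ℝ))) * 1 ^ 2 ≤ A0 ^ 2 := by
    rw [hA2, hc0def, one_pow, mul_one, mul_assoc]
    refine mul_le_mul_of_nonneg_left ?_ (by norm_num)
    have : L ^ s = ∏ j ∈ Finset.range s, L := by simp
    rw [this, ← Finset.prod_mul_distrib]
    refine Finset.prod_le_prod (fun j _ => by positivity) fun j _ => ?_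
    have h1 : 0 ≤ C * (2 * (b j : ℝ)) ^ 2 := by positivity
    nlinarith [mul_le_mul_of_nonneg_left hKL h1]
  have hS : MeasurableSet (Set.pi Set.univ (fun _ : Fin (s + 1) => Set.Ico (0 : ℝ) 1)) :=
    MeasurableSet.univ_pi fun _ => measurableSet_Ico
  have hvol : volume (Set.pi Set.univ (fun _ : Fin (s + 1) => Set.Ico (0 : ℝ) 1)) = 1 := by
    rw [volume_pi_pi]; simp
  have mem : ∀ x ∈ Set.pi Set.univ (fun _ : Fin (s + 1) => Set.Ico (0 : ℝ) 1), ∀ j,
      0 ≤ x j ∧ x j ≤ 1 := fun x hx j => ⟨(hx j trivial).1, (hx j trivial).2.le⟩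
  have hp0 : 0 ≤ p := by linarith
  obtain ⟨o, _, ho⟩ := exists_le_avg volume _ hS (by rw [hvol]; simp)
    (by rw [Measure.real, hvol]; simp) Ω hne
    (fun o x y => |disc (Finset.range N) (pts s b (Nat.log 2 N + 1) N (A o)) N x y| ^ p)
    (fun o => (measurable_disc _ _ _).abs.pow_const p)
    ((((Finset.range N).card : ℝ) + N) ^ p)
    (fun o x hx y hy => by
      rw [abs_of_nonneg (Real.rpow_nonneg (abs_nonneg _) p)]
      exact Real.rpow_le_rpow (abs_nonneg _)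
        (abs_disc_le _ _ _ (Nat.cast_nonneg _) x y (mem x hx) (mem y hy)) hp0)
    (2 * (A0 + 2 * s) ^ p)
    (fun x hx y hy => by
      have h1 := mom (ext s x) (ext s y) (x 0) (y 0) (ext_mem s x (mem x hx))
        (ext_mem s y (mem y hy)) (mem x hx 0) (mem y hy 0) 1 1 1 (fun _ => 1)
        (fun j _ => Nat.coprime_one_left _) (W.const 1 (by simp))
      have h2 := h1.trans (mul_le_mul_of_nonneg_left
        (pow_le_pow_left₀ (mul_nonneg (mul_nonneg (by norm_num)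
          (Finset.prod_nonneg fun j _ => by positivity)) (by norm_num)) hΓ (r + 1))
        (Nat.cast_nonneg _))
      refine (Finset.sum_le_sum fun o _ => rpow_bound _ _ A0 (2 * s) p r hA0 (by positivity) hp0
        (by push_cast; linarith [(Nat.cast_nonneg r : (0 : ℝ) ≤ r)])
        (disc_pts s b hb _ N hK (A o) x y)).trans ?_
      rw [← Finset.mul_sum, Finset.sum_add_distrib, ← Finset.sum_div, Finset.sum_const,
        nsmul_eq_mul, mul_one]
      have h3 : 0 < (A0 ^ 2) ^ (r + 1) := by positivity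
      have h4 := (div_le_iff₀ h3).2 h2
      have h5 : 0 ≤ (A0 + 2 * s) ^ p := by positivity
      nlinarith)
  refine ⟨pts s b (Nat.log 2 N + 1) N (A o), pts_inj s b _ N hN _,
    fun n hn j => pts_mem s b hb _ N _ n hn j, ?_⟩
  have hI : 0 ≤ ∫ x in Set.pi Set.univ (fun _ : Fin (s + 1) => Set.Ico (0 : ℝ) 1),
        ∫ y in Set.pi Set.univ (fun _ : Fin (s + 1) => Set.Ico (0 : ℝ) 1),
          |disc (Finset.range N) (pts s b (Nat.log 2 N + 1) N (A o)) N x y| ^ p :=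
    integral_nonneg fun x => integral_nonneg fun y => Real.rpow_nonneg (abs_nonneg _) p
  have hAs : 0 ≤ A0 + 2 * s := by positivity
  have hp' : 0 ≤ 1 / p := by positivity
  refine (Real.rpow_le_rpow hI ho hp').trans ?_
  rw [Real.mul_rpow (by norm_num) (by positivity), ← Real.rpow_mul hAs,
    mul_one_div_cancel (by linarith), Real.rpow_one, ← hLdef]
  have h2 : (2 : ℝ) ^ (1 / p) ≤ 2 := by
    calc (2 : ℝ) ^ (1 / p) ≤ (2 : ℝ) ^ (1 : ℝ) :=
          Real.rpow_le_rpow_of_exponent_le (by norm_num) (by rw [div_le_one (by linarith)]; exact hp)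
      _ = 2 := Real.rpow_one 2
  have h3 : A0 + 2 * s ≤ (Real.sqrt c0 + 2 * s) * L ^ ((s : ℝ) / 2) := by
    rw [hA0def]
    have : (0 : ℝ) ≤ s := Nat.cast_nonneg _
    nlinarith
  calc (2 : ℝ) ^ (1 / p) * (A0 + 2 * s) ≤ 2 * ((Real.sqrt c0 + 2 * s) * L ^ ((s : ℝ) / 2)) :=
        mul_le_mul h2 h3 hAs (by norm_num)
    _ = _ := by ring

end Pool.Agent.H40Z.Per
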