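import Mathlib

set_option autoImplicit false
set_option maxHeartbeats 400000

namespace Pool.Agent.H40Z.PropB

open Finset

variable {F : ℕ → Type} [∀ n, NormedAddCommGroup (F n)]

theorem hasSum_one (y : lp F 1) : HasSum (fun j => ‖y j‖) ‖y‖ := by
  have h := lp.hasSum_norm (p := 1) (by simp) y
  simpa using h

theorem sum_le_one (y : lp F 1) (s : Finset ℕ) : ∑ j ∈ s, ‖y j‖ ≤ ‖y‖ := by
  have h := lp.sum_rpow_le_norm_rpow (p := 1) (by simp) y s
  simpa using h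

variable [∀ n, NormedSpace ℝ (F n)]

/-- In an `ℓ₁`-sum a flat direction at `y` is dominated by `y` coordinatewise. -/
theorem coord_le (y z : lp F 1) (h1 : ‖y + z‖ ≤ ‖y‖) (h2 : ‖y - z‖ ≤ ‖y‖) (j : ℕ) :
    ‖z j‖ ≤ ‖y j‖ := by
  have hs : HasSum (fun k => ‖(y + z) k‖ + ‖(y - z) k‖ - 2 * ‖y k‖)
      (‖y + z‖ + ‖y - z‖ - 2 * ‖y‖) :=
    ((hasSum_one (y + z)).add (hasSum_one (y - z))).sub ((hasSum_one y).mul_left 2)
  have hnn : ∀ k, 0 ≤ ‖(y + z) k‖ + ‖(y - z) k‖ - 2 * ‖y k‖ := by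
    intro k
    have e : (y + z) k + (y - z) k = (2 : ℝ) • y k := by
      simp only [lp.coeFn_add, lp.coeFn_sub, Pi.add_apply, Pi.sub_apply]
      rw [two_smul]; abel
    have h3 : ‖(y + z) k + (y - z) k‖ ≤ ‖(y + z) k‖ + ‖(y - z) k‖ := norm_add_le _ _
    rw [e, norm_smul, Real.norm_two] at h3
    linarith
  have hle := le_hasSum hs j (fun k _ => hnn k)
  have h4 : ‖(y + z) j - (y - z) j‖ ≤ ‖(y + z) j‖ + ‖(y - z) j‖ := norm_sub_le _ _
  have e : (y + z) j - (y - z) j = (2 : ℝ) • z j := by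
    simp only [lp.coeFn_add, lp.coeFn_sub, Pi.add_apply, Pi.sub_apply]
    rw [two_smul]; abel
  rw [e, norm_smul, Real.norm_two] at h4
  linarith

/-- The abstract obstruction: if every point of the unit ball of `X` has flat cubes of
arbitrarily large weight spanned by the vectors `e i`, and `T` keeps the `e i` large, then no
operator close to `T` attains its norm. -/
theorem core {X : Type} [NormedAddCommGroup X] [NormedSpace ℝ X] {I : Type}
    (e : I → X) (he : ∀ i, ‖e i‖ ≤ 1) (w : I → ℝ) (hw : ∀ i, 0 ≤ w i)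
    (φ : ∀ j, F j →L[ℝ] ℝ) (hφ : ∀ j, ‖φ j‖ ≤ 1)
    (T : X →L[ℝ] lp F 1) (hT : ∀ i, ∃ s : Finset ℕ, 1 ≤ ∑ j ∈ s, |φ j (T (e i) j)|)
    (hflat : ∀ x : X, ‖x‖ ≤ 1 → ∀ C : ℝ, ∃ B : Finset I, C < ∑ i ∈ B, w i ∧
      ∀ σ : I → ℝ, (∀ i, |σ i| ≤ 1) → ‖x + ∑ i ∈ B, (σ i * w i) • e i‖ ≤ 1) :
    ¬ Dense {S : X →L[ℝ] lp F 1 | ∃ x : X, ‖x‖ ≤ 1 ∧ ‖S x‖ = ‖S‖} := by
  classical
  intro hd
  obtain ⟨S, hS, x, hx, hxS⟩ := (Metric.dense_iff.1 hd) T (1 / 2) (by norm_num)
  rw [Metric.mem_ball, dist_eq_norm] at hS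
  set y := S x with hy
  obtain ⟨B, hB, hBσ⟩ := hflat x hx (2 * ‖y‖)
  choose s hs using hT
  have hφle : ∀ j (v : F j), |φ j v| ≤ ‖v‖ := by
    intro j v
    have := (φ j).le_opNorm v
    rw [Real.norm_eq_abs] at this
    exact this.trans (by nlinarith [hφ j, norm_nonneg v, norm_nonneg (φ j)])
  -- each coordinate
  have hj : ∀ j, ∑ i ∈ B, w i * |φ j (S (e i) j)| ≤ ‖y j‖ := by
    intro j
    let σ : I → ℝ := fun i => (SignType.sign (φ j (S (e i) j)) : ℝ)
    have hσ : ∀ i, |σ i| ≤ 1 := by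
      intro i
      simp only [σ]
      generalize SignType.sign (φ j (S (e i) j)) = t
      rcases t with _ | _ | _ <;> simp
    have hσ' : ∀ i, |(-σ) i| ≤ 1 := by
      intro i
      simpa using hσ i
    set h : X := ∑ i ∈ B, (σ i * w i) • e i with hh
    have hp : ‖x + h‖ ≤ 1 := hBσ σ hσ
    have hm : ‖x - h‖ ≤ 1 := by
      have := hBσ (-σ) hσ'
      have e2 : ∑ i ∈ B, ((-σ) i * w i) • e i = -h := by
        rw [hh, ← Finset.sum_neg_distrib]
        refine Finset.sum_congr rfl fun i _ => ?_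
        simp
      rwa [e2, ← sub_eq_add_neg] at this
    have b1 : ‖y + S h‖ ≤ ‖y‖ := by
      rw [hy, ← map_add, hxS]
      exact (S.le_opNorm _).trans (by nlinarith [norm_nonneg S])
    have b2 : ‖y - S h‖ ≤ ‖y‖ := by
      rw [hy, ← map_sub, hxS]
      exact (S.le_opNorm _).trans (by nlinarith [norm_nonneg S])
    have b3 := coord_le y (S h) b1 b2 j
    have b4 : φ j (S h j) = ∑ i ∈ B, w i * |φ j (S (e i) j)| := by
      have : φ j (S h j) = ((φ j).comp ((lp.evalCLM ℝ F 1 j).comp S)) h := rfl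
      rw [this, hh, map_sum]
      refine Finset.sum_congr rfl fun i _ => ?_
      rw [map_smul, smul_eq_mul, ← sign_mul_self]
      change σ i * w i * φ j (S (e i) j) = _
      simp only [σ]
      ring
    rw [← b4]
    exact (le_abs_self _).trans ((hφle j _).trans b3)
  set U := B.biUnion s with hU
  have hi : ∀ i ∈ B, 1 / 2 ≤ ∑ j ∈ U, |φ j (S (e i) j)| := by
    intro i hiB
    have c1 : 1 ≤ ∑ j ∈ U, |φ j (T (e i) j)| :=
      (hs i).trans (Finset.sum_le_sum_of_subset_of_nonneg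
        (Finset.subset_biUnion_of_mem s hiB) fun _ _ _ => abs_nonneg _)
    have c2 : ∑ j ∈ U, ‖((S - T) (e i)) j‖ ≤ 1 / 2 := by
      refine (sum_le_one _ U).trans (((S - T).le_opNorm _).trans ?_)
      nlinarith [he i, norm_nonneg (S - T), norm_nonneg (e i)]
    have c3 : ∑ j ∈ U, |φ j (T (e i) j)| ≤
        ∑ j ∈ U, (|φ j (S (e i) j)| + ‖((S - T) (e i)) j‖) := by
      refine Finset.sum_le_sum fun j _ => ?_
      have d1 : φ j (T (e i) j) = φ j (S (e i) j) - φ j (((S - T) (e i)) j) := by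
        rw [← map_sub]
        congr 1
        simp
      rw [d1]
      exact (abs_sub _ _).trans (by linarith [hφle j (((S - T) (e i)) j)])
    rw [Finset.sum_add_distrib] at c3
    linarith
  have f1 : ∑ j ∈ U, ∑ i ∈ B, w i * |φ j (S (e i) j)| ≤ ‖y‖ :=
    (Finset.sum_le_sum fun j _ => hj j).trans (sum_le_one y U)
  rw [Finset.sum_comm] at f1
  have f2 : ∑ i ∈ B, w i * (1 / 2) ≤ ∑ i ∈ B, ∑ j ∈ U, w i * |φ j (S (e i) j)| := by
    refine Finset.sum_le_sum fun i hiB => ?_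
    rw [← Finset.mul_sum]
    exact mul_le_mul_of_nonneg_left (hi i hiB) (hw i)
  rw [← Finset.sum_mul] at f2
  linarith

end Pool.Agent.H40Z.PropB
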