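import Mathlib

set_option autoImplicit false
set_option maxHeartbeats 400000

namespace Pool.Agent.H40Z.PropB

open Finset
open scoped ENNReal

/-- Finite sets of indices together with coefficients of modulus at most one. -/
def JJ (I : Type) : Type := Finset I × {σ : I → ℝ // ∀ i, |σ i| ≤ 1}

/-- The ambient space of bounded functions on `JJ I`. -/
abbrev VV (I : Type) : Type := lp (fun _ : JJ I => ℝ) ∞

/-- The index `({i}, 1)`. -/
def pt {I : Type} (i : I) : JJ I := ({i}, ⟨fun _ => 1, by simp⟩)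

/-- The `i`-th coordinate of an element of the ambient space. -/
def xi {I : Type} (w : I → ℝ) (x : VV I) (i : I) : ℝ := (1 + w i) * x (pt i)

theorem abs_apply_le {I : Type} (x : VV I) (p : JJ I) : |x p| ≤ ‖x‖ := by
  have := lp.norm_apply_le_norm (p := ∞) (by simp) x p
  simpa using this

theorem cont_apply {I : Type} (p : JJ I) : Continuous fun x : VV I => x p :=
  (lp.evalCLM ℝ (fun _ : JJ I => ℝ) ∞ p).continuous

/-- The sequence space, seen inside the ambient space. -/
def Xs {I : Type} (w : I → ℝ) : Submodule ℝ (VV I) where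
  carrier := {x | (∀ p : JJ I, (1 + ∑ i ∈ p.1, w i) * x p = ∑ i ∈ p.1, p.2.1 i * xi w x i) ∧
    ∀ η : ℝ, 0 < η → ∃ A0 : Finset I, ∀ p : JJ I, (∀ i ∈ p.1, i ∉ A0) → |x p| ≤ η}
  zero_mem' := by
    refine ⟨fun p => ?_, fun η hη => ⟨∅, fun p _ => ?_⟩⟩
    · simp [xi]
    · simpa using hη.le
  add_mem' := by
    classical
    rintro x y ⟨hx1, hx2⟩ ⟨hy1, hy2⟩
    refine ⟨fun p => ?_, fun η hη => ?_⟩
    · have e1 : (x + y) p = x p + y p := rfl
      rw [e1, mul_add, hx1, hy1, ← Finset.sum_add_distrib]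
      refine Finset.sum_congr rfl fun i _ => ?_
      have e2 : (x + y) (pt i) = x (pt i) + y (pt i) := rfl
      simp only [xi, e2]
      ring
    · obtain ⟨A, hA⟩ := hx2 (η / 2) (by linarith)
      obtain ⟨B, hB⟩ := hy2 (η / 2) (by linarith)
      refine ⟨A ∪ B, fun p hp => ?_⟩
      have e1 : (x + y) p = x p + y p := rfl
      have a1 := hA p fun i hi h => hp i hi (Finset.mem_union_left _ h)
      have a2 := hB p fun i hi h => hp i hi (Finset.mem_union_right _ h)
      rw [e1]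
      exact (abs_add_le _ _).trans (by linarith)
  smul_mem' := by
    rintro c x ⟨hx1, hx2⟩
    refine ⟨fun p => ?_, fun η hη => ?_⟩
    · have e1 : (c • x) p = c * x p := rfl
      rw [e1, mul_left_comm, hx1, Finset.mul_sum]
      refine Finset.sum_congr rfl fun i _ => ?_
      have e2 : (c • x) (pt i) = c * x (pt i) := rfl
      simp only [xi, e2]
      ring
    · obtain ⟨A, hA⟩ := hx2 (η / (|c| + 1)) (by positivity)
      refine ⟨A, fun p hp => ?_⟩
      have e1 : (c • x) p = c * x p := rfl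
      have a1 := hA p hp
      rw [le_div_iff₀ (by positivity)] at a1
      rw [e1, abs_mul]
      nlinarith [abs_nonneg (x p), abs_nonneg c]

theorem isClosed_Xs {I : Type} (w : I → ℝ) : IsClosed (Xs w : Set (VV I)) := by
  refine isClosed_of_closure_subset fun x hx => ⟨fun p => ?_, fun η hη => ?_⟩
  · have hc : IsClosed {x : VV I | (1 + ∑ i ∈ p.1, w i) * x p = ∑ i ∈ p.1, p.2.1 i * xi w x i} := by
      refine isClosed_eq (continuous_const.mul (cont_apply p)) ?_
      refine continuous_finsetSum _ fun i _ => continuous_const.mul ?_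
      exact continuous_const.mul (cont_apply (pt i))
    exact hc.closure_subset_iff.2 (fun y hy => hy.1 p) hx
  · obtain ⟨y, hy, hxy⟩ := Metric.mem_closure_iff.1 hx (η / 2) (by linarith)
    obtain ⟨A, hA⟩ := hy.2 (η / 2) (by linarith)
    refine ⟨A, fun p hp => ?_⟩
    have a1 := hA p hp
    have a2 := abs_apply_le (x - y) p
    rw [dist_eq_norm] at hxy
    have e1 : x p = (x - y) p + y p := by
      have : (x - y) p = x p - y p := rfl
      rw [this]; ring
    rw [e1]
    exact (abs_add_le _ _).trans (by linarith)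

/-- The unit vectors. -/
noncomputable def ee {I : Type} [DecidableEq I] (w : I → ℝ) (hw : ∀ i, 0 ≤ w i) (i : I) : VV I :=
  ⟨fun p => if i ∈ p.1 then p.2.1 i / (1 + ∑ k ∈ p.1, w k) else 0, memℓp_infty ⟨1, by
    rintro _ ⟨p, rfl⟩
    have h0 : 0 ≤ ∑ k ∈ p.1, w k := Finset.sum_nonneg fun k _ => hw k
    dsimp only
    split_ifs
    · rw [Real.norm_eq_abs, abs_div, abs_of_pos (a := 1 + ∑ k ∈ p.1, w k) (by linarith),
        div_le_one (by linarith)]
      linarith [p.2.2 i]
    · simp⟩⟩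

theorem ee_apply {I : Type} [DecidableEq I] (w : I → ℝ) (hw : ∀ i, 0 ≤ w i) (i : I) (p : JJ I) :
    ee w hw i p = if i ∈ p.1 then p.2.1 i / (1 + ∑ k ∈ p.1, w k) else 0 := rfl

theorem xi_ee {I : Type} [DecidableEq I] (w : I → ℝ) (hw : ∀ i, 0 ≤ w i) (i k : I) :
    xi w (ee w hw i) k = if k = i then 1 else 0 := by
  rw [xi, ee_apply]
  have := hw k
  by_cases h : k = i
  · subst h
    simp only [pt, Finset.mem_singleton, if_true, Finset.sum_singleton]
    field_simp
  · have h' : ¬ i = k := fun e => h e.symm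
    simp [pt, h, h']

theorem ee_mem {I : Type} [DecidableEq I] (w : I → ℝ) (hw : ∀ i, 0 ≤ w i) (i : I) :
    ee w hw i ∈ Xs w := by
  refine ⟨fun p => ?_, fun η hη => ⟨{i}, fun p hp => ?_⟩⟩
  · have h0 : 0 ≤ ∑ k ∈ p.1, w k := Finset.sum_nonneg fun k _ => hw k
    simp only [xi_ee, ee_apply, mul_ite, mul_one, mul_zero, Finset.sum_ite_eq']
    split_ifs
    · field_simp
    · rfl
  · have : i ∉ p.1 := fun h => hp i h (Finset.mem_singleton_self i)
    rw [ee_apply, if_neg this]
    simpa using hη.le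

/-- The index attached to a finite set and the signs of the coordinates. -/
noncomputable def sg {I : Type} (a : I → ℝ) (A : Finset I) : JJ I :=
  (A, ⟨fun i => (SignType.sign (a i) : ℝ), fun i => by
    show |((SignType.sign (a i) : SignType) : ℝ)| ≤ 1
    generalize SignType.sign (a i) = t
    rcases t with _ | _ | _ <;> simp⟩)

theorem sum_abs_eq {I : Type} (w : I → ℝ) {x : VV I} (hx : x ∈ Xs w) (A : Finset I) :
    ∑ i ∈ A, |xi w x i| = (1 + ∑ i ∈ A, w i) * x (sg (xi w x) A) := by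
  have := hx.1 (sg (xi w x) A)
  change (1 + ∑ i ∈ A, w i) * x (sg (xi w x) A) =
    ∑ i ∈ A, (SignType.sign (xi w x i) : ℝ) * xi w x i at this
  rw [this]
  exact Finset.sum_congr rfl fun i _ => (sign_mul_self _).symm

/-- A Banach sequence space whose norm is `sup_A (∑_{A} |ξ_i|) / (1 + w(A))`, with the
corresponding little-o condition. -/
theorem exists_space (I : Type) [DecidableEq I] (w : I → ℝ) (hw : ∀ i, 0 ≤ w i) :
    ∃ (X : Type) (_ : NormedAddCommGroup X) (_ : NormedSpace ℝ X) (_ : CompleteSpace X)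
      (ξ : X →ₗ[ℝ] (I → ℝ)) (e : I → X),
      (∀ i k, ξ (e i) k = if k = i then 1 else 0) ∧
      (∀ x (A : Finset I), ∑ i ∈ A, |ξ x i| ≤ ‖x‖ * (1 + ∑ i ∈ A, w i)) ∧
      (∀ x (c : ℝ), 0 ≤ c → (∀ A : Finset I, ∑ i ∈ A, |ξ x i| ≤ c * (1 + ∑ i ∈ A, w i)) →
        ‖x‖ ≤ c) ∧
      (∀ x (η : ℝ), 0 < η → ∃ A0 : Finset I, ∀ A : Finset I, (∀ i ∈ A, i ∉ A0) →
        ∑ i ∈ A, |ξ x i| ≤ η * (1 + ∑ i ∈ A, w i)) := by
  have hc : CompleteSpace (Xs w) := (isClosed_Xs w).completeSpace_coe
  let ξ : Xs w →ₗ[ℝ] (I → ℝ) :=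
    { toFun := fun x i => xi w x.1 i
      map_add' := fun x y => by
        funext i
        have e2 : (x + y).1 (pt i) = x.1 (pt i) + y.1 (pt i) := rfl
        simp only [xi, e2, Pi.add_apply]
        ring
      map_smul' := fun c x => by
        funext i
        have e2 : (c • x).1 (pt i) = c * x.1 (pt i) := rfl
        simp only [xi, e2, Pi.smul_apply, RingHom.id_apply, smul_eq_mul]
        ring }
  have hξ : ∀ (x : Xs w) i, ξ x i = xi w x.1 i := fun _ _ => rfl
  refine ⟨Xs w, inferInstance, inferInstance, hc, ξ, fun i => ⟨ee w hw i, ee_mem w hw i⟩,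
    fun i k => xi_ee w hw i k, fun x A => ?_, fun x c hc0 h => ?_, fun x η hη => ?_⟩
  · have h0 : 0 ≤ ∑ k ∈ A, w k := Finset.sum_nonneg fun k _ => hw k
    simp only [hξ]
    rw [sum_abs_eq w x.2 A, mul_comm]
    refine mul_le_mul_of_nonneg_right ?_ (by linarith)
    exact (le_abs_self _).trans (abs_apply_le x.1 _)
  · change ‖x.1‖ ≤ c
    refine lp.norm_le_of_forall_le hc0 fun p => ?_
    have h0 : 0 ≤ ∑ k ∈ p.1, w k := Finset.sum_nonneg fun k _ => hw k
    have h1 := x.2.1 p
    have h2 := h p.1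
    simp only [hξ] at h2
    have h3 : |∑ i ∈ p.1, p.2.1 i * xi w x.1 i| ≤ ∑ i ∈ p.1, |xi w x.1 i| := by
      refine (Finset.abs_sum_le_sum_abs _ _).trans (Finset.sum_le_sum fun i _ => ?_)
      rw [abs_mul]
      nlinarith [p.2.2 i, abs_nonneg (xi w x.1 i), abs_nonneg (p.2.1 i)]
    rw [← h1, abs_mul, abs_of_pos (a := 1 + ∑ k ∈ p.1, w k) (by linarith)] at h3
    rw [Real.norm_eq_abs]
    have h4 : (1 + ∑ k ∈ p.1, w k) * |x.1 p| ≤ (1 + ∑ k ∈ p.1, w k) * c := by linarith
    exact le_of_mul_le_mul_left h4 (by linarith)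
  · obtain ⟨A0, hA0⟩ := x.2.2 η hη
    refine ⟨A0, fun A hA => ?_⟩
    have h0 : 0 ≤ ∑ k ∈ A, w k := Finset.sum_nonneg fun k _ => hw k
    simp only [hξ]
    rw [sum_abs_eq w x.2 A, mul_comm]
    refine mul_le_mul_of_nonneg_right ?_ (by linarith)
    exact (le_abs_self _).trans (hA0 (sg (xi w x.1) A) hA)

end Pool.Agent.H40Z.PropB
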