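import Mathlib
import Pool.Agent.H40Z.PropBCore
import Pool.Agent.H40Z.PropBSpace

set_option autoImplicit false
set_option maxHeartbeats 400000

namespace Pool.Agent.H40Z.PropB

open Finset

/-- Flat cubes of large weight at every point of the unit ball. -/
theorem flat {X : Type} [NormedAddCommGroup X] [NormedSpace ℝ X] {I : Type} [DecidableEq I]
    (w : I → ℝ) (hw : ∀ i, 0 ≤ w i) (htot : ∀ C : ℝ, ∃ A : Finset I, C < ∑ i ∈ A, w i)
    (ξ : X →ₗ[ℝ] (I → ℝ)) (e : I → X)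
    (h1 : ∀ i k, ξ (e i) k = if k = i then 1 else 0)
    (h2 : ∀ x (A : Finset I), ∑ i ∈ A, |ξ x i| ≤ ‖x‖ * (1 + ∑ i ∈ A, w i))
    (h3 : ∀ x (c : ℝ), 0 ≤ c → (∀ A : Finset I, ∑ i ∈ A, |ξ x i| ≤ c * (1 + ∑ i ∈ A, w i)) →
        ‖x‖ ≤ c)
    (h4 : ∀ x (η : ℝ), 0 < η → ∃ A0 : Finset I, ∀ A : Finset I, (∀ i ∈ A, i ∉ A0) →
        ∑ i ∈ A, |ξ x i| ≤ η * (1 + ∑ i ∈ A, w i))
    (x : X) (hx : ‖x‖ ≤ 1) (C : ℝ) :
    ∃ B : Finset I, C < ∑ i ∈ B, w i / 2 ∧
      ∀ σ : I → ℝ, (∀ i, |σ i| ≤ 1) → ‖x + ∑ i ∈ B, (σ i * (w i / 2)) • e i‖ ≤ 1 := by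
  obtain ⟨A0, hA0⟩ := h4 x (1 / 4) (by norm_num)
  obtain ⟨A, hA⟩ := htot (2 * C + 1 + ∑ i ∈ A0, w i)
  set B := A.filter (fun i => |ξ x i| ≤ w i / 2) with hB
  set A' := A.filter (fun i => ¬ |ξ x i| ≤ w i / 2 ∧ i ∉ A0) with hA'
  refine ⟨B, ?_, fun σ hσ => ?_⟩
  · have a1 := hA0 A' fun i hi => (Finset.mem_filter.1 hi).2.2
    have a2 : ∑ i ∈ A', w i / 2 ≤ ∑ i ∈ A', |ξ x i| :=
      Finset.sum_le_sum fun i hi => (not_le.1 (Finset.mem_filter.1 hi).2.1).le
    rw [← Finset.sum_div] at a2 ⊢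
    have a3 : A ⊆ (B ∪ A') ∪ A0 := by
      intro i hi
      by_cases c1 : |ξ x i| ≤ w i / 2
      · exact Finset.mem_union_left _ (Finset.mem_union_left _ (Finset.mem_filter.2 ⟨hi, c1⟩))
      · by_cases c2 : i ∈ A0
        · exact Finset.mem_union_right _ c2
        · exact Finset.mem_union_left _
            (Finset.mem_union_right _ (Finset.mem_filter.2 ⟨hi, c1, c2⟩))
    have a4 : ∑ i ∈ A, w i ≤ ∑ i ∈ (B ∪ A') ∪ A0, w i :=
      Finset.sum_le_sum_of_subset_of_nonneg a3 fun i _ _ => hw i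
    have a5 : ∀ P Q : Finset I, ∑ i ∈ P ∪ Q, w i ≤ ∑ i ∈ P, w i + ∑ i ∈ Q, w i := by
      intro P Q
      rw [← Finset.sum_union_inter]
      have : 0 ≤ ∑ i ∈ P ∩ Q, w i := Finset.sum_nonneg fun i _ => hw i
      linarith
    have a6 := a5 (B ∪ A') A0
    have a7 := a5 B A'
    linarith
  · refine h3 _ 1 zero_le_one fun D => ?_
    have b1 : ∀ k, ξ (x + ∑ i ∈ B, (σ i * (w i / 2)) • e i) k =
        ξ x k + if k ∈ B then σ k * (w k / 2) else 0 := by
      intro k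
      rw [map_add, map_sum, Pi.add_apply, Finset.sum_apply]
      congr 1
      simp only [map_smul, Pi.smul_apply, h1, smul_eq_mul, mul_ite, mul_one, mul_zero,
        Finset.sum_ite_eq]
    simp only [b1]
    rw [← Finset.sum_filter_add_sum_filter_not D (fun k => k ∈ B),
      ← Finset.sum_filter_add_sum_filter_not D (fun k => k ∈ B) w]
    have b2 : ∑ k ∈ D.filter (fun k => k ∈ B), |ξ x k + if k ∈ B then σ k * (w k / 2) else 0| ≤
        ∑ k ∈ D.filter (fun k => k ∈ B), w k := by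
      refine Finset.sum_le_sum fun k hk => ?_
      have hkB := (Finset.mem_filter.1 hk).2
      rw [if_pos hkB]
      have c1 := (Finset.mem_filter.1 hkB).2
      have c2 : |σ k * (w k / 2)| ≤ w k / 2 := by
        rw [abs_mul, abs_of_nonneg (a := w k / 2) (by linarith [hw k])]
        nlinarith [hσ k, hw k]
      exact (abs_add_le _ _).trans (by linarith)
    have b3 : ∑ k ∈ D.filter (fun k => ¬ k ∈ B),
        |ξ x k + if k ∈ B then σ k * (w k / 2) else 0| =
        ∑ k ∈ D.filter (fun k => ¬ k ∈ B), |ξ x k| := by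
      refine Finset.sum_congr rfl fun k hk => ?_
      rw [if_neg (Finset.mem_filter.1 hk).2, add_zero]
    have b4 := h2 x (D.filter (fun k => ¬ k ∈ B))
    have b5 : 0 ≤ ∑ k ∈ D.filter (fun k => ¬ k ∈ B), w k := Finset.sum_nonneg fun i _ => hw i
    rw [b3]
    nlinarith

/-- The sign attached to a Boolean value. -/
def sgn (b : Bool) : ℝ := if b then 1 else -1

theorem sgn_not (b : Bool) : sgn (!b) = - sgn b := by cases b <;> simp [sgn]

theorem sgn_mul_self (b : Bool) : sgn b * sgn b = 1 := by cases b <;> simp [sgn]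

theorem abs_sgn (b : Bool) : |sgn b| = 1 := by cases b <;> simp [sgn]

theorem sum_sgn_mul {ι : Type} [Fintype ι] [DecidableEq ι] (i j : ι) :
    ∑ ω : ι → Bool, sgn (ω i) * sgn (ω j) =
      if i = j then (Fintype.card (ι → Bool) : ℝ) else 0 := by
  split_ifs with h
  · subst h
    simp [sgn_mul_self]
  · have hinv : Function.Involutive (fun ω : ι → Bool => Function.update ω i (!ω i)) := by
      intro ω
      simp
    have h1 : ∑ ω : ι → Bool, sgn (Function.update ω i (!ω i) i) *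
        sgn (Function.update ω i (!ω i) j) = ∑ ω : ι → Bool, sgn (ω i) * sgn (ω j) :=
      Equiv.sum_comp (Function.Involutive.toPerm _ hinv)
        (fun ω : ι → Bool => sgn (ω i) * sgn (ω j))
    have h2 : ∑ ω : ι → Bool, sgn (Function.update ω i (!ω i) i) *
        sgn (Function.update ω i (!ω i) j) = - ∑ ω : ι → Bool, sgn (ω i) * sgn (ω j) := by
      rw [← Finset.sum_neg_distrib]
      refine Finset.sum_congr rfl fun ω _ => ?_
      have h' : j ≠ i := fun e => h e.symm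
      simp [Function.update_of_ne h', sgn_not]
    linarith

theorem rad_sq {ι : Type} [Fintype ι] [DecidableEq ι] (a : ι → ℝ) :
    ∑ ω : ι → Bool, (∑ i, a i * sgn (ω i)) ^ 2 = Fintype.card (ι → Bool) * ∑ i, a i ^ 2 := by
  have h1 : ∀ ω : ι → Bool, (∑ i, a i * sgn (ω i)) ^ 2 =
      ∑ i, ∑ j, a i * a j * (sgn (ω i) * sgn (ω j)) := by
    intro ω
    rw [sq, Finset.sum_mul_sum]
    refine Finset.sum_congr rfl fun i _ => Finset.sum_congr rfl fun j _ => by ring
  simp only [h1]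
  rw [Finset.sum_comm, Finset.mul_sum]
  refine Finset.sum_congr rfl fun i _ => ?_
  rw [Finset.sum_comm]
  simp only [← Finset.mul_sum, sum_sgn_mul, mul_ite, mul_zero, Finset.sum_ite_eq,
    Finset.mem_univ, if_true]
  ring

theorem rad_abs {ι : Type} [Fintype ι] [DecidableEq ι] (a : ι → ℝ) (t : ℝ) (ht : 0 ≤ t)
    (h : ∑ i, a i ^ 2 ≤ t ^ 2) :
    ∑ ω : ι → Bool, |∑ i, a i * sgn (ω i)| ≤ Fintype.card (ι → Bool) * t := by
  have h1 := sq_sum_le_card_mul_sum_sq (s := (Finset.univ : Finset (ι → Bool)))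
    (f := fun ω => |∑ i, a i * sgn (ω i)|)
  simp only [sq_abs] at h1
  rw [rad_sq, Finset.card_univ] at h1
  have hN : (0 : ℝ) ≤ Fintype.card (ι → Bool) := Nat.cast_nonneg _
  refine abs_le_of_sq_le_sq' ?_ (mul_nonneg hN ht) |>.2
  refine h1.trans ?_
  rw [mul_pow, sq (Fintype.card (ι → Bool) : ℝ), mul_assoc]
  exact mul_le_mul_of_nonneg_left (mul_le_mul_of_nonneg_left h hN) hN

end Pool.Agent.H40Z.PropB
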