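import Mathlib
import Pool.Agent.H40Z.PropBOp

set_option autoImplicit false
set_option maxHeartbeats 400000

namespace Pool.Agent.H40Z.PropB

open Finset

/-- Index set of the sequence space: blocks of size `4 ^ k`. -/
abbrev II : Type := Σ k : ℕ, Fin (4 ^ k)

/-- Sign patterns on the blocks. -/
abbrev OO : Type := Σ k : ℕ, (Fin (4 ^ k) → Bool)

/-- The weights, of total mass one on each block. -/
noncomputable def ww (i : II) : ℝ := (1 / 4) ^ i.1

theorem ww_nonneg (i : II) : 0 ≤ ww i := by unfold ww; positivity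

theorem ww_total (C : ℝ) : ∃ A : Finset II, C < ∑ i ∈ A, ww i := by
  obtain ⟨K, hK⟩ := exists_nat_gt C
  refine ⟨(Finset.range K).sigma fun _ => Finset.univ, ?_⟩
  rw [Finset.sum_sigma]
  have : ∀ k ∈ Finset.range K, ∑ b : Fin (4 ^ k), ww ⟨k, b⟩ = 1 := by
    intro k _
    simp only [ww, Finset.sum_const, Finset.card_univ, Fintype.card_fin, nsmul_eq_mul]
    push_cast
    rw [← mul_pow]
    norm_num
  rw [Finset.sum_congr rfl this]
  simpa using hK

/-- Normalised Rademacher sums on the blocks. -/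
noncomputable def cf (a : II → ℝ) (ω : OO) : ℝ :=
  (∑ i : Fin (4 ^ ω.1), a ⟨ω.1, i⟩ * sgn (ω.2 i)) / Fintype.card (Fin (4 ^ ω.1) → Bool)

theorem cf_add (a b : II → ℝ) (ω : OO) : cf (a + b) ω = cf a ω + cf b ω := by
  simp only [cf, Pi.add_apply, add_mul, Finset.sum_add_distrib, add_div]

theorem cf_smul (c : ℝ) (a : II → ℝ) (ω : OO) : cf (c • a) ω = c * cf a ω := by
  simp only [cf, Pi.smul_apply, smul_eq_mul, mul_assoc, ← Finset.mul_sum, mul_div_assoc]

theorem card_pos' (k : ℕ) : (0 : ℝ) < Fintype.card (Fin (4 ^ k) → Bool) := by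
  exact_mod_cast Fintype.card_pos

theorem block_l1 (a : II → ℝ) (k : ℕ) :
    ∑ ω : Fin (4 ^ k) → Bool, |cf a ⟨k, ω⟩| ≤ ∑ i : Fin (4 ^ k), |a ⟨k, i⟩| := by
  have hN := card_pos' k
  have h1 : ∀ ω : Fin (4 ^ k) → Bool, |cf a ⟨k, ω⟩| ≤
      (∑ i : Fin (4 ^ k), |a ⟨k, i⟩|) / Fintype.card (Fin (4 ^ k) → Bool) := by
    intro ω
    rw [cf, abs_div, abs_of_pos hN]
    refine div_le_div_of_nonneg_right ?_ hN.le
    refine (Finset.abs_sum_le_sum_abs _ _).trans (Finset.sum_le_sum fun i _ => ?_)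
    rw [abs_mul, abs_sgn, mul_one]
  refine (Finset.sum_le_sum fun ω _ => h1 ω).trans ?_
  rw [Finset.sum_const, Finset.card_univ, nsmul_eq_mul, mul_div_cancel₀ _ hN.ne']

theorem block_l2 (a : II → ℝ) (c : ℝ) (hc : 0 ≤ c) (ha : ∀ i, |a i| ≤ c * ww i) (k : ℕ) :
    ∑ ω : Fin (4 ^ k) → Bool, |cf a ⟨k, ω⟩| ≤ c * (1 / 2) ^ k := by
  have hN := card_pos' k
  have h1 : ∑ i : Fin (4 ^ k), a ⟨k, i⟩ ^ 2 ≤ (c * (1 / 2) ^ k) ^ 2 := by
    have h2 : ∀ i : Fin (4 ^ k), a ⟨k, i⟩ ^ 2 ≤ (c * (1 / 4) ^ k) ^ 2 := by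
      intro i
      rw [← sq_abs]
      exact pow_le_pow_left₀ (abs_nonneg _) (ha ⟨k, i⟩) 2
    refine (Finset.sum_le_sum fun i _ => h2 i).trans (le_of_eq ?_)
    rw [Finset.sum_const, Finset.card_univ, Fintype.card_fin, nsmul_eq_mul]
    push_cast
    have h3 : (4 : ℝ) ^ k * (1 / 4) ^ k = 1 := by rw [← mul_pow]; norm_num
    have h4 : ((1 / 2 : ℝ) ^ k) ^ 2 = (1 / 4) ^ k := by
      rw [← pow_mul, mul_comm, pow_mul]; norm_num
    rw [mul_pow, mul_pow, h4]
    linear_combination (c ^ 2 * (1 / 4) ^ k) * h3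
  have h5 := rad_abs (fun i : Fin (4 ^ k) => a ⟨k, i⟩) (c * (1 / 2) ^ k) (by positivity) h1
  have h6 : ∑ ω : Fin (4 ^ k) → Bool, |cf a ⟨k, ω⟩| =
      (∑ ω : Fin (4 ^ k) → Bool, |∑ i : Fin (4 ^ k), a ⟨k, i⟩ * sgn (ω i)|) /
        Fintype.card (Fin (4 ^ k) → Bool) := by
    rw [Finset.sum_div]
    refine Finset.sum_congr rfl fun ω _ => ?_
    rw [cf, abs_div, abs_of_pos hN]
  rw [h6, div_le_iff₀ hN, mul_comm]
  exact h5

theorem cf_bound (a : II → ℝ) (c : ℝ) (hc : 0 ≤ c)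
    (ha : ∀ A : Finset II, ∑ i ∈ A, |a i| ≤ c * (1 + ∑ i ∈ A, ww i)) (s : Finset OO) :
    ∑ ω ∈ s, |cf a ω| ≤ 6 * c := by
  classical
  let u : II → ℝ := fun i => if |a i| ≤ 2 * c * ww i then 0 else a i
  let v : II → ℝ := fun i => if |a i| ≤ 2 * c * ww i then a i else 0
  have huv : a = u + v := by
    funext i
    simp only [u, v, Pi.add_apply]
    split_ifs <;> simp
  have hv : ∀ i, |v i| ≤ 2 * c * ww i := by
    intro i
    simp only [v]
    split_ifs with h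
    · exact h
    · have := ww_nonneg i
      simp only [abs_zero]
      positivity
  have hu : ∀ A : Finset II, ∑ i ∈ A, |u i| ≤ 2 * c := by
    intro A
    have h1 : ∑ i ∈ A, |u i| = ∑ i ∈ A.filter (fun i => ¬ |a i| ≤ 2 * c * ww i), |a i| := by
      rw [Finset.sum_filter]
      refine Finset.sum_congr rfl fun i _ => ?_
      simp only [u]
      split_ifs <;> simp
    have h2 := ha (A.filter (fun i => ¬ |a i| ≤ 2 * c * ww i))
    have h3 : ∑ i ∈ A.filter (fun i => ¬ |a i| ≤ 2 * c * ww i), 2 * c * ww i ≤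
        ∑ i ∈ A.filter (fun i => ¬ |a i| ≤ 2 * c * ww i), |a i| :=
      Finset.sum_le_sum fun i hi => (not_le.1 (Finset.mem_filter.1 hi).2).le
    rw [← Finset.mul_sum] at h3
    rw [h1]
    nlinarith
  have hb : ∀ k : ℕ, ∑ ω : Fin (4 ^ k) → Bool, |cf a ⟨k, ω⟩| ≤
      ∑ i : Fin (4 ^ k), |u ⟨k, i⟩| + 2 * c * (1 / 2) ^ k := by
    intro k
    have h1 := block_l1 u k
    have h2 := block_l2 v (2 * c) (by positivity) hv k
    refine le_trans ?_ (add_le_add h1 h2)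
    rw [← Finset.sum_add_distrib]
    refine Finset.sum_le_sum fun ω _ => ?_
    rw [huv, cf_add]
    exact abs_add_le _ _
  set K := s.sup (fun ω => ω.1) + 1 with hK
  have hs : s ⊆ (Finset.range K).sigma fun _ => Finset.univ := by
    intro ω hω
    rw [Finset.mem_sigma, Finset.mem_range]
    exact ⟨Nat.lt_succ_of_le (Finset.le_sup (f := fun ω : OO => ω.1) hω), Finset.mem_univ _⟩
  refine (Finset.sum_le_sum_of_subset_of_nonneg hs fun _ _ _ => abs_nonneg _).trans ?_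
  rw [Finset.sum_sigma]
  refine (Finset.sum_le_sum fun k _ => hb k).trans ?_
  rw [Finset.sum_add_distrib, ← Finset.mul_sum]
  have h1 := hu ((Finset.range K).sigma fun _ => Finset.univ)
  rw [Finset.sum_sigma] at h1
  have h2 := sum_geometric_two_le K
  nlinarith

theorem cf_unit (i : II) (a : II → ℝ) (ha : ∀ k, a k = if k = i then 1 else 0) :
    ∑ ω : Fin (4 ^ i.1) → Bool, |cf a ⟨i.1, ω⟩| = 1 := by
  have hN := card_pos' i.1
  have h1 : ∀ ω : Fin (4 ^ i.1) → Bool, |cf a ⟨i.1, ω⟩| =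
      1 / Fintype.card (Fin (4 ^ i.1) → Bool) := by
    intro ω
    rw [cf, abs_div, abs_of_pos hN]
    congr 1
    rw [Finset.sum_eq_single i.2]
    · rw [ha, if_pos rfl, one_mul, abs_sgn]
    · intro b _ hb
      rw [ha, if_neg, zero_mul]
      intro h
      apply hb
      obtain ⟨k, i0⟩ := i
      simpa using h
    · intro h
      exact absurd (Finset.mem_univ _) h
  rw [Finset.sum_congr rfl fun ω _ => h1 ω, Finset.sum_const, Finset.card_univ, nsmul_eq_mul,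
    mul_one_div_cancel hN.ne']

instance : Infinite OO :=
  Infinite.of_injective (fun k : ℕ => (⟨k, fun _ => true⟩ : OO)) fun _ _ h => congrArg Sigma.fst h

theorem main (F : ℕ → Type) [∀ n, NormedAddCommGroup (F n)] [∀ n, NormedSpace ℝ (F n)]
    [∀ n, Nontrivial (F n)] :
    ∃ (X : Type) (_ : NormedAddCommGroup X) (_ : NormedSpace ℝ X) (_ : CompleteSpace X),
      ¬ Dense {T : X →L[ℝ] lp F 1 | ∃ x : X, ‖x‖ ≤ 1 ∧ ‖T x‖ = ‖T‖} := by
  classical
  obtain ⟨X, i1, i2, i3, ξ, e, h1, h2, h3, h4⟩ := exists_space II ww ww_nonneg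
  refine ⟨X, i1, i2, i3, ?_⟩
  obtain ⟨en⟩ : Nonempty (ℕ ≃ OO) := nonempty_equiv_of_countable
  have hf : ∀ j, ∃ f : F j, ‖f‖ = 1 := fun j => exists_norm_eq (F j) zero_le_one
  choose f hf using hf
  have hφ : ∀ j, ∃ g : F j →L[ℝ] ℝ, ‖g‖ ≤ 1 ∧ g (f j) = 1 := by
    intro j
    obtain ⟨g, hg1, hg2⟩ := exists_dual_vector'' ℝ (f j)
    exact ⟨g, hg1, by simpa [hf j] using hg2⟩
  choose φ hφ1 hφ2 using hφ
  have hb : ∀ (x : X) (s : Finset ℕ),
      ∑ j ∈ s, ‖cf (ξ x) (en j) • f j‖ ^ (1 : ENNReal).toReal ≤ 6 * ‖x‖ := by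
    intro x s
    have := cf_bound (ξ x) ‖x‖ (norm_nonneg x) (h2 x) (s.map en.toEmbedding)
    rw [Finset.sum_map] at this
    simpa [norm_smul, hf] using this
  let T0 : X →ₗ[ℝ] lp F 1 :=
    { toFun := fun x => ⟨fun j => cf (ξ x) (en j) • f j, memℓp_gen' (hb x)⟩
      map_add' := fun x y => by
        ext j
        change cf (ξ (x + y)) (en j) • f j = cf (ξ x) (en j) • f j + cf (ξ y) (en j) • f j
        rw [map_add, cf_add, add_smul]
      map_smul' := fun c x => by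
        ext j
        change cf (ξ (c • x)) (en j) • f j = c • cf (ξ x) (en j) • f j
        rw [map_smul, cf_smul, mul_smul] }
  have hT0 : ∀ x, ‖T0 x‖ ≤ 6 * ‖x‖ := by
    intro x
    refine lp.norm_le_of_forall_sum_le (p := 1) (by simp) (by positivity) fun s => ?_
    have := hb x s
    rw [ENNReal.toReal_one, Real.rpow_one]
    rw [ENNReal.toReal_one] at this
    exact this
  let T : X →L[ℝ] lp F 1 := T0.mkContinuous 6 hT0
  have hT : ∀ x j, T x j = cf (ξ x) (en j) • f j := fun _ _ => rfl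
  have he : ∀ i, ‖e i‖ ≤ 1 := by
    intro i
    refine h3 _ 1 zero_le_one fun A => ?_
    have a1 : 0 ≤ ∑ k ∈ A, ww k := Finset.sum_nonneg fun k _ => ww_nonneg k
    have a2 : ∑ k ∈ A, |ξ (e i) k| = ∑ k ∈ A, if k = i then (1 : ℝ) else 0 := by
      refine Finset.sum_congr rfl fun k _ => ?_
      rw [h1]
      split_ifs <;> simp
    rw [a2, Finset.sum_ite_eq']
    split_ifs <;> linarith
  refine core e he (fun i => ww i / 2) (fun i => by linarith [ww_nonneg i]) φ hφ1 T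
    (fun i => ?_) (flat ww ww_nonneg ww_total ξ e h1 h2 h3 h4)
  let g : (Fin (4 ^ i.1) → Bool) ↪ ℕ :=
    ⟨fun ω => en.symm ⟨i.1, ω⟩, fun a b h => by simpa using h⟩
  refine ⟨Finset.univ.map g, ?_⟩
  rw [Finset.sum_map, ← cf_unit i (ξ (e i)) (h1 i)]
  refine Finset.sum_le_sum fun ω _ => le_of_eq ?_
  rw [hT, map_smul, hφ2, smul_eq_mul, mul_one]
  simp [g]

end Pool.Agent.H40Z.PropB
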