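import Pool.Agent.H177Z.MP.St

/-! Selling reduction of ternary forms: basic algebra. -/

set_option autoImplicit false
set_option maxHeartbeats 400000

namespace Pool.Agent.H40Z.Sell

open Matrix Pool.Agent.H177Z.MP
open scoped MatrixGroups Topology

/-- Integer matrices. -/
abbrev MZ : Type := Matrix (Fin 3) (Fin 3) ℤ

/-- The value of a form at an integer vector. -/
def ev (x : Fin 3 → ℤ) : Vx →ₗ[ℝ] ℝ where
  toFun Q := ∑ i, ∑ j, (x i : ℝ) * Q i j * (x j : ℝ)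
  map_add' Q Q' := by simp only [Fin.sum_univ_three, Matrix.add_apply]; ring
  map_smul' c Q := by
    simp only [Fin.sum_univ_three, Matrix.smul_apply, smul_eq_mul, RingHom.id_apply]; ring

theorem ev_apply (x : Fin 3 → ℤ) (Q : Vx) :
    ev x Q = ∑ i, ∑ j, (x i : ℝ) * Q i j * (x j : ℝ) := rfl

/-- The action `Q ↦ u Q uᵀ`. -/
def act (u : MZ) : Vx →ₗ[ℝ] Vx where
  toFun Q := Matrix.of fun i j => ∑ a, ∑ b, (u i a : ℝ) * Q a b * (u j b : ℝ)
  map_add' Q Q' := by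
    ext i j
    simp only [Fin.sum_univ_three, Matrix.add_apply, Matrix.of_apply]; ring
  map_smul' c Q := by
    ext i j
    simp only [Fin.sum_univ_three, Matrix.smul_apply, smul_eq_mul, RingHom.id_apply,
      Matrix.of_apply]; ring

theorem act_apply (u : MZ) (Q : Vx) (i j : Fin 3) :
    act u Q i j = ∑ a, ∑ b, (u i a : ℝ) * Q a b * (u j b : ℝ) := rfl

theorem act_mul (u v : MZ) (Q : Vx) : act (u * v) Q = act u (act v Q) := by
  ext i j
  simp only [act_apply, Matrix.mul_apply, Fin.sum_univ_three]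
  push_cast
  ring

theorem act_one (Q : Vx) : act 1 Q = Q := by
  ext i j
  fin_cases i <;> fin_cases j <;> simp [act_apply, Fin.sum_univ_three, Matrix.one_apply]

theorem act_q (u : MZ) (v : Fin 3 → ℤ) : act u (q v) = q (u *ᵥ v) := by
  ext i j
  simp only [act_apply, q, Matrix.of_apply, Matrix.mulVec, dotProduct, Fin.sum_univ_three]
  push_cast
  ring

theorem ev_act (u : MZ) (Q : Vx) (x : Fin 3 → ℤ) : ev x (act u Q) = ev (uᵀ *ᵥ x) Q := by
  simp only [ev_apply, act_apply, Matrix.mulVec, dotProduct, Fin.sum_univ_three,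
    Matrix.transpose_apply]
  push_cast
  ring

theorem ev_q (x v : Fin 3 → ℤ) : ev x (q v) = (((v ⬝ᵥ x) ^ 2 : ℤ) : ℝ) := by
  simp only [ev_apply, q, Matrix.of_apply, dotProduct, Fin.sum_univ_three]
  push_cast
  ring

theorem dot_mulVec (h : MZ) (r y : Fin 3 → ℤ) : (h *ᵥ r) ⬝ᵥ y = r ⬝ᵥ (hᵀ *ᵥ y) := by
  simp only [Matrix.mulVec, dotProduct, Fin.sum_univ_three, Matrix.transpose_apply]
  ring

theorem q_neg (v : Fin 3 → ℤ) : q (-v) = q v := by
  ext i j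
  simp [q]

/-- Symmetry. -/
def Sy (Q : Vx) : Prop := ∀ i j, Q i j = Q j i

theorem sy_act (u : MZ) {Q : Vx} (h : Sy Q) : Sy (act u Q) := by
  intro i j
  simp only [act_apply, Fin.sum_univ_three]
  rw [h 1 0, h 2 0, h 2 1]
  ring

theorem sy_q (v : Fin 3 → ℤ) : Sy (q v) := by
  intro i j
  simp [q, mul_comm]

theorem sy_of_posDef {Q : Vx} (h : Q.PosDef) : Sy Q := by
  intro i j
  have := h.isHermitian.apply i j
  simpa using this.symm

/-- The Selling parameters. -/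
def Pm (r : Fin 6) : Vx →ₗ[ℝ] ℝ where
  toFun Q := ![Q 0 0 + Q 0 1 + Q 0 2, Q 0 1 + Q 1 1 + Q 1 2, Q 0 2 + Q 1 2 + Q 2 2,
    -Q 0 1, -Q 0 2, -Q 1 2] r
  map_add' Q Q' := by fin_cases r <;> simp <;> ring
  map_smul' c Q := by fin_cases r <;> simp <;> ring

theorem Pm_apply (r : Fin 6) (Q : Vx) : Pm r Q =
    ![Q 0 0 + Q 0 1 + Q 0 2, Q 0 1 + Q 1 1 + Q 1 2, Q 0 2 + Q 1 2 + Q 2 2,
      -Q 0 1, -Q 0 2, -Q 1 2] r := rfl

theorem sell {Q : Vx} (h : Sy Q) : Q = ∑ r, Pm r Q • q (root r) := by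
  ext i j
  have h1 := h 1 0
  have h2 := h 2 0
  have h3 := h 2 1
  fin_cases i <;> fin_cases j <;>
    simp [Matrix.sum_apply, Fin.sum_univ_six, Pm_apply, q, root] <;> linarith

theorem Pm_root (r r' : Fin 6) : Pm r (q (root r')) = if r = r' then 1 else 0 := by
  fin_cases r <;> fin_cases r' <;> simp [Pm_apply, q, root]

/-- The reduction of a vector modulo two. -/
def md (x : Fin 3 → ℤ) : Fin 3 → ℤ := fun i => x i % 2

theorem md_cases (x : Fin 3 → ℤ) (i : Fin 3) : md x i = 0 ∨ md x i = 1 :=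
  Int.emod_two_eq_zero_or_one _

theorem root_dot_sq {z : Fin 3 → ℤ} (hz : ∀ i, z i = 0 ∨ z i = 1) (r : Fin 6) :
    (root r ⬝ᵥ z) ^ 2 ≤ 1 := by
  rcases hz 0 with h0 | h0 <;> rcases hz 1 with h1 | h1 <;> rcases hz 2 with h2 | h2 <;>
    fin_cases r <;> simp [root, dotProduct, Fin.sum_univ_three, h0, h1, h2]

theorem sq_le_of_even {a b : ℤ} (ha : a ^ 2 ≤ 1) (h : 2 ∣ a - b) : a ^ 2 ≤ b ^ 2 := by
  have h1 : -1 ≤ a := by nlinarith
  have h2 : a ≤ 1 := by nlinarith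
  by_cases h0 : a = 0
  · rw [h0]; positivity
  · have hb : b ≠ 0 := by omega
    have : 1 ≤ b ^ 2 := by
      rcases lt_or_gt_of_ne hb with h3 | h3 <;> nlinarith
    omega

/-- Congruence modulo two. -/
def Cg (x y : Fin 3 → ℤ) : Prop := ∀ i, 2 ∣ x i - y i

theorem Cg.symm {x y : Fin 3 → ℤ} (h : Cg x y) : Cg y x := fun i => by
  have := h i
  omega

theorem cg_md (x : Fin 3 → ℤ) : Cg x (md x) := fun i => by
  simp only [md]
  omega

theorem Cg.dot {x y : Fin 3 → ℤ} (h : Cg x y) (l : Fin 3 → ℤ) : 2 ∣ l ⬝ᵥ x - l ⬝ᵥ y := by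
  obtain ⟨a, ha⟩ := h 0
  obtain ⟨b, hb⟩ := h 1
  obtain ⟨c, hc⟩ := h 2
  refine ⟨l 0 * a + l 1 * b + l 2 * c, ?_⟩
  simp only [dotProduct, Fin.sum_univ_three]
  linear_combination l 0 * ha + l 1 * hb + l 2 * hc

theorem Cg.mulVec {x y : Fin 3 → ℤ} (h : Cg x y) (u : MZ) : Cg (u *ᵥ x) (u *ᵥ y) :=
  fun i => h.dot (fun j => u i j)

theorem inv1 (g : SL(3, ℤ)) : g.1 * (g⁻¹ : SL(3, ℤ)).1 = 1 := by
  rw [← Matrix.SpecialLinearGroup.coe_mul, mul_inv_cancel]; rfl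

theorem inv2 (g : SL(3, ℤ)) : (g⁻¹ : SL(3, ℤ)).1 * g.1 = 1 := by
  rw [← Matrix.SpecialLinearGroup.coe_mul, inv_mul_cancel]; rfl

theorem tr1 (g : SL(3, ℤ)) (x : Fin 3 → ℤ) : g.1ᵀ *ᵥ ((g⁻¹ : SL(3, ℤ)).1ᵀ *ᵥ x) = x := by
  rw [Matrix.mulVec_mulVec, ← Matrix.transpose_mul, inv2, Matrix.transpose_one, Matrix.one_mulVec]

theorem tr2 (g : SL(3, ℤ)) (x : Fin 3 → ℤ) : (g⁻¹ : SL(3, ℤ)).1ᵀ *ᵥ (g.1ᵀ *ᵥ x) = x := by
  rw [Matrix.mulVec_mulVec, ← Matrix.transpose_mul, inv1, Matrix.transpose_one, Matrix.one_mulVec]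

theorem act_inv1 (g : SL(3, ℤ)) (Q : Vx) : act g.1 (act (g⁻¹ : SL(3, ℤ)).1 Q) = Q := by
  rw [← act_mul, inv1, act_one]

theorem act_inv2 (g : SL(3, ℤ)) (Q : Vx) : act (g⁻¹ : SL(3, ℤ)).1 (act g.1 Q) = Q := by
  rw [← act_mul, inv2, act_one]

theorem act_inv_q (g : SL(3, ℤ)) (v : Fin 3 → ℤ) :
    act (g⁻¹ : SL(3, ℤ)).1 (q (g.1 *ᵥ v)) = q v := by
  rw [← act_q, act_inv2]

theorem inCone_of {φ : Finset Vx} {Q : Vx} (a : Fin 6 → Vx) (P : Fin 6 → ℝ) (hP : ∀ r, 0 ≤ P r)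
    (hQ : Q = ∑ r, P r • a r) (hφ : ∀ r, P r ≠ 0 → a r ∈ φ) : InCone φ Q := by
  classical
  refine ⟨fun A => ∑ r, if a r = A then P r else 0, fun A => ?_, ?_⟩
  · refine Finset.sum_nonneg fun r _ => ?_
    split_ifs
    · exact hP r
    · exact le_rfl
  · rw [hQ]
    simp only [Finset.sum_smul]
    rw [Finset.sum_comm]
    refine Finset.sum_congr rfl fun r _ => ?_
    have : ∀ A ∈ φ, (if a r = A then P r else 0) • A = if a r = A then P r • a r else 0 := by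
      intro A _
      split_ifs with h
      · rw [h]
      · exact zero_smul _ _
    rw [Finset.sum_congr rfl this, Finset.sum_ite_eq]
    split_ifs with h
    · rfl
    · have : P r = 0 := by
        by_contra h0
        exact h (hφ r h0)
      rw [this, zero_smul]

/-- Description of the cone of a set of vertices of one Selling cone. -/
theorem inCone_iff {φ : Finset Vx} (h : SL(3, ℤ)) (hφ : ∀ A ∈ φ, ∃ r, A = q (h.1 *ᵥ root r))
    (Q : Vx) : InCone φ Q ↔ Sy Q ∧ ∀ r, 0 ≤ Pm r (act (h⁻¹ : SL(3, ℤ)).1 Q) ∧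
      (q (h.1 *ᵥ root r) ∉ φ → Pm r (act (h⁻¹ : SL(3, ℤ)).1 Q) = 0) := by
  constructor
  · rintro ⟨p, hp, rfl⟩
    refine ⟨fun i j => ?_, fun r => ?_⟩
    · simp only [Matrix.sum_apply, Matrix.smul_apply]
      refine Finset.sum_congr rfl fun A hA => ?_
      obtain ⟨r, rfl⟩ := hφ A hA
      rw [sy_q _ i j]
    · simp only [map_sum, map_smul, smul_eq_mul]
      constructor
      · refine Finset.sum_nonneg fun A hA => mul_nonneg (hp A) ?_
        obtain ⟨r', rfl⟩ := hφ A hA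
        rw [act_inv_q, Pm_root]
        split_ifs <;> norm_num
      · intro hn
        refine Finset.sum_eq_zero fun A hA => ?_
        obtain ⟨r', rfl⟩ := hφ A hA
        rw [act_inv_q, Pm_root, if_neg, mul_zero]
        rintro rfl
        exact hn hA
  · rintro ⟨hs, hP⟩
    refine inCone_of (fun r => q (h.1 *ᵥ root r)) (fun r => Pm r (act (h⁻¹ : SL(3, ℤ)).1 Q))
      (fun r => (hP r).1) ?_ fun r h0 => ?_
    · conv_lhs => rw [← act_inv1 h Q, sell (sy_act (h⁻¹ : SL(3, ℤ)).1 hs)]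
      simp only [map_sum, map_smul, act_q]
    · by_contra hn
      exact h0 ((hP r).2 hn)

theorem isClosed_inCone {φ : Finset Vx} (h : SL(3, ℤ))
    (hφ : ∀ A ∈ φ, ∃ r, A = q (h.1 *ᵥ root r)) : IsClosed {Q : Vx | InCone φ Q} := by
  have hc : ∀ r, Continuous fun Q : Vx => Pm r (act (h⁻¹ : SL(3, ℤ)).1 Q) := fun r =>
    ((Pm r).comp (act (h⁻¹ : SL(3, ℤ)).1)).continuous_of_finiteDimensional
  simp only [inCone_iff h hφ, Sy, Set.setOf_and, Set.setOf_forall]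
  refine IsClosed.inter (isClosed_iInter fun i => isClosed_iInter fun j => ?_)
    (isClosed_iInter fun r => IsClosed.inter ?_ (isClosed_iInter fun _ => ?_))
  · exact isClosed_eq (by fun_prop) (by fun_prop)
  · exact isClosed_le continuous_const (hc r)
  · exact isClosed_eq (hc r) continuous_const

end Pool.Agent.H40Z.Sell
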