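import Pool.Agent.H40Z.SellA

/-! Selling reduction of ternary forms: covering, fan property, local finiteness. -/

set_option autoImplicit false
set_option maxHeartbeats 400000

namespace Pool.Agent.H40Z.Sell

open Matrix Pool.Agent.H177Z.MP
open scoped MatrixGroups Topology

/-- The squared length of an integer vector. -/
def n2 (x : Fin 3 → ℤ) : ℝ := (x 0 : ℝ) ^ 2 + (x 1 : ℝ) ^ 2 + (x 2 : ℝ) ^ 2

theorem n2_nonneg (x : Fin 3 → ℤ) : 0 ≤ n2 x := by unfold n2; positivity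

theorem sq_le_n2 (x : Fin 3 → ℤ) (i : Fin 3) : (x i : ℝ) ^ 2 ≤ n2 x := by
  unfold n2
  fin_cases i <;> simp <;> nlinarith [sq_nonneg (x 0 : ℝ), sq_nonneg (x 1 : ℝ), sq_nonneg (x 2 : ℝ)]

theorem lower {Q : Vx} (h : Q.PosDef) : ∃ c : ℝ, 0 < c ∧ ∀ x, c * n2 x ≤ ev x Q := by
  let f : (Fin 3 → ℝ) → ℝ := fun x => ∑ i, ∑ j, x i * Q i j * x j
  have hf : Continuous f := by fun_prop
  have hne : (Metric.sphere (0 : Fin 3 → ℝ) 1).Nonempty := NormedSpace.sphere_nonempty.2 zero_le_one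
  obtain ⟨x0, hx0, hmin⟩ := (isCompact_sphere (0 : Fin 3 → ℝ) 1).exists_isMinOn hne hf.continuousOn
  have hx0n : ‖x0‖ = 1 := by simpa using hx0
  have hpos : 0 < f x0 := by
    have h0 : x0 ≠ 0 := by
      rintro rfl
      simp at hx0n
    have := h.dotProduct_mulVec_pos h0
    simp only [star_trivial, dotProduct, Matrix.mulVec, Finset.mul_sum] at this
    simpa only [f, mul_assoc] using this
  refine ⟨f x0 / 3, by positivity, fun x => ?_⟩
  let y : Fin 3 → ℝ := fun i => (x i : ℝ)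
  have hy : ∀ i, (x i : ℝ) ^ 2 ≤ ‖y‖ ^ 2 := fun i => by
    have := norm_le_pi_norm y i
    rw [Real.norm_eq_abs] at this
    rw [← sq_abs]
    exact pow_le_pow_left₀ (abs_nonneg _) this 2
  have hn : n2 x ≤ 3 * ‖y‖ ^ 2 := by
    unfold n2
    linarith [hy 0, hy 1, hy 2]
  have hev : ev x Q = f y := rfl
  by_cases h0 : ‖y‖ = 0
  · have hy0 : y = 0 := norm_eq_zero.1 h0
    have : f y = 0 := by simp [f, hy0]
    rw [hev, this]
    rw [h0] at hn
    have := n2_nonneg x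
    nlinarith
  · have hp : 0 < ‖y‖ := lt_of_le_of_ne (norm_nonneg _) (Ne.symm h0)
    have hs : ‖y‖⁻¹ • y ∈ Metric.sphere (0 : Fin 3 → ℝ) 1 := by
      simp [norm_smul, inv_mul_cancel₀ h0]
    have h1 : f x0 ≤ f (‖y‖⁻¹ • y) := hmin hs
    have h2 : f y = ‖y‖ ^ 2 * f (‖y‖⁻¹ • y) := by
      simp only [f, Pi.smul_apply, smul_eq_mul, Fin.sum_univ_three]
      field_simp
    rw [hev, h2]
    nlinarith [sq_nonneg ‖y‖]

theorem finite_sl (B : ℝ) : {u : SL(3, ℤ) | ∀ i, n2 (fun j => u.1 i j) ≤ B}.Finite := by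
  have h1 : {m : Fin 3 → Fin 3 → ℤ | ∀ i, m i ∈ {v : Fin 3 → ℤ | ∀ j, v j ∈ Set.Icc (-⌈B⌉) ⌈B⌉}}.Finite :=
    Set.Finite.pi' fun _ => Set.Finite.pi' fun _ => Set.finite_Icc _ _
  refine (h1.preimage (f := fun u : SL(3, ℤ) => (u.1 : Fin 3 → Fin 3 → ℤ))
    Subtype.val_injective.injOn).subset fun u hu i j => ?_
  have h2 := (sq_le_n2 (fun j => u.1 i j) j).trans (hu i)
  have h3 : ((u.1 i j ^ 2 : ℤ) : ℝ) ≤ (⌈B⌉ : ℤ) := by
    push_cast
    exact h2.trans (Int.le_ceil B)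
  have h4 : u.1 i j ^ 2 ≤ ⌈B⌉ := by exact_mod_cast h3
  constructor <;> nlinarith [sq_nonneg (u.1 i j + 1), sq_nonneg (u.1 i j - 1),
    sq_nonneg (u.1 i j)]

/-- The sum of the values on the standard superbase. -/
def TT (Q : Vx) : ℝ := Q 0 0 + Q 1 1 + Q 2 2 + ev ![1, 1, 1] Q

/-- The Selling steps. -/
def stp : Fin 6 → MZ :=
  ![!![1, 0, 0; -1, -1, 0; -1, 0, -1], !![-1, -1, 0; 0, 1, 0; 0, -1, -1],
    !![-1, 0, -1; 0, -1, -1; 0, 0, 1], !![1, 0, 0; 0, -1, 0; -1, 0, -1],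
    !![1, 0, 0; -1, -1, 0; 0, 0, -1], !![-1, -1, 0; 0, 1, 0; 0, 0, -1]]

theorem stp_det (r : Fin 6) : (stp r).det = 1 := by
  fin_cases r <;> simp [stp, Matrix.det_fin_three]

theorem TT_stp {Q : Vx} (h : Sy Q) (r : Fin 6) : TT (act (stp r) Q) = TT Q + 2 * Pm r Q := by
  have h1 := h 1 0
  have h2 := h 2 0
  have h3 := h 2 1
  fin_cases r <;>
    simp [TT, ev_apply, act_apply, stp, Pm_apply, Fin.sum_univ_three] <;> linarith

theorem act_diag (u : MZ) (Q : Vx) (i : Fin 3) : act u Q i i = ev (fun j => u i j) Q := rfl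

theorem cover {Q : Vx} (h : Q.PosDef) : ∃ u : SL(3, ℤ), ∀ r, 0 ≤ Pm r (act u.1 Q) := by
  obtain ⟨c, hc, hl⟩ := lower h
  have hnn : ∀ x, 0 ≤ ev x Q := fun x => (mul_nonneg hc.le (n2_nonneg x)).trans (hl x)
  have hfin : {u : SL(3, ℤ) | TT (act u.1 Q) ≤ TT Q}.Finite := by
    refine (finite_sl (TT Q / c)).subset fun u hu i => ?_
    have h0 : TT (act u.1 Q) ≤ TT Q := hu
    rw [TT, act_diag, act_diag, act_diag, ev_act] at h0
    have a0 := hnn fun j => u.1 0 j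
    have a1 := hnn fun j => u.1 1 j
    have a2 := hnn fun j => u.1 2 j
    have a3 := hnn (u.1ᵀ *ᵥ ![1, 1, 1])
    have a4 : ev (fun j => u.1 i j) Q ≤ TT Q := by
      fin_cases i <;> simp only [Fin.zero_eta, Fin.mk_one, Fin.reduceFinMk] <;> linarith
    rw [le_div_iff₀ hc, mul_comm]
    exact (hl _).trans a4
  obtain ⟨u, hu, hmin⟩ := Set.exists_min_image _ (fun u : SL(3, ℤ) => TT (act u.1 Q)) hfin
    ⟨1, by
      change TT (act 1 Q) ≤ TT Q
      rw [act_one]⟩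
  refine ⟨u, fun r => ?_⟩
  by_contra hneg
  push Not at hneg
  let s : SL(3, ℤ) := ⟨stp r, stp_det r⟩
  have e : TT (act (s * u).1 Q) = TT (act u.1 Q) + 2 * Pm r (act u.1 Q) := by
    rw [Matrix.SpecialLinearGroup.coe_mul, act_mul]
    exact TT_stp (sy_act _ (sy_of_posDef h)) r
  have hu' : TT (act u.1 Q) ≤ TT Q := hu
  have := hmin (s * u) (by
    change TT (act (s * u).1 Q) ≤ TT Q
    linarith)
  linarith

/-- The determinant of three roots. -/
def det3 (a b c : Fin 3 → ℤ) : ℤ :=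
  a 0 * b 1 * c 2 - a 0 * c 1 * b 2 - b 0 * a 1 * c 2 + b 0 * c 1 * a 2 + c 0 * a 1 * b 2 -
    c 0 * b 1 * a 2

theorem basis_or_cut : ∀ T : Fin 6 → Bool,
    (∃ r1 r2 r3, T r1 = true ∧ T r2 = true ∧ T r3 = true ∧
      det3 (root r1) (root r2) (root r3) = 1) ∨
    ∃ a b c : Fin 2, (a ≠ 0 ∨ b ≠ 0 ∨ c ≠ 0) ∧ ∀ r, T r = true →
      root r 0 * (a.val : ℤ) + root r 1 * (b.val : ℤ) + root r 2 * (c.val : ℤ) = 0 := by
  decide +kernel

theorem small_root (m : Fin 3 → ℤ) (hm : ∀ z : Fin 3 → ℤ, (∀ i, z i = 0 ∨ z i = 1) →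
    (m ⬝ᵥ z) ^ 2 ≤ 1) (r : Fin 6) (hr : Pm r (q m) ≠ 0) : q m = q (root r) := by
  have t : ∀ a b c : ℤ, (a = 0 ∨ a = 1) → (b = 0 ∨ b = 1) → (c = 0 ∨ c = 1) →
      -1 ≤ m 0 * a + m 1 * b + m 2 * c ∧ m 0 * a + m 1 * b + m 2 * c ≤ 1 := by
    intro a b c ha hb hc
    have := hm ![a, b, c] (fun i => by fin_cases i <;> simpa)
    simp only [dotProduct, Fin.sum_univ_three, Matrix.cons_val_zero, Matrix.cons_val_one,
      Matrix.cons_val] at this
    constructor <;> nlinarith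
  have t1 := t 1 0 0 (by simp) (by simp) (by simp)
  have t2 := t 0 1 0 (by simp) (by simp) (by simp)
  have t3 := t 0 0 1 (by simp) (by simp) (by simp)
  have t4 := t 1 1 0 (by simp) (by simp) (by simp)
  have t5 := t 1 0 1 (by simp) (by simp) (by simp)
  have t6 := t 0 1 1 (by simp) (by simp) (by simp)
  have t7 := t 1 1 1 (by simp) (by simp) (by simp)
  have hcase : m = 0 ∨ ∃ r', m = root r' ∨ m = -root r' := by
    have e : m = ![m 0, m 1, m 2] := by
      funext i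
      fin_cases i <;> rfl
    rw [e]
    generalize m 0 = a at *
    generalize m 1 = b at *
    generalize m 2 = c at *
    have ha : a = -1 ∨ a = 0 ∨ a = 1 := by omega
    have hb : b = -1 ∨ b = 0 ∨ b = 1 := by omega
    have hc : c = -1 ∨ c = 0 ∨ c = 1 := by omega
    rcases ha with rfl | rfl | rfl <;> rcases hb with rfl | rfl | rfl <;>
      rcases hc with rfl | rfl | rfl <;> first | omega | decide
  rcases hcase with rfl | ⟨r', rfl | rfl⟩
  · exfalso
    apply hr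
    have : q 0 = 0 := by
      ext i j
      simp [q]
    rw [this, map_zero]
  · rw [Pm_root] at hr
    have : r = r' := by
      by_contra h
      exact hr (if_neg h)
    rw [this]
  · rw [q_neg, Pm_root] at hr
    have : r = r' := by
      by_contra h
      exact hr (if_neg h)
    rw [this, q_neg]

end Pool.Agent.H40Z.Sell
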