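import Pool.Agent.H40Z.SellB

/-! Selling reduction of ternary forms: the final statement. -/

set_option autoImplicit false
set_option maxHeartbeats 400000

namespace Pool.Agent.H40Z.Sell

open Matrix Pool.Agent.H177Z.MP
open scoped MatrixGroups Topology

theorem term_le (h : MZ) (r : Fin 6) {y y' : Fin 3 → ℤ}
    (hy : ∀ i, (hᵀ *ᵥ y) i = 0 ∨ (hᵀ *ᵥ y) i = 1) (hc : Cg y y') :
    ev y (q (h *ᵥ root r)) ≤ ev y' (q (h *ᵥ root r)) ∧ ev y (q (h *ᵥ root r)) ≤ 1 := by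
  have h1 : ((h *ᵥ root r) ⬝ᵥ y) ^ 2 ≤ 1 := by
    rw [dot_mulVec]
    exact root_dot_sq hy r
  rw [ev_q, ev_q]
  exact ⟨by exact_mod_cast sq_le_of_even h1 (hc.dot _), by exact_mod_cast h1⟩

theorem cone_min {φ : Finset Vx} {Q : Vx} (h : MZ) (hφ : ∀ A ∈ φ, ∃ r, A = q (h *ᵥ root r))
    (hQ : InCone φ Q) {y y' : Fin 3 → ℤ}
    (hy : ∀ i, (hᵀ *ᵥ y) i = 0 ∨ (hᵀ *ᵥ y) i = 1) (hc : Cg y y') : ev y Q ≤ ev y' Q := by
  obtain ⟨p, hp, rfl⟩ := hQ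
  simp only [map_sum, map_smul, smul_eq_mul]
  refine Finset.sum_le_sum fun A hA => mul_le_mul_of_nonneg_left ?_ (hp A)
  obtain ⟨r, rfl⟩ := hφ A hA
  exact (term_le h r hy hc).1

theorem rep (g : SL(3, ℤ)) {Q : Vx} (hs : Sy Q) :
    Q = ∑ r, Pm r (act (g⁻¹ : SL(3, ℤ)).1 Q) • q (g.1 *ᵥ root r) := by
  conv_lhs => rw [← act_inv1 g Q, sell (sy_act (g⁻¹ : SL(3, ℤ)).1 hs)]
  simp only [map_sum, map_smul, act_q]

theorem fan (g h : SL(3, ℤ)) {Q : Vx} (hs : Sy Q)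
    (hP : ∀ r, 0 ≤ Pm r (act (g⁻¹ : SL(3, ℤ)).1 Q)) {φ : Finset Vx}
    (hφ : ∀ A ∈ φ, ∃ r, A = q (h.1 *ᵥ root r)) (hQ : InCone φ Q) (r : Fin 6)
    (hr : Pm r (act (g⁻¹ : SL(3, ℤ)).1 Q) ≠ 0) : q (g.1 *ᵥ root r) ∈ φ := by
  obtain ⟨p, hp, hQ⟩ := hQ
  have key : ∀ z : Fin 3 → ℤ, (∀ i, z i = 0 ∨ z i = 1) → ∀ A ∈ φ, p A ≠ 0 →
      ev ((g⁻¹ : SL(3, ℤ)).1ᵀ *ᵥ z) A ≤ 1 := by
    intro z hz
    set x := (g⁻¹ : SL(3, ℤ)).1ᵀ *ᵥ z with hx
    set y := (h⁻¹ : SL(3, ℤ)).1ᵀ *ᵥ md (h.1ᵀ *ᵥ x) with hy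
    have hx1 : ∀ i, (g.1ᵀ *ᵥ x) i = 0 ∨ (g.1ᵀ *ᵥ x) i = 1 := by
      rw [hx, tr1]; exact hz
    have hy1 : ∀ i, (h.1ᵀ *ᵥ y) i = 0 ∨ (h.1ᵀ *ᵥ y) i = 1 := by
      rw [hy, tr1]; exact md_cases _
    have hc : Cg x y := by
      have := (cg_md (h.1ᵀ *ᵥ x)).mulVec (h⁻¹ : SL(3, ℤ)).1ᵀ
      rwa [tr2] at this
    have a1 : ev x Q ≤ ev y Q := by
      rw [rep g hs]
      simp only [map_sum, map_smul, smul_eq_mul]
      exact Finset.sum_le_sum fun r _ =>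
        mul_le_mul_of_nonneg_left (term_le g.1 r hx1 hc).1 (hP r)
    have a2 : ∀ A ∈ φ, ev y A ≤ ev x A ∧ ev y A ≤ 1 := by
      intro A hA
      obtain ⟨r, rfl⟩ := hφ A hA
      exact term_le h.1 r hy1 hc.symm
    have a3 : ∀ A ∈ φ, 0 ≤ p A * (ev x A - ev y A) := fun A hA =>
      mul_nonneg (hp A) (sub_nonneg.2 (a2 A hA).1)
    have a4 : ∑ A ∈ φ, p A * (ev x A - ev y A) = ev x Q - ev y Q := by
      rw [hQ]
      simp only [map_sum, map_smul, smul_eq_mul, mul_sub, Finset.sum_sub_distrib]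
    have a5 : ∑ A ∈ φ, p A * (ev x A - ev y A) = 0 :=
      le_antisymm (by linarith) (Finset.sum_nonneg a3)
    intro A hA hpA
    have a6 := (Finset.sum_eq_zero_iff_of_nonneg a3).1 a5 A hA
    rcases mul_eq_zero.1 a6 with h0 | h0
    · exact absurd h0 hpA
    · linarith [(a2 A hA).2]
  rw [hQ] at hr
  simp only [map_sum, map_smul, smul_eq_mul] at hr
  obtain ⟨A, hA, hne⟩ := Finset.exists_ne_zero_of_sum_ne_zero hr
  obtain ⟨r', hr'⟩ := hφ A hA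
  have b1 : p A ≠ 0 := left_ne_zero_of_mul hne
  have b2 := right_ne_zero_of_mul hne
  rw [hr', act_q] at b2
  have b3 := small_root _ (fun z hz => by
    have := key z hz A hA b1
    rw [hr', ev_q, ← dot_mulVec] at this
    exact_mod_cast this) r b2
  have b4 : A = q (g.1 *ᵥ root r) := by
    rw [← act_q, ← b3, ← act_q, act_inv1, hr']
  exact b4 ▸ hA

theorem geo_posDef (φ : Finset Vx) (hφ : Face φ) : (∑ A ∈ φ, A).PosDef := by
  obtain ⟨⟨g, hg⟩, h, hh⟩ := hφ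
  have hq : ∀ (v : Fin 3 → ℤ) (x : Fin 3 → ℝ),
      star x ⬝ᵥ (q v *ᵥ x) = ((v 0 : ℝ) * x 0 + v 1 * x 1 + v 2 * x 2) ^ 2 := by
    intro v x
    simp only [star_trivial, dotProduct, Matrix.mulVec, q, Matrix.of_apply, Fin.sum_univ_three]
    ring
  refine Matrix.PosDef.of_dotProduct_mulVec_pos ?_ fun x hx => ?_
  · ext i j
    simp only [Matrix.conjTranspose_apply, star_trivial, Matrix.sum_apply]
    refine Finset.sum_congr rfl fun A hA => ?_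
    obtain ⟨r, rfl⟩ := hg A hA
    exact sy_q _ j i
  · rw [Matrix.sum_mulVec, dotProduct_sum]
    have hnn : ∀ A ∈ φ, 0 ≤ star x ⬝ᵥ (A *ᵥ x) := by
      intro A hA
      obtain ⟨r, rfl⟩ := hg A hA
      rw [hq]
      positivity
    refine lt_of_le_of_ne (Finset.sum_nonneg hnn) fun h0 => hx ?_
    have h1 := (Finset.sum_eq_zero_iff_of_nonneg hnn).1 h0.symm
    have h2 : ∀ i, (h.1 0 i : ℝ) * x 0 + h.1 1 i * x 1 + h.1 2 i * x 2 = 0 := by
      intro i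
      have := h1 _ (hh i)
      rw [hq] at this
      exact pow_eq_zero_iff (two_ne_zero) |>.1 this
    funext j
    have h3 : ∀ a, (((h.1 * (h⁻¹ : SL(3, ℤ)).1) a j : ℤ) : ℝ) = (((1 : MZ) a j : ℤ) : ℝ) := by
      intro a
      rw [inv1]
    simp only [Matrix.mul_apply, Fin.sum_univ_three] at h3
    push_cast at h3
    have h4 : x j = x 0 * (((1 : MZ) 0 j : ℤ) : ℝ) + x 1 * (((1 : MZ) 1 j : ℤ) : ℝ) +
        x 2 * (((1 : MZ) 2 j : ℤ) : ℝ) := by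
      fin_cases j <;> simp [Matrix.one_apply]
    rw [h4, ← h3 0, ← h3 1, ← h3 2, Pi.zero_apply]
    linear_combination ((h⁻¹ : SL(3, ℤ)).1 0 j : ℝ) * h2 0 + ((h⁻¹ : SL(3, ℤ)).1 1 j : ℝ) * h2 1 +
      ((h⁻¹ : SL(3, ℤ)).1 2 j : ℝ) * h2 2

theorem geo_cover (Q : Vx) (hQ : Q.PosDef) :
    ∃ φ₀, Face φ₀ ∧ ∀ φ, Face φ → (InCone φ Q ↔ φ₀ ⊆ φ) := by
  classical
  obtain ⟨u, hu⟩ := cover hQ
  obtain ⟨g, rfl⟩ : ∃ g : SL(3, ℤ), u = g⁻¹ := ⟨u⁻¹, (inv_inv u).symm⟩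
  have hs := sy_of_posDef hQ
  set P : Fin 6 → ℝ := fun r => Pm r (act (g⁻¹ : SL(3, ℤ)).1 Q) with hPdef
  have hmem : ∀ r, P r ≠ 0 →
      q (g.1 *ᵥ root r) ∈ (Finset.univ.filter fun r => P r ≠ 0).image
        fun r => q (g.1 *ᵥ root r) := fun r hr =>
    Finset.mem_image.2 ⟨r, Finset.mem_filter.2 ⟨Finset.mem_univ _, hr⟩, rfl⟩
  refine ⟨(Finset.univ.filter fun r => P r ≠ 0).image fun r => q (g.1 *ᵥ root r),
    ⟨⟨g, fun A hA => ?_⟩, ?_⟩, fun φ hφ => ⟨fun hc A hA => ?_, fun hsub => ?_⟩⟩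
  · obtain ⟨r, -, rfl⟩ := Finset.mem_image.1 hA
    exact ⟨r, rfl⟩
  · rcases basis_or_cut (fun r => decide (P r ≠ 0)) with
      ⟨r1, r2, r3, h1, h2, h3, hd⟩ | ⟨a, b, c, hne, hz⟩
    · let m : MZ := Matrix.of fun a i => root (![r1, r2, r3] i) a
      have hm : m.det = 1 := by
        rw [← hd, Matrix.det_fin_three]
        simp [m, det3]
      let ms : SL(3, ℤ) := ⟨m, hm⟩
      refine ⟨g * ms, fun i => ?_⟩
      have e : (fun a => (g * ms).1 a i) = g.1 *ᵥ root (![r1, r2, r3] i) := rfl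
      rw [e]
      refine hmem _ ?_
      fin_cases i
      · simpa using h1
      · simpa using h2
      · simpa using h3
    · exfalso
      obtain ⟨c0, hc0, hl⟩ := lower hQ
      let z : Fin 3 → ℤ := ![(a.val : ℤ), (b.val : ℤ), (c.val : ℤ)]
      have e1 : ev ((g⁻¹ : SL(3, ℤ)).1ᵀ *ᵥ z) Q = 0 := by
        rw [rep g hs]
        simp only [map_sum, map_smul, smul_eq_mul]
        refine Finset.sum_eq_zero fun r _ => ?_
        by_cases h0 : P r = 0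
        · exact mul_eq_zero_of_left h0 _
        · have := hz r (by simpa using h0)
          rw [ev_q, dot_mulVec, tr1]
          have e2 : root r ⬝ᵥ z = 0 := by
            rw [← this]
            simp [z, dotProduct, Fin.sum_univ_three]
          rw [e2]
          simp
      have e3 := hl ((g⁻¹ : SL(3, ℤ)).1ᵀ *ᵥ z)
      rw [e1] at e3
      have e4 : n2 ((g⁻¹ : SL(3, ℤ)).1ᵀ *ᵥ z) ≤ 0 := by
        by_contra hn
        push Not at hn
        nlinarith [mul_pos hc0 hn]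
      have e5 : (g⁻¹ : SL(3, ℤ)).1ᵀ *ᵥ z = 0 := by
        funext i
        have := (sq_le_n2 _ i).trans e4
        have h5 : ((((g⁻¹ : SL(3, ℤ)).1ᵀ *ᵥ z) i : ℤ) : ℝ) = 0 :=
          pow_eq_zero_iff two_ne_zero |>.1 (le_antisymm this (sq_nonneg _))
        exact_mod_cast h5
      have e6 : z = 0 := by rw [← tr1 g z, e5, Matrix.mulVec_zero]
      have f0 : (a.val : ℤ) = 0 := congrFun e6 0
      have f1 : (b.val : ℤ) = 0 := congrFun e6 1
      have f2 : (c.val : ℤ) = 0 := congrFun e6 2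
      rcases hne with h | h | h <;> exact h (Fin.ext (by simp only [Fin.val_zero]; omega))
  · obtain ⟨r, hr, rfl⟩ := Finset.mem_image.1 hA
    obtain ⟨⟨h, hh⟩, -⟩ := hφ
    exact fan g h hs hu hh hc r (Finset.mem_filter.1 hr).2
  · exact inCone_of (fun r => q (g.1 *ᵥ root r)) P hu (rep g hs) fun r hr => hsub (hmem r hr)

theorem ev_close {Q Q₀ : Vx} {δ : ℝ} (h : ∀ i j, |Q i j - Q₀ i j| ≤ δ) (x : Fin 3 → ℤ) :
    |ev x Q - ev x Q₀| ≤ 3 * δ * n2 x := by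
  have hδ : 0 ≤ δ := (abs_nonneg _).trans (h 0 0)
  have h1 : ∀ i j, |(x i : ℝ) * (Q i j - Q₀ i j) * x j| ≤ δ * (((x i : ℝ) ^ 2 + (x j : ℝ) ^ 2) / 2) := by
    intro i j
    rw [abs_mul, abs_mul]
    have a1 := h i j
    have a2 : |(x i : ℝ)| * |(x j : ℝ)| ≤ ((x i : ℝ) ^ 2 + (x j : ℝ) ^ 2) / 2 := by
      nlinarith [sq_nonneg (|(x i : ℝ)| - |(x j : ℝ)|), sq_abs (x i : ℝ), sq_abs (x j : ℝ)]
    calc |(x i : ℝ)| * |Q i j - Q₀ i j| * |(x j : ℝ)|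
        = |Q i j - Q₀ i j| * (|(x i : ℝ)| * |(x j : ℝ)|) := by ring
      _ ≤ δ * (((x i : ℝ) ^ 2 + (x j : ℝ) ^ 2) / 2) :=
        mul_le_mul a1 a2 (by positivity) hδ
  have e : ev x Q - ev x Q₀ = ∑ i, ∑ j, (x i : ℝ) * (Q i j - Q₀ i j) * x j := by
    simp only [ev_apply, Fin.sum_univ_three]
    ring
  rw [e]
  refine (Finset.abs_sum_le_sum_abs _ _).trans ((Finset.sum_le_sum fun i _ =>
    (Finset.abs_sum_le_sum_abs _ _).trans (Finset.sum_le_sum fun j _ => h1 i j)).trans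
    (le_of_eq ?_))
  simp only [Fin.sum_univ_three, n2]
  ring

theorem geo_usc (Q₀ : Vx) (hQ : Q₀.PosDef) :
    ∀ᶠ Q in 𝓝 Q₀, ∀ φ, Face φ → InCone φ Q → InCone φ Q₀ := by
  classical
  obtain ⟨c, hc, hl⟩ := lower hQ
  have hnear : ∀ᶠ Q in 𝓝 Q₀, ∀ i j, |Q i j - Q₀ i j| ≤ c / 6 := by
    refine Filter.eventually_all.2 fun i => Filter.eventually_all.2 fun j => ?_
    have hcont : Continuous fun Q : Vx => |Q i j - Q₀ i j| := by fun_prop
    have := hcont.continuousAt (x := Q₀)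
    refine (this.eventually_lt continuousAt_const (by simpa using hc)).mono fun Q h => h.le
  -- a bound for the values at `0-1` vectors
  obtain ⟨C, hC⟩ : ∃ C : ℝ, ∀ z : Fin 3 → ℤ, (∀ i, z i = 0 ∨ z i = 1) → ev z Q₀ ≤ C ∧ n2 z ≤ 3 := by
    refine ⟨3 * (∑ i, ∑ j, |Q₀ i j|) * 3, fun z hz => ?_⟩
    have hn : n2 z ≤ 3 := by
      unfold n2
      rcases hz 0 with h0 | h0 <;> rcases hz 1 with h1 | h1 <;> rcases hz 2 with h2 | h2 <;>
        rw [h0, h1, h2] <;> norm_num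
    refine ⟨?_, hn⟩
    have h1 := ev_close (Q := Q₀) (Q₀ := 0) (δ := ∑ i, ∑ j, |Q₀ i j|) (fun i j => by
      rw [Matrix.zero_apply, sub_zero]
      exact (Finset.single_le_sum (f := fun j => |Q₀ i j|) (fun _ _ => abs_nonneg _)
        (Finset.mem_univ j)).trans (Finset.single_le_sum (f := fun i => ∑ j, |Q₀ i j|)
        (fun _ _ => Finset.sum_nonneg fun _ _ => abs_nonneg _) (Finset.mem_univ i))) z
    rw [map_zero, sub_zero] at h1
    have h2 : 0 ≤ ∑ i, ∑ j, |Q₀ i j| :=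
      Finset.sum_nonneg fun _ _ => Finset.sum_nonneg fun _ _ => abs_nonneg _
    exact (le_abs_self _).trans (h1.trans (mul_le_mul_of_nonneg_left hn (by positivity)))
  set B : ℝ := (C + 3 * (c / 6) * 3) / (c / 2) with hB
  have hfin := finite_sl B
  let W : Finset Vx := (hfin.toFinset ×ˢ (Finset.univ : Finset (Fin 6))).image
    fun t => q ((t.1⁻¹ : SL(3, ℤ)).1 *ᵥ root t.2)
  have hall : ∀ᶠ Q in 𝓝 Q₀, ∀ φ ∈ W.powerset, Face φ → InCone φ Q → InCone φ Q₀ := by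
    refine (Filter.eventually_all_finset _).2 fun φ _ => ?_
    by_cases hF : Face φ
    · by_cases h0 : InCone φ Q₀
      · exact Filter.Eventually.of_forall fun _ _ _ => h0
      · obtain ⟨⟨h, hh⟩, -⟩ := hF
        have := (isClosed_inCone h hh).isOpen_compl.mem_nhds (show Q₀ ∈ _ from h0)
        exact Filter.mem_of_superset this fun Q hQ' _ hc' => absurd hc' hQ'
    · exact Filter.Eventually.of_forall fun _ h => absurd h hF
  filter_upwards [hnear, hall] with Q h1 h2 φ hF hcone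
  refine h2 φ (Finset.mem_powerset.2 fun A hA => ?_) hF hcone
  obtain ⟨⟨h, hh⟩, -⟩ := hF
  obtain ⟨r, rfl⟩ := hh A hA
  refine Finset.mem_image.2 ⟨(h⁻¹, r), Finset.mem_product.2 ⟨?_, Finset.mem_univ _⟩, by simp⟩
  rw [Set.Finite.mem_toFinset]
  intro i
  set y : Fin 3 → ℤ := fun j => (h⁻¹ : SL(3, ℤ)).1 i j with hy
  have hy1 : ∀ k, (h.1ᵀ *ᵥ y) k = 0 ∨ (h.1ᵀ *ᵥ y) k = 1 := by
    intro k
    have e : (h.1ᵀ *ᵥ y) k = ((h⁻¹ : SL(3, ℤ)).1 * h.1) i k := by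
      simp only [Matrix.mulVec, dotProduct, Matrix.transpose_apply, Matrix.mul_apply, hy,
        mul_comm]
    rw [e, inv2, Matrix.one_apply]
    split_ifs
    · exact Or.inr rfl
    · exact Or.inl rfl
  have a1 := cone_min h.1 hh hcone hy1 (cg_md y)
  have a2 := abs_le.1 (ev_close h1 y)
  have a3 := abs_le.1 (ev_close h1 (md y))
  obtain ⟨a4, a5⟩ := hC (md y) (md_cases y)
  have a6 := hl y
  have a7 : 3 * (c / 6) * n2 (md y) ≤ 3 * (c / 6) * 3 :=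
    mul_le_mul_of_nonneg_left a5 (by positivity)
  rw [hB, le_div_iff₀ (by positivity)]
  change n2 y * (c / 2) ≤ _
  linarith [a2.1, a3.2]

theorem thm_geo : S_geo := ⟨geo_posDef, geo_cover, geo_usc⟩

end Pool.Agent.H40Z.Sell
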